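import Mathlib
import Pool.Agent.TH279.MD.Defs
import Pool.Agent.TH136.Tip.Push

/-!
# Change of variables for the `d`-to-one map `z ^ d + c` (job 2484, helper180)
-/

set_option autoImplicit false

open Set Filter Metric MeasureTheory
open Pool.Agent.TH279.MD

namespace Pool.Agent.TH180.J2484

theorem measurable_rt (d : ℕ) : Measurable (rt d) := by
  unfold rt
  fun_prop

theorem diff_f (d : ℕ) (c : ℂ) : Differentiable ℂ (f d c) := by
  unfold f
  fun_prop

theorem deriv_f (d : ℕ) (c y : ℂ) : deriv (f d c) y = d * y ^ (d - 1) := by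
  have h : HasDerivAt (fun z : ℂ => z ^ d + c) (d * y ^ (d - 1)) y := by
    have := (hasDerivAt_pow d y).add_const c
    simpa using this
  exact HasDerivAt.deriv h

theorem f_sub (d : ℕ) (c y : ℂ) : f d c y - c = y ^ d := by
  unfold f
  ring

/-- The complement of the slit plane is null. -/
theorem null_slit (c : ℂ) : volume {w : ℂ | w - c ∉ Complex.slitPlane} = 0 := by
  have h1 : {w : ℂ | w - c ∉ Complex.slitPlane} ⊆ (fun w => -Complex.I * (w - c)) ⁻¹' {z : ℂ | z.re = 0} := by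
    intro w hw
    have h2 : (w - c).im = 0 := by
      by_contra h
      exact hw (Or.inr h)
    change (-Complex.I * (w - c)).re = 0
    simp only [Complex.mul_re, Complex.neg_re, Complex.neg_im, Complex.I_re, Complex.I_im]
    rw [h2]
    ring
  refine measure_mono_null h1 ?_
  have h3 : (fun w : ℂ => -Complex.I * (w - c)) ⁻¹' {z : ℂ | z.re = 0} =
      (fun w : ℂ => w + -c) ⁻¹' {z : ℂ | z.im = 0} := by
    ext w
    simp [sub_eq_add_neg]
  rw [h3, measure_preimage_add_right]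
  have h := Measure.addHaar_submodule (volume : Measure ℂ) (LinearMap.ker Complex.imLm) (by
    intro h
    have h1 : Complex.I ∈ LinearMap.ker Complex.imLm := by rw [h]; trivial
    simp at h1)
  convert h using 2
  ext z
  simp

theorem null_span (ζ : ℂ) : volume ((Submodule.span ℝ {ζ} : Submodule ℝ ℂ) : Set ℂ) = 0 := by
  refine Measure.addHaar_submodule (volume : Measure ℂ) _ ?_
  intro h
  have h1 : Module.finrank ℝ (Submodule.span ℝ {ζ} : Submodule ℝ ℂ) ≤ 1 := by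
    have := finrank_span_le_card (R := ℝ) (M := ℂ) {ζ}
    simpa using this
  rw [h, finrank_top, Complex.finrank_real_complex] at h1
  omega

/-- The `y` for which `y ^ d` is not in the slit plane form a null set. -/
theorem null_pow {d : ℕ} (hd : 2 ≤ d) : volume {y : ℂ | y ^ d ∉ Complex.slitPlane} = 0 := by
  have h1 : {y : ℂ | y ^ d ∉ Complex.slitPlane} ⊆
      ⋃ ζ ∈ RU (d * 2), ((Submodule.span ℝ {ζ} : Submodule ℝ ℂ) : Set ℂ) := by
    intro y hy
    have hy1 : y ^ d ∉ Complex.slitPlane := hy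
    rw [Complex.mem_slitPlane_iff, not_or, not_not, not_lt] at hy1
    simp only [mem_iUnion]
    by_cases hy0 : y = 0
    · refine ⟨1, one_mem_RU (by omega), ?_⟩
      rw [hy0]
      exact Submodule.zero_mem _
    · have hn : (‖y‖ : ℂ) ≠ 0 := by
        exact_mod_cast (norm_ne_zero_iff.2 hy0)
      have h2 : y ^ d = -((‖y‖ : ℂ) ^ d) := by
        have h3 : ‖y‖ ^ d = |(y ^ d).re| := by
          rw [← norm_pow]
          conv_lhs => rw [show y ^ d = (((y ^ d).re : ℝ) : ℂ) from Complex.ext rfl (by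
            rw [hy1.2, Complex.ofReal_im])]
          rw [Complex.norm_real, Real.norm_eq_abs]
        have h4 : (y ^ d).re = - ‖y‖ ^ d := by
          rw [h3, abs_of_nonpos hy1.1, neg_neg]
        apply Complex.ext
        · rw [h4]
          rw [← Complex.ofReal_pow, ← Complex.ofReal_neg, Complex.ofReal_re]
        · rw [hy1.2, ← Complex.ofReal_pow, ← Complex.ofReal_neg, Complex.ofReal_im]
      refine ⟨y / ‖y‖, ?_, ?_⟩
      · rw [mem_RU (by omega), div_pow, pow_mul, h2, neg_sq, ← pow_mul, div_self]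
        exact pow_ne_zero _ hn
      · rw [SetLike.mem_coe, Submodule.mem_span_singleton]
        refine ⟨‖y‖, ?_⟩
        rw [Complex.real_smul]
        field_simp
  refine measure_mono_null h1 ?_
  exact (measure_biUnion_null_iff (Finset.countable_toSet (RU (d * 2)))).2 fun ζ _ => null_span ζ

/-- The sector on which `ζ * rt d` is the inverse of the power map. -/
def Sec (d : ℕ) (ζ : ℂ) : Set ℂ := {y | y ^ d ∈ Complex.slitPlane ∧ ζ * rt d (y ^ d) = y}

theorem meas_Sec (d : ℕ) (ζ : ℂ) : MeasurableSet (Sec d ζ) := by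
  have h1 : MeasurableSet {y : ℂ | y ^ d ∈ Complex.slitPlane} :=
    (measurable_id.pow_const d) Complex.isOpen_slitPlane.measurableSet
  have h2 : MeasurableSet {y : ℂ | ζ * rt d (y ^ d) = y} :=
    measurableSet_eq_fun (((measurable_rt d).comp (measurable_id.pow_const d)).const_mul ζ)
      measurable_id
  exact h1.inter h2

theorem image_Sec {d : ℕ} (hd : 2 ≤ d) (c : ℂ) (S : Set ℂ) {ζ : ℂ} (hζ : ζ ∈ RU d) :
    (f d c) '' ((f d c) ⁻¹' S ∩ Sec d ζ) = S ∩ {w | w - c ∈ Complex.slitPlane} := by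
  ext w
  constructor
  · rintro ⟨y, ⟨hy, hyH⟩, rfl⟩
    refine ⟨hy, ?_⟩
    change f d c y - c ∈ Complex.slitPlane
    rw [f_sub]
    exact hyH.1
  · rintro ⟨hwS, hw⟩
    have hw' : w - c ∈ Complex.slitPlane := hw
    have h1 : (ζ * rt d (w - c)) ^ d = w - c := by
      rw [mul_pow, (mem_RU hd).1 hζ, one_mul, rt_pow hd]
    have h2 : f d c (ζ * rt d (w - c)) = w := by
      unfold f
      rw [h1, sub_add_cancel]
    refine ⟨ζ * rt d (w - c), ⟨?_, ?_, ?_⟩, h2⟩
    · change f d c (ζ * rt d (w - c)) ∈ S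
      rwa [h2]
    · rw [h1]
      exact hw'
    · rw [h1]

theorem inj_Sec (d : ℕ) (c : ℂ) (A : Set ℂ) (ζ : ℂ) : InjOn (f d c) (A ∩ Sec d ζ) := by
  rintro x ⟨_, hx⟩ y ⟨_, hy⟩ hxy
  have h1 : x ^ d = y ^ d := by
    have : x ^ d + c = y ^ d + c := hxy
    exact add_right_cancel this
  rw [← hx.2, ← hy.2, h1]

theorem sector {d : ℕ} (hd : 2 ≤ d) (c : ℂ) {S : Set ℂ} (hS : MeasurableSet S) (ψ : ℂ → ENNReal)
    {ζ : ℂ} (hζ : ζ ∈ RU d) :
    ∫⁻ y in (f d c) ⁻¹' S ∩ Sec d ζ, ψ y =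
      ∫⁻ w in S, ψ (ζ * rt d (w - c)) * ENNReal.ofReal (1 / ((d : ℝ) ^ 2 * ‖w - c‖ ^ al d)) := by
  have hA : MeasurableSet ((f d c) ⁻¹' S ∩ Sec d ζ) :=
    ((diff_f d c).continuous.measurable hS).inter (meas_Sec d ζ)
  have h1 := Pool.Agent.TH136.Tip.lintegral_holo (diff_f d c) hA (inj_Sec d c _ ζ)
    (fun w => ψ (ζ * rt d (w - c)) * ENNReal.ofReal (1 / ((d : ℝ) ^ 2 * ‖w - c‖ ^ al d)))
  have h2 : ∫⁻ y in (f d c) ⁻¹' S ∩ Sec d ζ, ψ y = ∫⁻ z in (f d c) ⁻¹' S ∩ Sec d ζ,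
      ENNReal.ofReal (‖deriv (f d c) z‖ ^ 2) * (ψ (ζ * rt d (f d c z - c)) *
        ENNReal.ofReal (1 / ((d : ℝ) ^ 2 * ‖f d c z - c‖ ^ al d))) := by
    refine setLIntegral_congr_fun hA ?_
    rintro y ⟨_, hy⟩
    have hy0 : y ≠ 0 := by
      rintro rfl
      have h := hy.1
      rw [zero_pow (by omega)] at h
      exact Complex.zero_notMem_slitPlane h
    have hn : 0 < ‖y‖ := norm_pos_iff.2 hy0
    have hd0 : (0 : ℝ) < d := by
      have : (2 : ℝ) ≤ d := by exact_mod_cast hd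
      linarith
    change ψ y = ENNReal.ofReal (‖deriv (f d c) y‖ ^ 2) * (ψ (ζ * rt d (f d c y - c)) *
        ENNReal.ofReal (1 / ((d : ℝ) ^ 2 * ‖f d c y - c‖ ^ al d)))
    rw [f_sub, hy.2, deriv_f, mul_left_comm, ← ENNReal.ofReal_mul (by positivity)]
    have h4 : ‖(d : ℂ) * y ^ (d - 1)‖ ^ 2 * (1 / ((d : ℝ) ^ 2 * ‖y ^ d‖ ^ al d)) = 1 := by
      rw [norm_mul, norm_pow, norm_pow, pow_al hd hn.le, Complex.norm_natCast, mul_pow, ← pow_mul,
        mul_comm (d - 1) 2]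
      field_simp
    rw [h4, ENNReal.ofReal_one, mul_one]
  rw [h2, h1, image_Sec hd c S hζ]
  apply setLIntegral_congr
  have h5 : (S ∩ {w | w - c ∈ Complex.slitPlane} : Set ℂ) =ᵐ[volume] (S ∩ univ : Set ℂ) := by
    apply Filter.EventuallyEq.inter (ae_eq_refl _)
    rw [ae_eq_univ]
    exact null_slit c
  rwa [inter_univ] at h5

theorem dual {d : ℕ} (hd : 2 ≤ d) (c : ℂ) {S : Set ℂ} (hS : MeasurableSet S) {ψ : ℂ → ENNReal}
    (hψ : Measurable ψ) :
    ∫⁻ y in (f d c) ⁻¹' S, ψ y =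
      ∫⁻ w in S, (∑ ζ ∈ RU d, ψ (ζ * rt d (w - c))) *
        ENNReal.ofReal (1 / ((d : ℝ) ^ 2 * ‖w - c‖ ^ al d)) := by
  classical
  have hpre : MeasurableSet ((f d c) ⁻¹' S) := (diff_f d c).continuous.measurable hS
  have h1 : ∫⁻ y in (f d c) ⁻¹' S, ψ y = ∫⁻ y in ⋃ ζ ∈ RU d, ((f d c) ⁻¹' S ∩ Sec d ζ), ψ y := by
    apply setLIntegral_congr
    rw [← inter_iUnion₂]
    have h5 : ((f d c) ⁻¹' S ∩ univ : Set ℂ) =ᵐ[volume]
        ((f d c) ⁻¹' S ∩ (⋃ ζ ∈ RU d, Sec d ζ) : Set ℂ) := by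
      apply Filter.EventuallyEq.inter (ae_eq_refl _)
      symm
      rw [ae_eq_univ]
      refine measure_mono_null ?_ (null_pow hd)
      intro z hz
      change z ^ d ∉ Complex.slitPlane
      intro h
      apply hz
      have hz0 : rt d (z ^ d) ≠ 0 := by
        intro h0
        have h2 := rt_pow hd (z ^ d)
        rw [h0, zero_pow (by omega)] at h2
        rw [← h2] at h
        exact Complex.zero_notMem_slitPlane h
      simp only [mem_iUnion]
      refine ⟨z / rt d (z ^ d), ?_, h, ?_⟩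
      · rw [mem_RU hd, div_pow, rt_pow hd, div_self]
        intro h0
        rw [h0] at h
        exact Complex.zero_notMem_slitPlane h
      · rw [div_mul_cancel₀ _ hz0]
    rwa [inter_univ] at h5
  rw [h1, lintegral_biUnion_finset]
  · rw [Finset.sum_congr rfl (fun ζ hζ => sector hd c hS ψ hζ), ← lintegral_finsetSum]
    · apply lintegral_congr
      intro w
      rw [Finset.sum_mul]
    · intro ζ _
      exact (hψ.comp (((measurable_rt d).comp (measurable_id.sub_const c)).const_mul ζ)).mul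
        (by fun_prop)
  · intro ζ hζ ξ hξ hne
    change Disjoint ((f d c) ⁻¹' S ∩ Sec d ζ) ((f d c) ⁻¹' S ∩ Sec d ξ)
    rw [Set.disjoint_left]
    rintro y ⟨_, hy⟩ ⟨_, hy'⟩
    apply hne
    have h0 : rt d (y ^ d) ≠ 0 := by
      intro h0
      have h2 := rt_pow hd (y ^ d)
      rw [h0, zero_pow (by omega)] at h2
      have h := hy.1
      rw [← h2] at h
      exact Complex.zero_notMem_slitPlane h
    exact mul_right_cancel₀ h0 (hy.2.trans hy'.2.symm)
  · intro ζ _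
    exact hpre.inter (meas_Sec d ζ)

theorem dualQ {d L k : ℕ} (hd : 2 ≤ d) {ω c v : ℂ} (h : Orb d L k ω c v) {S : Set ℂ}
    (hS : MeasurableSet S) {φ : ℂ → ℝ} (hφ : Measurable φ) (h0 : ∀ z, 0 ≤ φ z) :
    ∫⁻ y in (f d c) ⁻¹' S, ENNReal.ofReal (φ y / ‖QQ d L c v y‖ ^ al d) =
      ∫⁻ w in S, ENNReal.ofReal
        (TR d c (fun y => (‖f d c y - v‖ * ‖EE d L k ω c v y‖) ^ al d /
          ((d : ℝ) ^ 2 * ‖y‖ ^ (2 * (d - 1))) * φ y) w / ‖QQ d L c v w‖ ^ al d) := by
  have hQ : Measurable (QQ d L c v) := by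
    unfold QQ
    fun_prop
  rw [dual hd c hS (ψ := fun y => ENNReal.ofReal (φ y / ‖QQ d L c v y‖ ^ al d)) (by fun_prop)]
  apply setLIntegral_congr_fun_ae hS
  have hfin : ({c} ∪ ((Finset.range (L + 1)).image (vv d c v) : Set ℂ)).Finite :=
    (finite_singleton c).union (Finset.finite_toSet _)
  have hae : ∀ᵐ w : ℂ, w ∉ ({c} ∪ ((Finset.range (L + 1)).image (vv d c v) : Set ℂ)) :=
    (hfin.countable.ae_notMem volume)
  filter_upwards [hae] with w hw _
  have hwc : w ≠ c := fun h => hw (Or.inl h)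
  have hwQ : QQ d L c v w ≠ 0 := by
    unfold QQ
    rw [Finset.prod_ne_zero_iff]
    intro j hj h1
    apply hw
    right
    rw [Finset.coe_image]
    exact ⟨j, hj, (sub_eq_zero.1 h1).symm⟩
  have hd0 : (0 : ℝ) < d := by
    have : (2 : ℝ) ≤ d := by exact_mod_cast hd
    linarith
  have key : ∀ s : ℂ, s ^ d = w - c → φ s / ‖QQ d L c v s‖ ^ al d *
      (1 / ((d : ℝ) ^ 2 * ‖w - c‖ ^ al d)) =
      (‖f d c s - v‖ * ‖EE d L k ω c v s‖) ^ al d / ((d : ℝ) ^ 2 * ‖s‖ ^ (2 * (d - 1))) * φ s /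
        ‖QQ d L c v w‖ ^ al d := by
    intro s hs
    have e1 : f d c s = w := by
      unfold f
      rw [hs, sub_add_cancel]
    have e2 := QQ_f hd h s
    rw [e1] at e2
    have e3 : ‖s‖ ^ (2 * (d - 1)) = ‖w - c‖ ^ al d := by
      rw [← hs, norm_pow, pow_al hd (norm_nonneg s)]
    have e4 : 0 < ‖w - c‖ := norm_pos_iff.2 (sub_ne_zero.2 hwc)
    have e5 : w - v ≠ 0 ∧ QQ d L c v s ≠ 0 ∧ EE d L k ω c v s ≠ 0 := by
      refine ⟨fun h' => hwQ ?_, fun h' => hwQ ?_, fun h' => hwQ ?_⟩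
      · rw [e2, h', zero_mul, zero_mul]
      · rw [e2, h', mul_zero, zero_mul]
      · rw [e2, h', mul_zero]
    have n1 : 0 < ‖w - v‖ := norm_pos_iff.2 e5.1
    have n2 : 0 < ‖QQ d L c v s‖ := norm_pos_iff.2 e5.2.1
    have n3 : 0 < ‖EE d L k ω c v s‖ := norm_pos_iff.2 e5.2.2
    have p1 := Real.rpow_pos_of_pos n1 (al d)
    have p2 := Real.rpow_pos_of_pos n2 (al d)
    have p3 := Real.rpow_pos_of_pos n3 (al d)
    have p4 := Real.rpow_pos_of_pos e4 (al d)
    rw [e1, e2, norm_mul, norm_mul, e3, Real.mul_rpow n1.le n3.le,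
      Real.mul_rpow (mul_nonneg n1.le n2.le) n3.le, Real.mul_rpow n1.le n2.le]
    field_simp
  have hnn : ∀ s : ℂ, 0 ≤ φ s / ‖QQ d L c v s‖ ^ al d := fun s =>
    div_nonneg (h0 s) (Real.rpow_nonneg (norm_nonneg _) _)
  change (∑ ζ ∈ RU d, ENNReal.ofReal (φ (ζ * rt d (w - c)) / ‖QQ d L c v (ζ * rt d (w - c))‖ ^ al d)) *
      ENNReal.ofReal (1 / ((d : ℝ) ^ 2 * ‖w - c‖ ^ al d)) = _
  rw [← ENNReal.ofReal_sum_of_nonneg (fun ζ _ => hnn _), ← ENNReal.ofReal_mul
    (Finset.sum_nonneg fun ζ _ => hnn _), Finset.sum_mul]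
  unfold TR
  rw [Finset.sum_div]
  congr 1
  apply Finset.sum_congr rfl
  intro ζ hζ
  exact key _ (by rw [mul_pow, (mem_RU hd).1 hζ, one_mul, rt_pow hd])

end Pool.Agent.TH180.J2484
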