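import Pool.Agent.TH180.Surf

set_option autoImplicit false

open scoped ComplexConjugate Topology ContDiff Manifold OnePoint
open Filter Set

namespace Pool.Agent.TH180

lemma mem_source_iff (j : Fin 3) (s : Bool) (x : Surf) :
    x ∈ (cX j s).source ↔ x.1 (fa j) ∈ range (pt s) ∧ x.1 (fb j) ∈ range (pt s) := Iff.rfl

lemma cX_apply (j : Fin 3) (s : Bool) (x : Surf) :
    cX j s x = ![rd s (x.1 (fa j)), rd s (x.1 (fb j))] := rfl

lemma cY_apply (s s' : Bool) (p : P1 × P1) : cY s s' p = ![rd s p.1, rd s' p.2] := rfl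

lemma exists_of_mem_source {j : Fin 3} {s : Bool} {x : Surf} (h : x ∈ (cX j s).source) :
    ∃ a b, x = phi j s ![a, b] := by
  obtain ⟨⟨a, ha⟩, ⟨b, hb⟩⟩ := h
  exact ⟨a, b, eq_phi ha.symm hb.symm⟩

lemma val1_0 (s : Bool) (a b : ℂ) : (phi 1 s ![a, b]).1 0 = pt s a := phi0_fa 1 s _
lemma val1_2 (s : Bool) (a b : ℂ) : (phi 1 s ![a, b]).1 2 = pt s b := phi0_fb 1 s _
lemma val1_1 (s : Bool) (a b : ℂ) : (phi 1 s ![a, b]).1 1 = pt (!s) (a * b) := phi0_self 1 s _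
lemma val0_2 (s : Bool) (a b : ℂ) : (phi 0 s ![a, b]).1 2 = pt s a := phi0_fa 0 s _
lemma val0_1 (s : Bool) (a b : ℂ) : (phi 0 s ![a, b]).1 1 = pt s b := phi0_fb 0 s _
lemma val0_0 (s : Bool) (a b : ℂ) : (phi 0 s ![a, b]).1 0 = pt (!s) (a * b) := phi0_self 0 s _
lemma val2_0 (s : Bool) (a b : ℂ) : (phi 2 s ![a, b]).1 0 = pt s a := phi0_fa 2 s _
lemma val2_1 (s : Bool) (a b : ℂ) : (phi 2 s ![a, b]).1 1 = pt s b := phi0_fb 2 s _

lemma cX1_phi (s : Bool) (a b : ℂ) : cX 1 s (phi 1 s ![a, b]) = ![a, b] := by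
  rw [cX_apply]
  show ![rd s ((phi 1 s ![a, b]).1 0), rd s ((phi 1 s ![a, b]).1 2)] = _
  rw [val1_0, val1_2, rd_pt, rd_pt]

lemma cX0_phi (s : Bool) (a b : ℂ) : cX 0 s (phi 0 s ![a, b]) = ![a, b] := by
  rw [cX_apply]
  show ![rd s ((phi 0 s ![a, b]).1 2), rd s ((phi 0 s ![a, b]).1 1)] = _
  rw [val0_2, val0_1, rd_pt, rd_pt]

lemma blowUpAt_cen (s : Bool) : IsBlowUpAt blowDown (cen s) := by
  refine ⟨cY s (!s), mem_atlas_Y _ _, cX 1 s, mem_atlas_X _ _, cX 0 (!s), mem_atlas_X _ _,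
    ⟨⟨0, rfl⟩, ⟨0, rfl⟩⟩, ?_, ?_, ?_, ?_, ?_, ?_, ?_, ?_, ?_⟩
  · rw [cY_apply]
    show ![rd s (pt s 0), rd (!s) (pt (!s) 0)] = 0
    rw [rd_pt, rd_pt]
    funext i
    fin_cases i <;> rfl
  · ext x
    constructor
    · rintro ⟨h0, h1⟩
      obtain ⟨s', h2⟩ := exists_mem_range (x.1 2)
      by_cases hs : s' = s
      · subst hs
        exact Or.inl ⟨h0, h2⟩
      · have hs' : s' = !s := by
          cases s <;> cases s' <;> simp_all
        subst hs'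
        exact Or.inr ⟨h2, h1⟩
    · rintro (h | h)
      · obtain ⟨a, b, rfl⟩ := exists_of_mem_source h
        refine ⟨?_, ?_⟩
        · show (phi 1 s ![a, b]).1 0 ∈ _
          rw [val1_0]
          exact ⟨_, rfl⟩
        · show (phi 1 s ![a, b]).1 1 ∈ _
          rw [val1_1]
          exact ⟨_, rfl⟩
      · obtain ⟨a, b, rfl⟩ := exists_of_mem_source h
        refine ⟨?_, ?_⟩
        · show (phi 0 (!s) ![a, b]).1 0 ∈ _
          rw [val0_0, Bool.not_not]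
          exact ⟨_, rfl⟩
        · show (phi 0 (!s) ![a, b]).1 1 ∈ _
          rw [val0_1]
          exact ⟨_, rfl⟩
  · ext w
    exact ⟨fun _ => mem_univ _, fun _ => mem_univ _⟩
  · ext w
    exact ⟨fun _ => mem_univ _, fun _ => mem_univ _⟩
  · intro x hx
    obtain ⟨a, b, rfl⟩ := exists_of_mem_source hx
    rw [cX1_phi, cY_apply]
    show ![rd s ((phi 1 s ![a, b]).1 0), rd (!s) ((phi 1 s ![a, b]).1 1)] = ![a, a * b]
    rw [val1_0, val1_1, rd_pt, rd_pt]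
  · intro x hx
    obtain ⟨a, b, rfl⟩ := exists_of_mem_source hx
    rw [cX0_phi, cY_apply]
    show ![rd s ((phi 0 (!s) ![a, b]).1 0), rd (!s) ((phi 0 (!s) ![a, b]).1 1)] = ![a * b, b]
    rw [val0_0, val0_1, rd_pt, Bool.not_not, rd_pt]
  · intro x hx
    obtain ⟨a, b, rfl⟩ := exists_of_mem_source hx
    rw [cX1_phi]
    show ((phi 1 s ![a, b]).1 2 ∈ range (pt (!s)) ∧ (phi 1 s ![a, b]).1 1 ∈ range (pt (!s))) ↔
      b ≠ 0
    rw [val1_2, val1_1]
    have h := pt_not_mem_range (s := !s) (t := b)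
    rw [Bool.not_not] at h
    rw [h]
    exact ⟨fun h => h.1, fun h => ⟨h, ⟨_, rfl⟩⟩⟩
  · intro x hx
    obtain ⟨a, b, rfl⟩ := exists_of_mem_source hx
    rw [cX0_phi]
    show ((phi 0 (!s) ![a, b]).1 0 ∈ range (pt s) ∧ (phi 0 (!s) ![a, b]).1 2 ∈ range (pt s)) ↔
      a ≠ 0
    rw [val0_2, val0_0, pt_not_mem_range, Bool.not_not]
    exact ⟨fun h => h.2, fun h => ⟨⟨_, rfl⟩, h⟩⟩
  · intro x hx _
    obtain ⟨a, b, rfl⟩ := exists_of_mem_source hx
    rw [cX1_phi, cX_apply]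
    show ![rd (!s) ((phi 1 s ![a, b]).1 2), rd (!s) ((phi 1 s ![a, b]).1 1)] = ![b⁻¹, a * b]
    rw [val1_2, val1_1, rd_pt]
    have h := rd_pt_not (!s) b
    rw [Bool.not_not] at h
    rw [h]

lemma cases_Y (y : P1 × P1) : (∃ s, y = cen s) ∨ ∃ s, y.1 ∈ range (pt s) ∧ y.2 ∈ range (pt s) := by
  obtain ⟨s, t, h⟩ := exists_mem_range y.1
  obtain ⟨s', t', h'⟩ := exists_mem_range y.2
  by_cases hs : s' = s
  · subst hs
    exact Or.inr ⟨s', ⟨t, h⟩, ⟨t', h'⟩⟩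
  · have hs' : s' = !s := by
      cases s <;> cases s' <;> simp_all
    subst hs'
    by_cases ht : t = 0
    · by_cases ht' : t' = 0
      · subst ht ht'
        exact Or.inl ⟨s, Prod.ext h.symm h'.symm⟩
      · refine Or.inr ⟨s, ⟨t, h⟩, ?_⟩
        rw [← h']
        exact pt_not_mem_range.mpr ht'
    · refine Or.inr ⟨!s, ?_, ⟨t', h'⟩⟩
      rw [← h]
      have h2 := pt_not_mem_range (s := !s) (t := t)
      rw [Bool.not_not] at h2
      exact h2.mpr ht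

theorem isBlowUp_blowDown : IsBlowUp blowDown (range cen) := by
  refine ⟨?_, ?_, ?_⟩
  · rintro _ ⟨s, rfl⟩
    exact blowUpAt_cen s
  · intro y hy
    rcases cases_Y y with ⟨s, hs⟩ | ⟨s, ⟨a, ha⟩, ⟨b, hb⟩⟩
    · exact absurd ⟨s, hs.symm⟩ hy
    · refine ⟨phi 2 s ![a, b], ?_, ?_⟩
      · show ((phi 2 s ![a, b]).1 0, (phi 2 s ![a, b]).1 1) = y
        rw [val2_0, val2_1, ha, hb]
      · intro x hx
        have h0 : x.1 0 = y.1 := congrArg Prod.fst hx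
        have h1 : x.1 1 = y.2 := congrArg Prod.snd hx
        exact eq_phi (j := 2) (h0.trans ha.symm) (h1.trans hb.symm)
  · intro x hx
    rcases cases_Y (blowDown x) with ⟨s, hs⟩ | ⟨s, h0, h1⟩
    · exact absurd ⟨s, hs.symm⟩ hx
    · exact ⟨cX 2 s, mem_atlas_X _ _, cY s s, mem_atlas_Y _ _, ⟨h0, h1⟩, fun x' hx' => ⟨hx', rfl⟩⟩

lemma range_cen : range cen = {(((0 : ℂ) : P1), OnePoint.infty), (OnePoint.infty, ((0 : ℂ) : P1))} := by
  ext y
  constructor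
  · rintro ⟨s, rfl⟩
    cases s
    · left
      show (((0 : ℂ) : P1), inversion ((0 : ℂ) : P1)) = _
      rw [inversion_zero]
    · right
      show (inversion ((0 : ℂ) : P1), ((0 : ℂ) : P1)) = _
      rw [inversion_zero]
  · rintro (h | h)
    · refine ⟨false, ?_⟩
      rw [h]
      show (((0 : ℂ) : P1), inversion ((0 : ℂ) : P1)) = _
      rw [inversion_zero]
    · refine ⟨true, ?_⟩
      rw [h]
      show (inversion ((0 : ℂ) : P1), ((0 : ℂ) : P1)) = _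
      rw [inversion_zero]

end Pool.Agent.TH180
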