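import Pool.Agent.TH180.Refl

set_option autoImplicit false
set_option maxRecDepth 100000

namespace Pool.Agent.TH180

/-- `G3` as an expression -/
def G3E : PE := BE.G3
/-- `V11` as an expression -/
def V11E : PE := BE.V11
/-- `V22` as an expression -/
def V22E : PE := BE.V22

theorem chk_q : ∀ p q, PE.check 64 (qE 0 0) p q = true := by decide +kernel
theorem chk_G3 : ∀ p q, PE.check 64 G3E p q = true := by decide +kernel
theorem chk_V11 : ∀ p q, PE.check 64 V11E p q = true := by decide +kernel
theorem chk_V22 : ∀ p q, PE.check 64 V22E p q = true := by decide +kernel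
theorem chk_b22 : ∀ p q, PE.check 128 b22E p q = true := by decide +kernel
theorem chk_m2 : ∀ p q, PE.check 256 m2E p q = true := by decide +kernel
theorem chk_m3_ff : PE.check 384 m3E false false = true := by decide +kernel
theorem chk_m3_ft : PE.check 384 m3E false true = true := by decide +kernel
theorem chk_m3_tf : PE.check 384 m3E true false = true := by decide +kernel
theorem chk_m3_tt : PE.check 384 m3E true true = true := by decide +kernel
theorem chk_m3 : ∀ p q, PE.check 384 m3E p q = true := by
  intro p q
  cases p <;> cases q
  · exact chk_m3_ff
  · exact chk_m3_ft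
  · exact chk_m3_tf
  · exact chk_m3_tt

end Pool.Agent.TH180
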