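import Mathlib.Data.Nat.Notation

set_option autoImplicit false
set_option linter.style.docString.empty false

namespace Pool.Agent.TH180

/-! ### Circuits -/

/-- basic quantities built from the partial derivatives `q a b` of `Q` at `(u, v)` -/
structure Bas (R : Type) where
  (V11 V12 V22 R0 R1 R2 G3 f1 f2 h2 h3 e0 e1 e2 e3 e4 : R)

/-- the basic quantities -/
def bas {R : Type} [Add R] [Sub R] [Mul R] [Pow R ℕ] [OfNat R 2] [OfNat R 4] (u v : R) (q : ℕ → ℕ → R) : Bas R :=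
  let g11 := q 1 0 + u * q 2 0
  let g22 := q 0 1 + v * q 0 2
  let R1 := q 1 0 * g22 - v * q 0 1 * q 1 1
  let R2 := q 0 1 * g11 - u * q 1 0 * q 1 1
  let R0 := g11 * g22 - u * v * q 1 1 ^ 2
  { V11 := q 0 0 * g11 - u * q 1 0 ^ 2
    V12 := q 0 0 * q 1 1 - q 1 0 * q 0 1
    V22 := q 0 0 * g22 - v * q 0 1 ^ 2
    R0 := R0
    R1 := R1
    R2 := R2
    G3 := q 0 0 * R0 - u * q 1 0 * R1 - v * q 0 1 * R2
    f1 := 2 * q 2 0 + u * q 3 0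
    f2 := q 1 1 + u * q 2 1
    h2 := q 1 1 + v * q 1 2
    h3 := 2 * q 0 2 + v * q 0 3
    e0 := 2 * q 2 0 + 4 * u * q 3 0 + u ^ 2 * q 4 0
    e1 := 2 * q 2 1 + u * q 3 1
    e2 := q 1 1 + u * q 2 1 + v * q 1 2 + u * v * q 2 2
    e3 := 2 * q 1 2 + v * q 1 3
    e4 := 2 * q 0 2 + 4 * v * q 0 3 + v ^ 2 * q 0 4 }

variable {R : Type} [Add R] [Sub R] [Mul R] [Pow R ℕ] [OfNat R 2] [OfNat R 4] [OfNat R 8]
  [OfNat R 25] [OfNat R 50] (u v : R) (q : ℕ → ℕ → R) (B : Bas R)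

def n0 : R := u * (u * B.R0 * q 2 0 ^ 2 + B.V22 * B.f1 ^ 2 + u * v * B.V11 * q 2 1 ^ 2 -
  2 * u * B.R1 * q 2 0 * B.f1 - 2 * u * v * B.R2 * q 2 0 * q 2 1 - 2 * u * v * B.V12 * B.f1 * q 2 1)
def n4 : R := v * (v * B.R0 * q 0 2 ^ 2 + B.V11 * B.h3 ^ 2 + u * v * B.V22 * q 1 2 ^ 2 -
  2 * v * B.R2 * q 0 2 * B.h3 - 2 * u * v * B.R1 * q 0 2 * q 1 2 - 2 * u * v * B.V12 * B.h3 * q 1 2)
def n1 : R := u * B.R0 * q 2 0 * q 1 1 + B.V22 * B.f1 * B.f2 + u * B.V11 * q 2 1 * B.h2 -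
  u * B.R1 * (q 2 0 * B.f2 + B.f1 * q 1 1) - B.R2 * (u * q 2 0 * B.h2 + u * v * q 2 1 * q 1 1) -
  B.V12 * (u * B.f1 * B.h2 + u * v * q 2 1 * B.f2)
def n3 : R := v * B.R0 * q 0 2 * q 1 1 + B.V11 * B.h3 * B.h2 + v * B.V22 * q 1 2 * B.f2 -
  v * B.R2 * (q 0 2 * B.h2 + B.h3 * q 1 1) - B.R1 * (v * q 0 2 * B.f2 + u * v * q 1 2 * q 1 1) -
  B.V12 * (v * B.h3 * B.f2 + u * v * q 1 2 * B.h2)
def n2 : R := u * v * B.R0 * q 1 1 ^ 2 + v * B.V22 * B.f2 ^ 2 + u * B.V11 * B.h2 ^ 2 -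
  2 * u * v * B.R1 * q 1 1 * B.f2 - 2 * u * v * B.R2 * q 1 1 * B.h2 -
  2 * u * v * B.V12 * B.f2 * B.h2
def n22 : R := B.R0 * q 2 0 * q 0 2 + B.V22 * B.f1 * q 1 2 + B.V11 * q 2 1 * B.h3 -
  B.R1 * (u * q 2 0 * q 1 2 + B.f1 * q 0 2) - B.R2 * (q 2 0 * B.h3 + v * q 2 1 * q 0 2) -
  B.V12 * (B.f1 * B.h3 + u * v * q 2 1 * q 1 2)

def ca0 : R := 2 * B.V11 ^ 2 * B.G3 - q 0 0 ^ 3 * (B.e0 * B.G3 - n0 u v q B)
def ca4 : R := 2 * B.V22 ^ 2 * B.G3 - q 0 0 ^ 3 * (B.e4 * B.G3 - n4 u v q B)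
def ca1 : R := 8 * B.V11 * B.V12 * B.G3 - 4 * q 0 0 ^ 3 * (B.e1 * B.G3 - n1 u v q B)
def ca3 : R := 8 * B.V22 * B.V12 * B.G3 - 4 * q 0 0 ^ 3 * (B.e3 * B.G3 - n3 u v q B)
def ca22 : R := 8 * B.V12 ^ 2 * B.G3 - 4 * q 0 0 ^ 3 * (q 2 2 * B.G3 - n22 u v q B)
def ca2 : R := 4 * B.V11 * B.V22 * B.G3 - q 0 0 ^ 3 * (4 * (B.e2 * B.G3 - n2 u v q B) -
  2 * u * v * (q 2 2 * B.G3 - n22 u v q B))

def cW : R := q 0 0 * B.G3 ^ 2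
def cb22 : R := 2 * (25 * u * v * ca22 u v q B + cW q B)
def cb0 : R := 50 * ca0 u v q B
def cb4 : R := 50 * ca4 u v q B
def cb1 : R := 25 * ca1 u v q B
def cb3 : R := 25 * ca3 u v q B
def cb2 : R := 25 * ca2 u v q B - cW q B
def cm2 : R := cb0 u v q B * cb22 u v q B - u * v * cb1 u v q B ^ 2
def cm3 : R := cb4 u v q B * cm2 u v q B +
  2 * u * v * cb1 u v q B * cb2 u v q B * cb3 u v q B -
  u * v * cb0 u v q B * cb3 u v q B ^ 2 - cb22 u v q B * cb2 u v q B ^ 2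


end Pool.Agent.TH180
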