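import Pool.Agent.TH180.Gauss
import Pool.Agent.TH180.Ops

set_option autoImplicit false

open scoped ComplexConjugate Topology ContDiff

namespace Pool.Agent.TH180

/-- the jets of `P z = Q (|z₀|², |z₁|²)` in terms of the derivatives of `Q` -/
structure JetRel (J : (Fin 2 → ℕ) → (Fin 2 → ℕ) → C2 → ℂ) (z : C2) (u v : ℂ)
    (q : ℕ → ℕ → ℂ) : Prop where
  hu : u = z 0 * conj (z 0)
  hv : v = z 1 * conj (z 1)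
  p : J 0 0 z = q 0 0
  a0 : J (ee 0) 0 z = conj (z 0) * q 1 0
  a1 : J (ee 1) 0 z = conj (z 1) * q 0 1
  b0 : J 0 (ee 0) z = z 0 * q 1 0
  b1 : J 0 (ee 1) z = z 1 * q 0 1
  m00 : J (ee 0) (ee 0) z = q 1 0 + u * q 2 0
  m01 : J (ee 0) (ee 1) z = conj (z 0) * z 1 * q 1 1
  m10 : J (ee 1) (ee 0) z = z 0 * conj (z 1) * q 1 1
  m11 : J (ee 1) (ee 1) z = q 0 1 + v * q 0 2
  c00 : J (ee 0 + ee 0) 0 z = conj (z 0) ^ 2 * q 2 0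
  c01 : J (ee 0 + ee 1) 0 z = conj (z 0) * conj (z 1) * q 1 1
  c11 : J (ee 1 + ee 1) 0 z = conj (z 1) ^ 2 * q 0 2
  cb00 : J 0 (ee 0 + ee 0) z = z 0 ^ 2 * q 2 0
  cb01 : J 0 (ee 0 + ee 1) z = z 0 * z 1 * q 1 1
  cb11 : J 0 (ee 1 + ee 1) z = z 1 ^ 2 * q 0 2
  d000 : J (ee 0 + ee 0) (ee 0) z = conj (z 0) * (2 * q 2 0 + u * q 3 0)
  d010 : J (ee 0 + ee 1) (ee 0) z = conj (z 1) * (q 1 1 + u * q 2 1)
  d110 : J (ee 1 + ee 1) (ee 0) z = conj (z 1) ^ 2 * z 0 * q 1 2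
  d001 : J (ee 0 + ee 0) (ee 1) z = conj (z 0) ^ 2 * z 1 * q 2 1
  d011 : J (ee 0 + ee 1) (ee 1) z = conj (z 0) * (q 1 1 + v * q 1 2)
  d111 : J (ee 1 + ee 1) (ee 1) z = conj (z 1) * (2 * q 0 2 + v * q 0 3)
  db000 : J (ee 0) (ee 0 + ee 0) z = z 0 * (2 * q 2 0 + u * q 3 0)
  db010 : J (ee 0) (ee 0 + ee 1) z = z 1 * (q 1 1 + u * q 2 1)
  db110 : J (ee 0) (ee 1 + ee 1) z = z 1 ^ 2 * conj (z 0) * q 1 2
  db001 : J (ee 1) (ee 0 + ee 0) z = z 0 ^ 2 * conj (z 1) * q 2 1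
  db011 : J (ee 1) (ee 0 + ee 1) z = z 0 * (q 1 1 + v * q 1 2)
  db111 : J (ee 1) (ee 1 + ee 1) z = z 1 * (2 * q 0 2 + v * q 0 3)
  e0000 : J (ee 0 + ee 0) (ee 0 + ee 0) z = 2 * q 2 0 + 4 * u * q 3 0 + u ^ 2 * q 4 0
  e0001 : J (ee 0 + ee 0) (ee 0 + ee 1) z = conj (z 0) * z 1 * (2 * q 2 1 + u * q 3 1)
  e0011 : J (ee 0 + ee 0) (ee 1 + ee 1) z = conj (z 0) ^ 2 * z 1 ^ 2 * q 2 2
  e0100 : J (ee 0 + ee 1) (ee 0 + ee 0) z = z 0 * conj (z 1) * (2 * q 2 1 + u * q 3 1)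
  e0101 : J (ee 0 + ee 1) (ee 0 + ee 1) z = q 1 1 + u * q 2 1 + v * q 1 2 + u * v * q 2 2
  e0111 : J (ee 0 + ee 1) (ee 1 + ee 1) z = conj (z 0) * z 1 * (2 * q 1 2 + v * q 1 3)
  e1100 : J (ee 1 + ee 1) (ee 0 + ee 0) z = conj (z 1) ^ 2 * z 0 ^ 2 * q 2 2
  e1101 : J (ee 1 + ee 1) (ee 0 + ee 1) z = z 0 * conj (z 1) * (2 * q 1 2 + v * q 1 3)
  e1111 : J (ee 1 + ee 1) (ee 1 + ee 1) z = 2 * q 0 2 + 4 * v * q 0 3 + v ^ 2 * q 0 4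

variable {J : (Fin 2 → ℕ) → (Fin 2 → ℕ) → C2 → ℂ} {z : C2} {u v : ℂ} {q : ℕ → ℕ → ℂ}

/-- `conj ζ₀ ζ₁`-type invariant -/
noncomputable def sW (z ζ : C2) : ℂ := ζ 0 * conj (ζ 1) * (conj (z 0) * z 1)
/-- conjugate of `sW` -/
noncomputable def sWb (z ζ : C2) : ℂ := ζ 1 * conj (ζ 0) * (z 0 * conj (z 1))

lemma JetRel.V (h : JetRel J z u v q) (ζ : C2) : jV J z ζ =
    (bas u v q).V11 * (ζ 0 * conj (ζ 0)) + (bas u v q).V12 * (sW z ζ + sWb z ζ) +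
      (bas u v q).V22 * (ζ 1 * conj (ζ 1)) := by
  simp only [jV, h.p, h.a0, h.a1, h.b0, h.b1, h.m00, h.m01, h.m10, h.m11, bas, sW, sWb, h.hu, h.hv]
  ring

lemma JetRel.G3 (h : JetRel J z u v q) : jG3 J z = (bas u v q).G3 := by
  simp only [jG3, gram3, h.p, h.a0, h.a1, h.b0, h.b1, h.m00, h.m01, h.m10, h.m11, bas, h.hu, h.hv]
  ring

lemma JetRel.je_eq (h : JetRel J z u v q) (ζ : C2) : je J z ζ =
    (bas u v q).e0 * (ζ 0 * conj (ζ 0)) ^ 2 + 2 * (bas u v q).e1 * (ζ 0 * conj (ζ 0)) *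
      (sW z ζ + sWb z ζ) + 4 * (bas u v q).e2 * (ζ 0 * conj (ζ 0)) * (ζ 1 * conj (ζ 1)) +
      q 2 2 * (sW z ζ ^ 2 + sWb z ζ ^ 2) + 2 * (bas u v q).e3 * (ζ 1 * conj (ζ 1)) *
      (sW z ζ + sWb z ζ) + (bas u v q).e4 * (ζ 1 * conj (ζ 1)) ^ 2 := by
  have c10 : ee 1 + ee 0 = ee 0 + ee 1 := add_comm _ _
  simp only [je, Fin.sum_univ_two, c10, h.e0000, h.e0001, h.e0011, h.e0100, h.e0101, h.e0111,
    h.e1100, h.e1101, h.e1111, bas, sW, sWb, h.hu, h.hv]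
  ring

lemma JetRel.G4 (h : JetRel J z u v q) (ζ : C2) : jG4 J z ζ =
    je J z ζ * (bas u v q).G3 -
    (n0 u v q (bas u v q) * (ζ 0 * conj (ζ 0)) ^ 2 +
      2 * n1 u v q (bas u v q) * (ζ 0 * conj (ζ 0)) * (sW z ζ + sWb z ζ) +
      4 * n2 u v q (bas u v q) * (ζ 0 * conj (ζ 0)) * (ζ 1 * conj (ζ 1)) +
      n22 u v q (bas u v q) * (sW z ζ ^ 2 + sWb z ζ ^ 2) +
      2 * n3 u v q (bas u v q) * (ζ 1 * conj (ζ 1)) * (sW z ζ + sWb z ζ) +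
      n4 u v q (bas u v q) * (ζ 1 * conj (ζ 1)) ^ 2) := by
  have c10 : ee 1 + ee 0 = ee 0 + ee 1 := add_comm _ _
  have h3 : gram3 (J 0 0 z) (J (ee 0) 0 z) (J (ee 1) 0 z) (J 0 (ee 0) z) (J 0 (ee 1) z)
    (J (ee 0) (ee 0) z) (J (ee 0) (ee 1) z) (J (ee 1) (ee 0) z) (J (ee 1) (ee 1) z) =
      (bas u v q).G3 := h.G3
  unfold jG4 gram4
  rw [h3]
  congr 1
  simp only [jc, jcb, jd, jdb, Fin.sum_univ_two, c10, h.p, h.a0, h.a1, h.b0, h.b1, h.m00, h.m01,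
    h.m10, h.m11, h.c00, h.c01, h.c11, h.cb00, h.cb01, h.cb11, h.d000, h.d010, h.d110, h.d001,
    h.d011, h.d111, h.db000, h.db010, h.db110, h.db001, h.db011, h.db111]
  simp only [n0, n1, n2, n22, n3, n4, bas, sW, sWb, h.hu, h.hv]
  ring

lemma sW_mul_sWb (h : JetRel J z u v q) (ζ : C2) :
    sW z ζ * sWb z ζ = u * v * (ζ 0 * conj (ζ 0)) * (ζ 1 * conj (ζ 1)) := by
  simp only [sW, sWb, h.hu, h.hv]
  ring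

theorem JetRel.E (h : JetRel J z u v q) (ζ : C2) :
    2 * jV J z ζ ^ 2 * jG3 J z - J 0 0 z ^ 3 * jG4 J z ζ =
    ca0 u v q (bas u v q) * (ζ 0 * conj (ζ 0)) ^ 2 +
    ca1 u v q (bas u v q) * (ζ 0 * conj (ζ 0)) * ((sW z ζ + sWb z ζ) / 2) +
    ca2 u v q (bas u v q) * (ζ 0 * conj (ζ 0)) * (ζ 1 * conj (ζ 1)) +
    ca22 u v q (bas u v q) * ((sW z ζ + sWb z ζ) / 2) ^ 2 +
    ca3 u v q (bas u v q) * ((sW z ζ + sWb z ζ) / 2) * (ζ 1 * conj (ζ 1)) +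
    ca4 u v q (bas u v q) * (ζ 1 * conj (ζ 1)) ^ 2 := by
  rw [h.G4, h.je_eq, h.V, h.G3, h.p]
  have hW := sW_mul_sWb h ζ
  have hW2 : sW z ζ ^ 2 + sWb z ζ ^ 2 = (sW z ζ + sWb z ζ) ^ 2 -
      2 * (u * v * (ζ 0 * conj (ζ 0)) * (ζ 1 * conj (ζ 1))) := by
    rw [← hW]; ring
  rw [hW2]
  simp only [ca0, ca1, ca2, ca22, ca3, ca4]
  ring

end Pool.Agent.TH180
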