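import Mathlib

set_option autoImplicit false

open scoped ComplexConjugate Topology ContDiff Manifold ComplexOrder

namespace Pool.Agent.TH180

/-- The complex plane `ℂ²`. -/
abbrev C2 : Type := Fin 2 → ℂ

/-! ### Curvature in local coordinates -/

/-- The Wirtinger derivative `∂ f / ∂ z_k`. -/
noncomputable def dz (k : Fin 2) (f : C2 → ℂ) (z : C2) : ℂ :=
  (fderiv ℝ f z (Pi.single k 1) - Complex.I * fderiv ℝ f z (Pi.single k Complex.I)) / 2

/-- The Wirtinger derivative `∂ f / ∂ z̄_k`. -/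
noncomputable def dzb (k : Fin 2) (f : C2 → ℂ) (z : C2) : ℂ :=
  (fderiv ℝ f z (Pi.single k 1) + Complex.I * fderiv ℝ f z (Pi.single k Complex.I)) / 2

/-- The curvature `R_{i j̄ k l̄} = - ∂_k ∂̄_l g_{i j̄} + g^{p q̄} ∂_k g_{i q̄} ∂̄_l g_{p j̄}` of the metric
with coefficients `g w i j = g_{i j̄}(w)`. -/
noncomputable def curvature (g : C2 → Matrix (Fin 2) (Fin 2) ℂ) (z : C2) (i j k l : Fin 2) : ℂ :=
  - dz k (fun w => dzb l (fun w' => g w' i j) w) z +
    ∑ p, ∑ q, (g z)⁻¹ q p * dz k (fun w => g w i q) z * dzb l (fun w => g w p j) z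

/-- The squared length `g(v, v̄)`. -/
noncomputable def normSq (g : C2 → Matrix (Fin 2) (Fin 2) ℂ) (z v : C2) : ℝ :=
  (∑ i, ∑ j, g z i j * v i * conj (v j)).re

/-- The holomorphic sectional curvature `R(v, v̄, v, v̄) / |v|⁴`. -/
noncomputable def hsc (g : C2 → Matrix (Fin 2) (Fin 2) ℂ) (z v : C2) : ℝ :=
  (∑ i, ∑ j, ∑ k, ∑ l, curvature g z i j k l * v i * conj (v j) * v k * conj (v l)).re /
    normSq g z v ^ 2

/-! ### Kähler metrics on complex surfaces -/

/-- A Kähler metric on a complex surface `X`, given by its components `g e` in the charts `e` of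
the atlas of `X`: they are smooth, Hermitian positive definite, satisfy the Kähler condition
`∂_l g_{i j̄} = ∂_i g_{l j̄}`, and transform as a tensor of type `(1, 1)` under the changes of
charts. -/
structure KahlerMetric (X : Type) [TopologicalSpace X] [ChartedSpace C2 X] where
  /-- the components of the metric in the charts -/
  g : OpenPartialHomeomorph X C2 → C2 → Matrix (Fin 2) (Fin 2) ℂ
  smooth : ∀ e ∈ atlas C2 X, ∀ i j, ContDiffOn ℝ ∞ (fun z => g e z i j) e.target
  posDef : ∀ e ∈ atlas C2 X, ∀ z ∈ e.target, (g e z).PosDef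
  kahler : ∀ e ∈ atlas C2 X, ∀ z ∈ e.target, ∀ i j l,
    dz l (fun w => g e w i j) z = dz i (fun w => g e w l j) z
  transform : ∀ e ∈ atlas C2 X, ∀ e' ∈ atlas C2 X, ∀ z ∈ e.target, e.symm z ∈ e'.source →
    ∀ i j, g e z i j = ∑ p, ∑ q, g e' (e' (e.symm z)) p q *
      fderiv ℂ (fun w => e' (e.symm w)) z (Pi.single i 1) p *
      conj (fderiv ℂ (fun w => e' (e.symm w)) z (Pi.single j 1) q)

/-- The holomorphic sectional curvature is positive at every point and in every direction. -/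
def KahlerMetric.HasPositiveHSC {X : Type} [TopologicalSpace X] [ChartedSpace C2 X]
    (G : KahlerMetric X) : Prop :=
  ∀ e ∈ atlas C2 X, ∀ z ∈ e.target, ∀ v : C2, v ≠ 0 → 0 < hsc (G.g e) z v

/-! ### Blow-ups of complex surfaces -/

/-- The holomorphic coordinate systems of a complex surface `X`: the elements of its maximal
holomorphic atlas. -/
def HolChart (X : Type) [TopologicalSpace X] [ChartedSpace C2 X] :
    Set (OpenPartialHomeomorph X C2) :=
  IsManifold.maximalAtlas 𝓘(ℂ, C2) ω X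

section BlowUp

variable {X Y : Type} [TopologicalSpace X] [ChartedSpace C2 X]
  [TopologicalSpace Y] [ChartedSpace C2 Y]

/-- Over a neighbourhood of `p`, the map `π` is the blow-up of the point `p`: there are a
holomorphic coordinate system `c` centred at `p`, and two holomorphic coordinate systems `e₀`, `e₁`
which cover the preimage of the domain of `c`, in which `π` is `(a, b) ↦ (a, a b)` and
`(a, b) ↦ (a b, b)`, and which are glued by `(a, b) ↦ (b⁻¹, a b)` for `b ≠ 0`. -/
def IsBlowUpAt (π : X → Y) (p : Y) : Prop :=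
  ∃ c ∈ HolChart Y, ∃ e₀ ∈ HolChart X, ∃ e₁ ∈ HolChart X,
    p ∈ c.source ∧ c p = 0 ∧ π ⁻¹' c.source = e₀.source ∪ e₁.source ∧
    e₀.target = {w | ![w 0, w 0 * w 1] ∈ c.target} ∧
    e₁.target = {w | ![w 0 * w 1, w 1] ∈ c.target} ∧
    (∀ x ∈ e₀.source, c (π x) = ![e₀ x 0, e₀ x 0 * e₀ x 1]) ∧
    (∀ x ∈ e₁.source, c (π x) = ![e₁ x 0 * e₁ x 1, e₁ x 1]) ∧
    (∀ x ∈ e₀.source, x ∈ e₁.source ↔ e₀ x 1 ≠ 0) ∧
    (∀ x ∈ e₁.source, x ∈ e₀.source ↔ e₁ x 0 ≠ 0) ∧
    ∀ x ∈ e₀.source, x ∈ e₁.source → e₁ x = ![(e₀ x 1)⁻¹, e₀ x 0 * e₀ x 1]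

/-- The map `π : X → Y` of complex surfaces is the blow-up of `Y` in the finite set `S` of points:
it is the blow-up over a neighbourhood of every point of `S`, it is bijective over the complement
of `S`, and it is locally biholomorphic there (the identity in suitable holomorphic
coordinates). -/
def IsBlowUp (π : X → Y) (S : Set Y) : Prop :=
  (∀ p ∈ S, IsBlowUpAt π p) ∧ (∀ y, y ∉ S → ∃! x, π x = y) ∧
    ∀ x, π x ∉ S → ∃ e ∈ HolChart X, ∃ c ∈ HolChart Y, x ∈ e.source ∧
      ∀ x' ∈ e.source, π x' ∈ c.source ∧ c (π x') = e x'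

end BlowUp

end Pool.Agent.TH180
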