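import Pool.Agent.TH180.Jets

set_option autoImplicit false

open scoped ComplexConjugate Topology ContDiff

namespace Pool.Agent.TH180

/-! ### Algebra of the Gauss equation -/

/-- `3 × 3` Gram determinant -/
def gram3 (p a0 a1 b0 b1 m00 m01 m10 m11 : ℂ) : ℂ :=
  p * (m00 * m11 - m01 * m10) - b0 * (a0 * m11 - m01 * a1) + b1 * (a0 * m10 - m00 * a1)

/-- `4 × 4` Gram determinant, bordered by `(c, d0, d1)` and `(cb, db0, db1)` with corner `e` -/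
def gram4 (p a0 a1 b0 b1 m00 m01 m10 m11 c cb d0 d1 db0 db1 e : ℂ) : ℂ :=
  e * gram3 p a0 a1 b0 b1 m00 m01 m10 m11 -
   (c * ((m00 * m11 - m01 * m10) * cb - (b0 * m11 - b1 * m10) * db0 + (b0 * m01 - b1 * m00) * db1) +
    d0 * (-(a0 * m11 - a1 * m01) * cb + (p * m11 - b1 * a1) * db0 - (p * m01 - b1 * a0) * db1) +
    d1 * ((a0 * m10 - a1 * m00) * cb - (p * m10 - b0 * a1) * db0 + (p * m00 - b0 * a0) * db1))

lemma gauss_alg (p a0 a1 b0 b1 m00 m01 m10 m11 c cb d0 d1 db0 db1 e v0 v1 w0 w1 : ℂ)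
    (hp : p ≠ 0) :
    (-(e * p⁻¹ - (2 * (a0 * v0 + a1 * v1) * (db0 * v0 + db1 * v1) +
        2 * (b0 * w0 + b1 * w1) * (d0 * w0 + d1 * w1) +
        2 * (m00 * v0 * w0 + m01 * v0 * w1 + m10 * v1 * w0 + m11 * v1 * w1) ^ 2 + c * cb) * p⁻¹ ^ 2 +
        (2 * (a0 * v0 + a1 * v1) ^ 2 * cb + 2 * (b0 * w0 + b1 * w1) ^ 2 * c +
        8 * (a0 * v0 + a1 * v1) * (b0 * w0 + b1 * w1) *
          (m00 * v0 * w0 + m01 * v0 * w1 + m10 * v1 * w0 + m11 * v1 * w1)) * p⁻¹ ^ 3 -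
        6 * (a0 * v0 + a1 * v1) ^ 2 * (b0 * w0 + b1 * w1) ^ 2 * p⁻¹ ^ 4) *
      ((m00 * p⁻¹ - a0 * b0 * p⁻¹ ^ 2) * (m11 * p⁻¹ - a1 * b1 * p⁻¹ ^ 2) -
        (m01 * p⁻¹ - a0 * b1 * p⁻¹ ^ 2) * (m10 * p⁻¹ - a1 * b0 * p⁻¹ ^ 2)) +
      ((m11 * p⁻¹ - a1 * b1 * p⁻¹ ^ 2) *
        (d0 * p⁻¹ - (2 * (a0 * v0 + a1 * v1) * (m00 * v0 + m10 * v1) + c * b0) * p⁻¹ ^ 2 +
          2 * (a0 * v0 + a1 * v1) ^ 2 * b0 * p⁻¹ ^ 3) *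
        (db0 * p⁻¹ - (2 * (b0 * w0 + b1 * w1) * (m00 * w0 + m01 * w1) + cb * a0) * p⁻¹ ^ 2 +
          2 * (b0 * w0 + b1 * w1) ^ 2 * a0 * p⁻¹ ^ 3) -
       (m01 * p⁻¹ - a0 * b1 * p⁻¹ ^ 2) *
        (d0 * p⁻¹ - (2 * (a0 * v0 + a1 * v1) * (m00 * v0 + m10 * v1) + c * b0) * p⁻¹ ^ 2 +
          2 * (a0 * v0 + a1 * v1) ^ 2 * b0 * p⁻¹ ^ 3) *
        (db1 * p⁻¹ - (2 * (b0 * w0 + b1 * w1) * (m10 * w0 + m11 * w1) + cb * a1) * p⁻¹ ^ 2 +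
          2 * (b0 * w0 + b1 * w1) ^ 2 * a1 * p⁻¹ ^ 3) -
       (m10 * p⁻¹ - a1 * b0 * p⁻¹ ^ 2) *
        (d1 * p⁻¹ - (2 * (a0 * v0 + a1 * v1) * (m01 * v0 + m11 * v1) + c * b1) * p⁻¹ ^ 2 +
          2 * (a0 * v0 + a1 * v1) ^ 2 * b1 * p⁻¹ ^ 3) *
        (db0 * p⁻¹ - (2 * (b0 * w0 + b1 * w1) * (m00 * w0 + m01 * w1) + cb * a0) * p⁻¹ ^ 2 +
          2 * (b0 * w0 + b1 * w1) ^ 2 * a0 * p⁻¹ ^ 3) +
       (m00 * p⁻¹ - a0 * b0 * p⁻¹ ^ 2) *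
        (d1 * p⁻¹ - (2 * (a0 * v0 + a1 * v1) * (m01 * v0 + m11 * v1) + c * b1) * p⁻¹ ^ 2 +
          2 * (a0 * v0 + a1 * v1) ^ 2 * b1 * p⁻¹ ^ 3) *
        (db1 * p⁻¹ - (2 * (b0 * w0 + b1 * w1) * (m10 * w0 + m11 * w1) + cb * a1) * p⁻¹ ^ 2 +
          2 * (b0 * w0 + b1 * w1) ^ 2 * a1 * p⁻¹ ^ 3))) * p ^ 7 =
    2 * (p * (m00 * v0 * w0 + m01 * v0 * w1 + m10 * v1 * w0 + m11 * v1 * w1) -
      (a0 * v0 + a1 * v1) * (b0 * w0 + b1 * w1)) ^ 2 * gram3 p a0 a1 b0 b1 m00 m01 m10 m11 -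
      p ^ 3 * gram4 p a0 a1 b0 b1 m00 m01 m10 m11 c cb d0 d1 db0 db1 e := by
  unfold gram4 gram3
  field_simp
  ring

/-! ### Contractions -/

variable {J : (Fin 2 → ℕ) → (Fin 2 → ℕ) → C2 → ℂ}

/-- `D D P` -/
noncomputable def jc (J : (Fin 2 → ℕ) → (Fin 2 → ℕ) → C2 → ℂ) (z v : C2) : ℂ :=
  ∑ i, ∑ k, J (ee i + ee k) 0 z * v i * v k

/-- `D̄ D̄ P` -/
noncomputable def jcb (J : (Fin 2 → ℕ) → (Fin 2 → ℕ) → C2 → ℂ) (z v : C2) : ℂ :=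
  ∑ j, ∑ l, J 0 (ee j + ee l) z * conj (v j) * conj (v l)

/-- `D D ∂̄_q P` -/
noncomputable def jd (J : (Fin 2 → ℕ) → (Fin 2 → ℕ) → C2 → ℂ) (q : Fin 2) (z v : C2) : ℂ :=
  ∑ i, ∑ k, J (ee i + ee k) (ee q) z * v i * v k

/-- `∂_p D̄ D̄ P` -/
noncomputable def jdb (J : (Fin 2 → ℕ) → (Fin 2 → ℕ) → C2 → ℂ) (p : Fin 2) (z v : C2) : ℂ :=
  ∑ j, ∑ l, J (ee p) (ee j + ee l) z * conj (v j) * conj (v l)

/-- `D D D̄ D̄ P` -/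
noncomputable def je (J : (Fin 2 → ℕ) → (Fin 2 → ℕ) → C2 → ℂ) (z v : C2) : ℂ :=
  ∑ i, ∑ j, ∑ k, ∑ l, J (ee i + ee k) (ee j + ee l) z * v i * conj (v j) * v k * conj (v l)

/-- `P D D̄ P - D P D̄ P` -/
noncomputable def jV (J : (Fin 2 → ℕ) → (Fin 2 → ℕ) → C2 → ℂ) (z v : C2) : ℂ :=
  J 0 0 z * (J (ee 0) (ee 0) z * v 0 * conj (v 0) + J (ee 0) (ee 1) z * v 0 * conj (v 1) +
    J (ee 1) (ee 0) z * v 1 * conj (v 0) + J (ee 1) (ee 1) z * v 1 * conj (v 1)) -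
    (J (ee 0) 0 z * v 0 + J (ee 1) 0 z * v 1) *
      (J 0 (ee 0) z * conj (v 0) + J 0 (ee 1) z * conj (v 1))

/-- the Gram determinant of `s, ∂₀ s, ∂₁ s` -/
noncomputable def jG3 (J : (Fin 2 → ℕ) → (Fin 2 → ℕ) → C2 → ℂ) (z : C2) : ℂ :=
  gram3 (J 0 0 z) (J (ee 0) 0 z) (J (ee 1) 0 z) (J 0 (ee 0) z) (J 0 (ee 1) z)
    (J (ee 0) (ee 0) z) (J (ee 0) (ee 1) z) (J (ee 1) (ee 0) z) (J (ee 1) (ee 1) z)

/-- the Gram determinant of `s, ∂₀ s, ∂₁ s, D D s` -/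
noncomputable def jG4 (J : (Fin 2 → ℕ) → (Fin 2 → ℕ) → C2 → ℂ) (z v : C2) : ℂ :=
  gram4 (J 0 0 z) (J (ee 0) 0 z) (J (ee 1) 0 z) (J 0 (ee 0) z) (J 0 (ee 1) z)
    (J (ee 0) (ee 0) z) (J (ee 0) (ee 1) z) (J (ee 1) (ee 0) z) (J (ee 1) (ee 1) z)
    (jc J z v) (jcb J z v) (jd J 0 z v) (jd J 1 z v) (jdb J 0 z v) (jdb J 1 z v) (je J z v)

lemma det_gJ (h : JetFamily J) (z : C2) : (gJ J z).det * J 0 0 z ^ 3 = jG3 J z := by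
  have hp := h.ne z
  rw [Matrix.det_fin_two]
  simp only [gJ, jG3, gram3]
  field_simp
  ring

lemma normSq_gJ (h : JetFamily J) (z v : C2) :
    (∑ i, ∑ j, gJ J z i j * v i * conj (v j)) * J 0 0 z ^ 2 = jV J z v := by
  have hp := h.ne z
  simp only [Fin.sum_univ_two, gJ, jV]
  field_simp
  ring

lemma sum_ddg (z v : C2) :
    ∑ i, ∑ j, ∑ k, ∑ l, ddg J i j k l z * v i * conj (v j) * v k * conj (v l) =
    je J z v * (J 0 0 z)⁻¹ -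
      (2 * (J (ee 0) 0 z * v 0 + J (ee 1) 0 z * v 1) * (jdb J 0 z v * v 0 + jdb J 1 z v * v 1) +
        2 * (J 0 (ee 0) z * conj (v 0) + J 0 (ee 1) z * conj (v 1)) *
          (jd J 0 z v * conj (v 0) + jd J 1 z v * conj (v 1)) +
        2 * (J (ee 0) (ee 0) z * v 0 * conj (v 0) + J (ee 0) (ee 1) z * v 0 * conj (v 1) +
          J (ee 1) (ee 0) z * v 1 * conj (v 0) + J (ee 1) (ee 1) z * v 1 * conj (v 1)) ^ 2 +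
        jc J z v * jcb J z v) * (J 0 0 z)⁻¹ ^ 2 +
      (2 * (J (ee 0) 0 z * v 0 + J (ee 1) 0 z * v 1) ^ 2 * jcb J z v +
        2 * (J 0 (ee 0) z * conj (v 0) + J 0 (ee 1) z * conj (v 1)) ^ 2 * jc J z v +
        8 * (J (ee 0) 0 z * v 0 + J (ee 1) 0 z * v 1) *
          (J 0 (ee 0) z * conj (v 0) + J 0 (ee 1) z * conj (v 1)) *
          (J (ee 0) (ee 0) z * v 0 * conj (v 0) + J (ee 0) (ee 1) z * v 0 * conj (v 1) +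
          J (ee 1) (ee 0) z * v 1 * conj (v 0) + J (ee 1) (ee 1) z * v 1 * conj (v 1))) *
            (J 0 0 z)⁻¹ ^ 3 -
      6 * (J (ee 0) 0 z * v 0 + J (ee 1) 0 z * v 1) ^ 2 *
        (J 0 (ee 0) z * conj (v 0) + J 0 (ee 1) z * conj (v 1)) ^ 2 * (J 0 0 z)⁻¹ ^ 4 := by
  simp only [Fin.sum_univ_two, ddg, je, jc, jcb, jd, jdb]
  ring

lemma sum_dg (z v : C2) (q : Fin 2) :
    ∑ i, ∑ k, dg J i q k z * v i * v k =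
    jd J q z v * (J 0 0 z)⁻¹ - (2 * (J (ee 0) 0 z * v 0 + J (ee 1) 0 z * v 1) *
      (J (ee 0) (ee q) z * v 0 + J (ee 1) (ee q) z * v 1) + jc J z v * J 0 (ee q) z) *
        (J 0 0 z)⁻¹ ^ 2 +
      2 * (J (ee 0) 0 z * v 0 + J (ee 1) 0 z * v 1) ^ 2 * J 0 (ee q) z * (J 0 0 z)⁻¹ ^ 3 := by
  simp only [Fin.sum_univ_two, dg, jc, jd]
  ring

lemma sum_dbg (z v : C2) (p : Fin 2) :
    ∑ j, ∑ l, dbg J p j l z * conj (v j) * conj (v l) =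
    jdb J p z v * (J 0 0 z)⁻¹ -
      (2 * (J 0 (ee 0) z * conj (v 0) + J 0 (ee 1) z * conj (v 1)) *
      (J (ee p) (ee 0) z * conj (v 0) + J (ee p) (ee 1) z * conj (v 1)) +
        jcb J z v * J (ee p) 0 z) * (J 0 0 z)⁻¹ ^ 2 +
      2 * (J 0 (ee 0) z * conj (v 0) + J 0 (ee 1) z * conj (v 1)) ^ 2 * J (ee p) 0 z *
        (J 0 0 z)⁻¹ ^ 3 := by
  simp only [Fin.sum_univ_two, dbg, jcb, jdb]
  ring

lemma sum_curvature (h : JetFamily J) (z v : C2) :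
    ∑ i, ∑ j, ∑ k, ∑ l, curvature (gJ J) z i j k l * v i * conj (v j) * v k * conj (v l) =
    -(∑ i, ∑ j, ∑ k, ∑ l, ddg J i j k l z * v i * conj (v j) * v k * conj (v l)) +
      ∑ p, ∑ q, (gJ J z)⁻¹ q p * (∑ i, ∑ k, dg J i q k z * v i * v k) *
        (∑ j, ∑ l, dbg J p j l z * conj (v j) * conj (v l)) := by
  simp only [h.curvature_eq, Fin.sum_univ_two]
  ring

lemma comb_alg (S D P I00 I01 I10 I11 A00 A01 A10 A11 t0 t1 s0 s1 : ℂ)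
    (h00 : I00 * D = A00) (h01 : I01 * D = A01) (h10 : I10 * D = A10) (h11 : I11 * D = A11) :
    (-S + ((I00 * t0 * s0 + I10 * t1 * s0) + (I01 * t0 * s1 + I11 * t1 * s1))) * D * P =
    (-S * D + (A00 * t0 * s0 + A01 * t0 * s1 + A10 * t1 * s0 + A11 * t1 * s1)) * P := by
  rw [← h00, ← h01, ← h10, ← h11]
  ring

theorem gauss (h : JetFamily J) (z v : C2) (hG : jG3 J z ≠ 0) :
    (∑ i, ∑ j, ∑ k, ∑ l, curvature (gJ J) z i j k l * v i * conj (v j) * v k * conj (v l)) *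
      (J 0 0 z ^ 4 * jG3 J z) = 2 * jV J z v ^ 2 * jG3 J z - J 0 0 z ^ 3 * jG4 J z v := by
  have hp := h.ne z
  have hdet := det_gJ h z
  have hd : (gJ J z).det ≠ 0 := by
    intro h0
    rw [h0, zero_mul] at hdet
    exact hG hdet.symm
  have hinv : ∀ q p, (gJ J z)⁻¹ q p * (gJ J z).det = (gJ J z).adjugate q p := by
    intro q p
    rw [Matrix.inv_def, Matrix.smul_apply, Ring.inverse_eq_inv', smul_eq_mul]
    field_simp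
  have key := gauss_alg (J 0 0 z) (J (ee 0) 0 z) (J (ee 1) 0 z) (J 0 (ee 0) z) (J 0 (ee 1) z)
    (J (ee 0) (ee 0) z) (J (ee 0) (ee 1) z) (J (ee 1) (ee 0) z) (J (ee 1) (ee 1) z)
    (jc J z v) (jcb J z v) (jd J 0 z v) (jd J 1 z v) (jdb J 0 z v) (jdb J 1 z v) (je J z v)
    (v 0) (v 1) (conj (v 0)) (conj (v 1)) hp
  have e1 : (∑ i, ∑ j, ∑ k, ∑ l, curvature (gJ J) z i j k l * v i * conj (v j) * v k *
      conj (v l)) * (gJ J z).det * J 0 0 z ^ 7 =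
      2 * jV J z v ^ 2 * jG3 J z - J 0 0 z ^ 3 * jG4 J z v := by
    rw [sum_curvature h, sum_ddg]
    simp only [sum_dg, sum_dbg]
    rw [Fin.sum_univ_two, Fin.sum_univ_two, Fin.sum_univ_two]
    have h00 := hinv 0 0
    have h01 := hinv 0 1
    have h10 := hinv 1 0
    have h11 := hinv 1 1
    rw [Matrix.adjugate_fin_two] at h00 h01 h10 h11
    simp only [Matrix.of_apply, Matrix.cons_val', Matrix.cons_val_zero, Matrix.cons_val_one,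
      Matrix.cons_val_fin_one] at h00 h01 h10 h11
    rw [comb_alg _ _ _ _ _ _ _ _ _ _ _ _ _ _ _ h00 h01 h10 h11]
    unfold jG4 jG3 jV
    refine Eq.trans ?_ key
    rw [Matrix.det_fin_two]
    simp only [gJ]
    ring
  have : J 0 0 z ^ 4 * jG3 J z = (gJ J z).det * J 0 0 z ^ 7 := by
    rw [← hdet]; ring
  rw [this, ← mul_assoc, e1]

end Pool.Agent.TH180
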