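import Pool.Agent.TH180.Hom

set_option autoImplicit false

open scoped ComplexConjugate Topology ContDiff Manifold
open Filter

namespace Pool.Agent.TH180

/-- ratio of the lifts of a point in two charts of `ℙ¹` -/
def mu (s s' : Bool) (t : ℂ) : ℂ := if s = s' then 1 else t

lemma lift_eq {s s' : Bool} {t t' : ℂ} (h : pt s t = pt s' t') :
    mu s s' t ≠ 0 ∧ l0 s t = mu s s' t * l0 s' t' ∧ l1 s t = mu s s' t * l1 s' t' := by
  unfold mu
  by_cases hs : s = s'
  · subst hs
    have := pt_injective s h
    subst this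
    simp
  · have hs' : s' = !s := by
      cases s <;> cases s' <;> simp_all
    subst hs'
    rw [if_neg hs]
    have h1 : pt (!s) t' ∈ Set.range (pt s) := ⟨t, h⟩
    have h2 : t' ≠ 0 := pt_not_mem_range.mp h1
    rw [pt_not_inv h2] at h
    have h3 := pt_injective s h
    have h4 : t ≠ 0 := by
      rw [h3]
      exact inv_ne_zero h2
    have h5 : t' = t⁻¹ := by rw [h3, inv_inv]
    refine ⟨h4, ?_, ?_⟩
    · rw [h5]
      cases s
      · show (1 : ℂ) = t * t⁻¹
        field_simp
      · show t = t * 1
        ring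
    · rw [h5]
      cases s
      · show t = t * 1
        ring
      · show (1 : ℂ) = t * t⁻¹
        field_simp

/-- the transition function of the line bundle -/
noncomputable def lam (j j' : Fin 3) (s s' : Bool) (w : C2) : ℂ :=
  (∏ i, mu (sg j s i) (sg j' s' i) (mm j i w)) ^ 2

lemma lam_rel {j j' : Fin 3} {s s' : Bool} {w w' : C2} (h : phi j s w = phi j' s' w') :
    lam j j' s s' w ≠ 0 ∧
    JQ 0 0 w = lam j j' s s' w * conj (lam j j' s s' w) * JQ 0 0 w' := by
  have h1 : ∀ i, pt (sg j s i) (mm j i w) = pt (sg j' s' i) (mm j' i w') := by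
    intro i
    exact congrFun (congrArg Subtype.val h) i
  have h2 := fun i => lift_eq (h1 i)
  refine ⟨?_, ?_⟩
  · unfold lam
    exact pow_ne_zero 2 (Finset.prod_ne_zero_iff.mpr fun i _ => (h2 i).1)
  · rw [← JQ_chart j s w, ← JQ_chart j' s' w']
    have e0 : (fun i => l0 (sg j s i) (mm j i w)) = fun i =>
        mu (sg j s i) (sg j' s' i) (mm j i w) * l0 (sg j' s' i) (mm j' i w') :=
      funext fun i => (h2 i).2.1
    have e1 : (fun i => l1 (sg j s i) (mm j i w)) = fun i =>
        mu (sg j s i) (sg j' s' i) (mm j i w) * l1 (sg j' s' i) (mm j' i w') :=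
      funext fun i => (h2 i).2.2
    rw [e0, e1, FL_scale]
    rfl

lemma contDiff_mm (j i : Fin 3) : ContDiff ℂ ω (mm j i) := by
  rw [contDiff_iff_contDiffAt]
  exact fun z => contDiffAt_mm j i z

lemma contDiff_lam (j j' : Fin 3) (s s' : Bool) : ContDiff ℂ ω (lam j j' s s') := by
  unfold lam
  refine ContDiff.pow (contDiff_prod fun i _ => ?_) 2
  unfold mu
  split_ifs
  · exact contDiff_const
  · exact contDiff_mm j i

lemma transform_gQ (j j' : Fin 3) (s s' : Bool) (z : C2) (hz : phi j s z ∈ (cX j' s').source)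
    (i k : Fin 2) : gQ z i k = ∑ p, ∑ q, gQ (cX j' s' (phi j s z)) p q *
      fderiv ℂ (fun w => cX j' s' ((cX j s).symm w)) z (Pi.single i 1) p *
      conj (fderiv ℂ (fun w => cX j' s' ((cX j s).symm w)) z (Pi.single k 1) q) := by
  have hU : IsOpen ((phi j s) ⁻¹' (cX j' s').source) :=
    (cX j' s').open_source.preimage (continuous_phi j s)
  refine gJ_transform jetFamily_JQ (T := fun w => cX j' s' ((cX j s).symm w))
    (lam := lam j j' s s') hU hz ?_ (contDiff_lam j j' s s') ?_ ?_ i k
  · intro w hw
    exact contDiffAt_trans j j' s s' w hw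
  · intro w hw
    have h : phi j s w = phi j' s' (cX j' s' (phi j s w)) := ((cX j' s').left_inv hw).symm
    exact (lam_rel h).1
  · intro w hw
    have h : phi j s w = phi j' s' (cX j' s' (phi j s w)) := ((cX j' s').left_inv hw).symm
    exact (lam_rel h).2

/-- the Kähler metric on the surface -/
noncomputable def metX : KahlerMetric Surf where
  g _ := gQ
  smooth := by
    intro e _ i j
    exact (contDiff_gQ i j).contDiffOn
  posDef := by
    intro e _ z _
    exact posDef_gQ z
  kahler := by
    intro e _ z _ i j l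
    exact kahler_gQ z i j l
  transform := by
    rintro _ ⟨⟨j, s⟩, rfl⟩ _ ⟨⟨j', s'⟩, rfl⟩ z _ hz i k
    exact transform_gQ j j' s s' z hz i k

theorem metX_pos : metX.HasPositiveHSC := by
  intro e _ z _ v hv
  exact hsc_pos z v hv

end Pool.Agent.TH180
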