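import Pool.Agent.TH180.Pos

set_option autoImplicit false
set_option linter.unusedSimpArgs false

open scoped ComplexConjugate Topology ContDiff ComplexOrder

namespace Pool.Agent.TH180

lemma jetRel_JQ' (z : C2) : JetRel JQ z ((Complex.normSq (z 0) : ℝ) : ℂ)
    ((Complex.normSq (z 1) : ℝ) : ℂ)
    (qd ((Complex.normSq (z 0) : ℝ) : ℂ) ((Complex.normSq (z 1) : ℝ) : ℂ)) := by
  have h := jetRel_JQ z
  rw [Complex.mul_conj, Complex.mul_conj] at h
  exact h

lemma JQ00 (z : C2) : JQ 0 0 z =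
    ((qd (Complex.normSq (z 0)) (Complex.normSq (z 1)) 0 0 : ℝ) : ℂ) := by
  rw [(jetRel_JQ' z).p, ofReal_qd]

lemma jetFamily_JQ : JetFamily JQ where
  hasW := hasW_JQ
  ne z := by
    rw [JQ00]
    exact_mod_cast (q_pos (Complex.normSq_nonneg (z 0)) (Complex.normSq_nonneg (z 1))).ne'

lemma jG3_JQ (z : C2) : jG3 JQ z =
    (((rB (Complex.normSq (z 0)) (Complex.normSq (z 1))).G3 : ℝ) : ℂ) := by
  rw [(jetRel_JQ' z).G3, ofReal_G3]

lemma sWb_eq (z ζ : C2) : sWb z ζ = conj (sW z ζ) := by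
  unfold sW sWb
  simp only [map_mul, Complex.conj_conj]
  ring

lemma s2_eq (z ζ : C2) : (sW z ζ + sWb z ζ) / 2 = (((sW z ζ).re : ℝ) : ℂ) := by
  rw [sWb_eq, Complex.add_conj]
  push_cast
  ring

lemma s2_le (z ζ : C2) : (sW z ζ).re ^ 2 ≤ Complex.normSq (z 0) * Complex.normSq (z 1) *
    Complex.normSq (ζ 0) * Complex.normSq (ζ 1) := by
  have h1 : (sW z ζ).re ^ 2 ≤ Complex.normSq (sW z ζ) := by
    rw [Complex.normSq_apply]
    nlinarith [sq_nonneg (sW z ζ).im]
  have h2 : Complex.normSq (sW z ζ) = Complex.normSq (z 0) * Complex.normSq (z 1) *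
    Complex.normSq (ζ 0) * Complex.normSq (ζ 1) := by
    unfold sW
    simp only [map_mul, Complex.normSq_conj]
    ring
  linarith

lemma ne_zero_or {ζ : C2} (h : ζ ≠ 0) : Complex.normSq (ζ 0) ≠ 0 ∨ Complex.normSq (ζ 1) ≠ 0 := by
  by_contra hcon
  push Not at hcon
  apply h
  funext i
  fin_cases i
  · exact Complex.normSq_eq_zero.mp hcon.1
  · exact Complex.normSq_eq_zero.mp hcon.2

/-- the metric in a chart -/
noncomputable def gQ (z : C2) : Matrix (Fin 2) (Fin 2) ℂ := gJ JQ z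

lemma curv_pos (z ζ : C2) (hζ : ζ ≠ 0) :
    0 < (∑ i, ∑ j, ∑ k, ∑ l, curvature gQ z i j k l * ζ i * conj (ζ j) * ζ k * conj (ζ l)).re := by
  have hx := Complex.normSq_nonneg (z 0)
  have hy := Complex.normSq_nonneg (z 1)
  have hG := G3_pos hx hy
  have hP := q_pos hx hy
  have hE := E_pos hx hy (Complex.normSq_nonneg (ζ 0)) (Complex.normSq_nonneg (ζ 1))
    (ne_zero_or hζ) (s2_le z ζ)
  have h1 := gauss jetFamily_JQ z ζ (by
    rw [jG3_JQ]
    exact_mod_cast hG.ne')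
  rw [(jetRel_JQ' z).E ζ, s2_eq, Complex.mul_conj, Complex.mul_conj, ofReal_ca0, ofReal_ca1,
    ofReal_ca2, ofReal_ca22, ofReal_ca3, ofReal_ca4, jG3_JQ, JQ00] at h1
  have h2 : (∑ i, ∑ j, ∑ k, ∑ l, curvature (gJ JQ) z i j k l * ζ i * conj (ζ j) * ζ k *
      conj (ζ l)) * (((qd (Complex.normSq (z 0)) (Complex.normSq (z 1)) 0 0 ^ 4 *
        (rB (Complex.normSq (z 0)) (Complex.normSq (z 1))).G3 : ℝ)) : ℂ) =
      (((ca0 (Complex.normSq (z 0)) (Complex.normSq (z 1))
        (qd (Complex.normSq (z 0)) (Complex.normSq (z 1)))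
        (rB (Complex.normSq (z 0)) (Complex.normSq (z 1))) * Complex.normSq (ζ 0) ^ 2 +
      ca1 (Complex.normSq (z 0)) (Complex.normSq (z 1))
        (qd (Complex.normSq (z 0)) (Complex.normSq (z 1)))
        (rB (Complex.normSq (z 0)) (Complex.normSq (z 1))) * Complex.normSq (ζ 0) *
          (sW z ζ).re +
      ca2 (Complex.normSq (z 0)) (Complex.normSq (z 1))
        (qd (Complex.normSq (z 0)) (Complex.normSq (z 1)))
        (rB (Complex.normSq (z 0)) (Complex.normSq (z 1))) * Complex.normSq (ζ 0) *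
          Complex.normSq (ζ 1) +
      ca22 (Complex.normSq (z 0)) (Complex.normSq (z 1))
        (qd (Complex.normSq (z 0)) (Complex.normSq (z 1)))
        (rB (Complex.normSq (z 0)) (Complex.normSq (z 1))) * (sW z ζ).re ^ 2 +
      ca3 (Complex.normSq (z 0)) (Complex.normSq (z 1))
        (qd (Complex.normSq (z 0)) (Complex.normSq (z 1)))
        (rB (Complex.normSq (z 0)) (Complex.normSq (z 1))) * (sW z ζ).re *
          Complex.normSq (ζ 1) +
      ca4 (Complex.normSq (z 0)) (Complex.normSq (z 1))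
        (qd (Complex.normSq (z 0)) (Complex.normSq (z 1)))
        (rB (Complex.normSq (z 0)) (Complex.normSq (z 1))) * Complex.normSq (ζ 1) ^ 2 : ℝ)) : ℂ) := by
    push_cast
    exact h1
  have h3 := congrArg Complex.re h2
  rw [Complex.re_mul_ofReal, Complex.ofReal_re] at h3
  rw [← h3] at hE
  have h4 : 0 < qd (Complex.normSq (z 0)) (Complex.normSq (z 1)) 0 0 ^ 4 *
    (rB (Complex.normSq (z 0)) (Complex.normSq (z 1))).G3 := by positivity
  exact (pos_iff_pos_of_mul_pos hE).mpr h4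

lemma form_eq (z ζ : C2) : (∑ i, ∑ j, gQ z i j * ζ i * conj (ζ j)) *
      (((qd (Complex.normSq (z 0)) (Complex.normSq (z 1)) 0 0 ^ 2 : ℝ)) : ℂ) =
    ((((rB (Complex.normSq (z 0)) (Complex.normSq (z 1))).V11 * Complex.normSq (ζ 0) +
      (rB (Complex.normSq (z 0)) (Complex.normSq (z 1))).V12 * (2 * (sW z ζ).re) +
      (rB (Complex.normSq (z 0)) (Complex.normSq (z 1))).V22 * Complex.normSq (ζ 1) : ℝ)) : ℂ) := by
  have h1 := normSq_gJ jetFamily_JQ z ζ
  rw [(jetRel_JQ' z).V ζ, Complex.mul_conj, Complex.mul_conj, ofReal_V11, ofReal_V12, ofReal_V22,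
    JQ00, show sW z ζ + sWb z ζ = 2 * ((sW z ζ + sWb z ζ) / 2) by ring, s2_eq] at h1
  push_cast
  exact h1

lemma form_pos (z ζ : C2) (hζ : ζ ≠ 0) : 0 < ∑ i, ∑ j, gQ z i j * ζ i * conj (ζ j) := by
  have hx := Complex.normSq_nonneg (z 0)
  have hy := Complex.normSq_nonneg (z 1)
  have hP := q_pos hx hy
  have hV := V_pos hx hy (Complex.normSq_nonneg (ζ 0)) (Complex.normSq_nonneg (ζ 1))
    (ne_zero_or hζ) (s2_le z ζ)
  have h := form_eq z ζ
  have hP2 : 0 < qd (Complex.normSq (z 0)) (Complex.normSq (z 1)) 0 0 ^ 2 := by positivity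
  have hP2' : (((qd (Complex.normSq (z 0)) (Complex.normSq (z 1)) 0 0 ^ 2 : ℝ)) : ℂ) ≠ 0 := by
    exact_mod_cast hP2.ne'
  have e := eq_div_of_mul_eq hP2' h
  rw [e, ← Complex.ofReal_div]
  exact_mod_cast div_pos hV hP2

lemma normSq_pos (z ζ : C2) (hζ : ζ ≠ 0) : 0 < normSq gQ z ζ :=
  (Complex.pos_iff.mp (form_pos z ζ hζ)).1

lemma hsc_pos (z ζ : C2) (hζ : ζ ≠ 0) : 0 < hsc gQ z ζ := by
  unfold hsc
  have := curv_pos z ζ hζ
  have := normSq_pos z ζ hζ
  positivity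

lemma JQ_conj (a b : Fin 2 → ℕ) (z : C2) : conj (JQ a b z) = JQ b a z := by
  unfold JQ mono
  simp only [map_sum, map_mul, map_natCast, map_pow, Complex.conj_conj]
  apply Finset.sum_congr rfl
  intro i _
  apply Finset.sum_congr rfl
  intro j _
  push_cast
  ring

lemma gQ_conj (z : C2) (i j : Fin 2) : conj (gQ z i j) = gQ z j i := by
  simp only [gQ, gJ, map_sub, map_mul, map_pow, map_inv₀, JQ_conj]
  ring

lemma posDef_gQ (z : C2) : (gQ z).PosDef := by
  rw [Matrix.posDef_iff_dotProduct_mulVec]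
  constructor
  · ext i j
    rw [Matrix.conjTranspose_apply]
    exact gQ_conj z j i
  · intro x hx
    have h := form_pos z (fun i => conj (x i)) (by
      intro h0
      apply hx
      funext i
      have := congrFun h0 i
      simpa using this)
    convert h using 1
    simp only [dotProduct, Matrix.mulVec, Fin.sum_univ_two, Pi.star_apply, Complex.conj_conj,
      RCLike.star_def]
    ring

lemma kahler_gQ (z : C2) (i j l : Fin 2) :
    dz l (fun w => gQ w i j) z = dz i (fun w => gQ w l j) z := by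
  have h1 := (jetFamily_JQ.hasW_gJ i j z).dz l
  have h2 := (jetFamily_JQ.hasW_gJ l j z).dz i
  unfold gQ
  rw [h1, h2]
  simp only [dg]
  rw [add_comm (ee l) (ee i)]
  ring

lemma contDiff_JQ (a b : Fin 2 → ℕ) : ContDiff ℝ ∞ (JQ a b) := by
  unfold JQ mono
  have h0 : ∀ i : Fin 2, ContDiff ℝ ∞ (fun z : C2 => z i) := fun i => contDiff_apply ℝ ℂ i
  have h1 : ∀ i : Fin 2, ContDiff ℝ ∞ (fun z : C2 => conj (z i)) := fun i =>
    Complex.conjCLE.contDiff.comp (h0 i)
  refine ContDiff.sum fun i _ => ContDiff.sum fun j _ => ?_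
  exact contDiff_const.mul (contDiff_const.mul ((((h0 0).pow _).mul ((h1 0).pow _)).mul
    (((h0 1).pow _).mul ((h1 1).pow _))))

lemma contDiff_gQ (i j : Fin 2) : ContDiff ℝ ∞ (fun z => gQ z i j) := by
  have hinv : ContDiff ℝ ∞ (fun z => (JQ 0 0 z)⁻¹) :=
    (contDiff_JQ 0 0).inv jetFamily_JQ.ne
  show ContDiff ℝ ∞ (fun z => JQ (ee i) (ee j) z * (JQ 0 0 z)⁻¹ -
    JQ (ee i) 0 z * JQ 0 (ee j) z * (JQ 0 0 z)⁻¹ ^ 2)
  exact ((contDiff_JQ _ _).mul hinv).sub
    (((contDiff_JQ _ _).mul (contDiff_JQ _ _)).mul (hinv.pow 2))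

end Pool.Agent.TH180
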