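import Pool.Agent.TH180.Trans
import Pool.Agent.TH180.Met
import Pool.Agent.TH180.Blow

set_option autoImplicit false
set_option linter.unusedSimpArgs false

open scoped ComplexConjugate Topology ContDiff Manifold
open Filter

namespace Pool.Agent.TH180

/-- weights of the trihomogeneous form -/
def wh (a b c : ℕ) : ℕ :=
  ((([[[20, 31, 6], [31, 31, 15], [6, 15, 6]],
    [[31, 31, 15], [31, 20, 31], [15, 31, 31]],
    [[6, 15, 6], [15, 31, 31], [6, 31, 20]]] : List (List (List ℕ))).getD a []).getD b []).getD c 0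

/-- the trihomogeneous form -/
noncomputable def FH (X0 X1 Y0 Y1 Z0 Z1 : ℂ) : ℂ :=
  ∑ a ∈ Finset.range 3, ∑ b ∈ Finset.range 3, ∑ c ∈ Finset.range 3,
    (wh a b c : ℂ) * (X0 ^ (2 - a) * X1 ^ a * (Y0 ^ (2 - b) * Y1 ^ b) * (Z0 ^ (2 - c) * Z1 ^ c))

lemma FH_scale (c0 c1 c2 X0 X1 Y0 Y1 Z0 Z1 : ℂ) :
    FH (c0 * X0) (c0 * X1) (c1 * Y0) (c1 * Y1) (c2 * Z0) (c2 * Z1) =
      (c0 * c1 * c2) ^ 2 * FH X0 X1 Y0 Y1 Z0 Z1 := by
  unfold FH
  simp only [Finset.mul_sum]
  refine Finset.sum_congr rfl fun a ha => Finset.sum_congr rfl fun b hb =>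
    Finset.sum_congr rfl fun c hc => ?_
  have e : ∀ (n : ℕ) (x y z : ℂ), n ∈ Finset.range 3 →
      (z * x) ^ (2 - n) * (z * y) ^ n = z ^ 2 * (x ^ (2 - n) * y ^ n) := by
    intro n x y z hn
    have h2 : 2 - n + n = 2 := by
      have := Finset.mem_range.mp hn
      omega
    rw [mul_pow, mul_pow]
    have : z ^ 2 = z ^ (2 - n) * z ^ n := by rw [← pow_add, h2]
    rw [this]
    ring
  rw [e a _ _ _ ha, e b _ _ _ hb, e c _ _ _ hc]
  ring

/-- the squared norm of the section in terms of lifts -/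
noncomputable def FL (L0 L1 : Fin 3 → ℂ) : ℂ :=
  FH (L0 0 * conj (L0 0)) (L1 0 * conj (L1 0)) (L0 1 * conj (L0 1)) (L1 1 * conj (L1 1))
    (L0 2 * conj (L0 2)) (L1 2 * conj (L1 2))

lemma FL_scale (m L0 L1 : Fin 3 → ℂ) : FL (fun i => m i * L0 i) (fun i => m i * L1 i) =
    ((∏ i, m i) ^ 2) * conj ((∏ i, m i) ^ 2) * FL L0 L1 := by
  unfold FL
  have e : ∀ a b : ℂ, a * b * conj (a * b) = (a * conj a) * (b * conj b) := by
    intro a b
    rw [map_mul]
    ring
  rw [e, e, e, e, e, e, FH_scale, Fin.prod_univ_three, map_pow, map_mul, map_mul]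
  ring

lemma JQ_chart (j : Fin 3) (s : Bool) (z : C2) :
    FL (fun i => l0 (sg j s i) (mm j i z)) (fun i => l1 (sg j s i) (mm j i z)) = JQ 0 0 z := by
  rw [(jetRel_JQ z).p, qd_eq]
  unfold FL FH
  fin_cases j <;> cases s <;>
  · simp only [Finset.sum_range_succ, Finset.sum_range_zero, wh, wt, ffac_eq,
      List.getD_cons_zero, List.getD_cons_succ, List.getD_nil, Nat.descFactorial, sg, mm, fa, fb,
      l0, l1, Fin.zero_eta, Fin.mk_one, Fin.reduceFinMk, Matrix.cons_val_zero, Matrix.cons_val_one,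
      Matrix.cons_val, Fin.reduceEq, if_true, if_false, Bool.not_true, Bool.not_false,
      cond_true, cond_false, map_mul, map_one, Fin.isValue]
    norm_num
    ring

end Pool.Agent.TH180
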