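import Pool.Agent.TH180.QJets

set_option autoImplicit false
set_option linter.unusedSimpArgs false

open scoped ComplexConjugate Topology ContDiff

namespace Pool.Agent.TH180

lemma ffac_eq (n k : ℕ) : ffac n k = n.descFactorial k := by
  induction k with
  | zero => rfl
  | succ k ih =>
    rw [Nat.descFactorial_succ, ← ih]
    rfl

lemma JQ_expand (a b : Fin 2 → ℕ) (z : C2) : JQ a b z =
    ∑ i ∈ Finset.range 5, ∑ j ∈ Finset.range 5,
      ((wt i j * (i.descFactorial (a 0) * i.descFactorial (b 0) * (j.descFactorial (a 1) *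
        j.descFactorial (b 1))) : ℕ) : ℂ) *
    (z 0 ^ (i - a 0) * conj (z 0) ^ (i - b 0) * (z 1 ^ (j - a 1) * conj (z 1) ^ (j - b 1))) := by
  unfold JQ mono
  apply Finset.sum_congr rfl
  intro i _
  apply Finset.sum_congr rfl
  intro j _
  push_cast
  ring

/-- the jets of `JQ` -/
theorem jetRel_JQ (z : C2) : JetRel JQ z (z 0 * conj (z 0)) (z 1 * conj (z 1))
    (qd (z 0 * conj (z 0)) (z 1 * conj (z 1))) := by
  constructor
  · rfl
  · rfl
  all_goals
    simp only [JQ_expand, qd_eq]
    simp only [Finset.sum_range_succ, Finset.sum_range_zero, Pi.add_apply, Pi.single_eq_same, ne_eq,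
      one_ne_zero, zero_ne_one, not_false_eq_true, Pi.single_eq_of_ne, Pi.zero_apply]
    simp only [wt, ffac_eq, List.getD_cons_zero, List.getD_cons_succ, List.getD_nil,
      Nat.descFactorial]
    norm_num
    try ring

end Pool.Agent.TH180
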