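import Pool.Agent.TH180.Wirt

set_option autoImplicit false

open scoped ComplexConjugate Topology ContDiff

namespace Pool.Agent.TH180

/-- unit multi-index -/
abbrev ee (k : Fin 2) : Fin 2 → ℕ := Pi.single k 1

/-- A family of jets: all mixed derivatives of a function. -/
structure JetFamily (J : (Fin 2 → ℕ) → (Fin 2 → ℕ) → C2 → ℂ) : Prop where
  hasW : ∀ a b z, HasW (J a b) z (fun k => J (a + ee k) b z) (fun k => J a (b + ee k) z)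
  ne : ∀ z, J 0 0 z ≠ 0

variable {J : (Fin 2 → ℕ) → (Fin 2 → ℕ) → C2 → ℂ}

/-- the coefficients of `∂ ∂̄ log P` -/
noncomputable def gJ (J : (Fin 2 → ℕ) → (Fin 2 → ℕ) → C2 → ℂ) (z : C2) :
    Matrix (Fin 2) (Fin 2) ℂ :=
  fun i j => J (ee i) (ee j) z * (J 0 0 z)⁻¹ - J (ee i) 0 z * J 0 (ee j) z * (J 0 0 z)⁻¹ ^ 2

lemma JetFamily.hasW_inv (h : JetFamily J) (z : C2) :
    HasW (fun w => (J 0 0 w)⁻¹) z (fun k => - J (ee k) 0 z * (J 0 0 z)⁻¹ ^ 2)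
      (fun k => - J 0 (ee k) z * (J 0 0 z)⁻¹ ^ 2) := by
  have h1 := (h.hasW 0 0 z).inv (h.ne z)
  refine h1.congr_ab ?_ ?_ <;> intro k <;> simp [div_eq_mul_inv]

/-- `∂̄_l g_{i j̄}` -/
noncomputable def dbg (J : (Fin 2 → ℕ) → (Fin 2 → ℕ) → C2 → ℂ) (i j l : Fin 2) (z : C2) : ℂ :=
  J (ee i) (ee j + ee l) z * (J 0 0 z)⁻¹ -
    (J (ee i) (ee j) z * J 0 (ee l) z + J (ee i) (ee l) z * J 0 (ee j) z +
      J (ee i) 0 z * J 0 (ee j + ee l) z) * (J 0 0 z)⁻¹ ^ 2 +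
    2 * (J (ee i) 0 z * J 0 (ee j) z * J 0 (ee l) z) * (J 0 0 z)⁻¹ ^ 3

/-- `∂_k g_{i j̄}` -/
noncomputable def dg (J : (Fin 2 → ℕ) → (Fin 2 → ℕ) → C2 → ℂ) (i j k : Fin 2) (z : C2) : ℂ :=
  J (ee i + ee k) (ee j) z * (J 0 0 z)⁻¹ -
    (J (ee i) (ee j) z * J (ee k) 0 z + J (ee k) (ee j) z * J (ee i) 0 z +
      J 0 (ee j) z * J (ee i + ee k) 0 z) * (J 0 0 z)⁻¹ ^ 2 +
    2 * (J (ee i) 0 z * J (ee k) 0 z * J 0 (ee j) z) * (J 0 0 z)⁻¹ ^ 3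

lemma JetFamily.hasW_gJ (h : JetFamily J) (i j : Fin 2) (z : C2) :
    HasW (fun w => gJ J w i j) z (fun k => dg J i j k z) (fun l => dbg J i j l z) := by
  have hr := h.hasW_inv z
  have h1 := (h.hasW (ee i) (ee j) z).mul hr
  have h2 := ((h.hasW (ee i) 0 z).mul (h.hasW 0 (ee j) z)).mul (hr.mul hr)
  have h3 := h1.sub h2
  have e : (fun w => gJ J w i j) = fun w => J (ee i) (ee j) w * (J 0 0 w)⁻¹ -
      J (ee i) 0 w * J 0 (ee j) w * ((J 0 0 w)⁻¹ * (J 0 0 w)⁻¹) := by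
    funext w
    simp only [gJ]
    ring
  rw [e]
  refine h3.congr_ab ?_ ?_
  · intro k
    simp only [Pi.sub_apply, dg, zero_add]
    ring
  · intro k
    simp only [Pi.sub_apply, dbg, zero_add]
    ring

/-- `∂_k ∂̄_l g_{i j̄}` -/
noncomputable def ddg (J : (Fin 2 → ℕ) → (Fin 2 → ℕ) → C2 → ℂ) (i j k l : Fin 2) (z : C2) : ℂ :=
  J (ee i + ee k) (ee j + ee l) z * (J 0 0 z)⁻¹ -
    (J (ee i) (ee j + ee l) z * J (ee k) 0 z +
     J (ee i + ee k) (ee j) z * J 0 (ee l) z + J (ee i) (ee j) z * J (ee k) (ee l) z +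
     J (ee i + ee k) (ee l) z * J 0 (ee j) z + J (ee i) (ee l) z * J (ee k) (ee j) z +
     J (ee i + ee k) 0 z * J 0 (ee j + ee l) z + J (ee i) 0 z * J (ee k) (ee j + ee l) z)
      * (J 0 0 z)⁻¹ ^ 2 +
    2 * ((J (ee i) (ee j) z * J 0 (ee l) z + J (ee i) (ee l) z * J 0 (ee j) z +
      J (ee i) 0 z * J 0 (ee j + ee l) z) * J (ee k) 0 z +
      J (ee i + ee k) 0 z * J 0 (ee j) z * J 0 (ee l) z +
      J (ee i) 0 z * J (ee k) (ee j) z * J 0 (ee l) z +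
      J (ee i) 0 z * J 0 (ee j) z * J (ee k) (ee l) z) * (J 0 0 z)⁻¹ ^ 3 -
    6 * (J (ee i) 0 z * J 0 (ee j) z * J 0 (ee l) z * J (ee k) 0 z) * (J 0 0 z)⁻¹ ^ 4

lemma JetFamily.dz_dbg (h : JetFamily J) (i j k l : Fin 2) (z : C2) :
    dz k (fun w => dbg J i j l w) z = ddg J i j k l z := by
  have hr := h.hasW_inv z
  have h1 := (h.hasW (ee i) (ee j + ee l) z).mul hr
  have h2 := ((((h.hasW (ee i) (ee j) z).mul (h.hasW 0 (ee l) z)).add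
    ((h.hasW (ee i) (ee l) z).mul (h.hasW 0 (ee j) z))).add
    ((h.hasW (ee i) 0 z).mul (h.hasW 0 (ee j + ee l) z))).mul (hr.mul hr)
  have h3 := (((hasW_const 2 z).mul ((h.hasW (ee i) 0 z).mul ((h.hasW 0 (ee j) z).mul
    (h.hasW 0 (ee l) z)))).mul (hr.mul (hr.mul hr)))
  have h4 := (h1.sub h2).add h3
  have e : (fun w => dbg J i j l w) = fun w => J (ee i) (ee j + ee l) w * (J 0 0 w)⁻¹ -
      (J (ee i) (ee j) w * J 0 (ee l) w + J (ee i) (ee l) w * J 0 (ee j) w +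
      J (ee i) 0 w * J 0 (ee j + ee l) w) * ((J 0 0 w)⁻¹ * (J 0 0 w)⁻¹) +
      2 * (J (ee i) 0 w * (J 0 (ee j) w * J 0 (ee l) w)) *
        ((J 0 0 w)⁻¹ * ((J 0 0 w)⁻¹ * (J 0 0 w)⁻¹)) := by
    funext w
    simp only [dbg]
    ring
  rw [e, h4.dz k]
  simp only [Pi.sub_apply, Pi.add_apply, ddg, zero_add, Pi.zero_apply]
  ring

lemma JetFamily.curvature_eq (h : JetFamily J) (z : C2) (i j k l : Fin 2) :
    curvature (gJ J) z i j k l = - ddg J i j k l z +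
      ∑ p, ∑ q, (gJ J z)⁻¹ q p * dg J i q k z * dbg J p j l z := by
  unfold curvature
  have e1 : (fun w => dzb l (fun w' => gJ J w' i j) w) = fun w => dbg J i j l w := by
    funext w
    exact (h.hasW_gJ i j w).dzb l
  rw [e1, h.dz_dbg]
  congr 1
  apply Finset.sum_congr rfl
  intro p _
  apply Finset.sum_congr rfl
  intro q _
  rw [(h.hasW_gJ i q z).dz k, (h.hasW_gJ p j z).dzb l]

end Pool.Agent.TH180
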