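import Pool.Agent.TH180.Def

set_option autoImplicit false

open scoped ComplexConjugate Topology ContDiff Manifold OnePoint
open Filter Set

namespace Pool.Agent.TH180

/-- The projective line `ℙ¹ = ℂ ∪ {∞}`. -/
abbrev P1 : Type := OnePoint ℂ

/-- The inversion `t ↦ t⁻¹` of the projective line. -/
noncomputable def inversion : P1 → P1 :=
  fun p => p.elim (((0 : ℂ) : P1)) (fun t => if t = 0 then OnePoint.infty else ((t⁻¹ : ℂ) : P1))

/-- The two standard parametrizations `ℂ → ℙ¹`: `pt false t = t` and `pt true t = t⁻¹`. -/
noncomputable def pt (s : Bool) (t : ℂ) : P1 := cond s (inversion (t : P1)) (t : P1)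

/-- The two standard coordinates on `ℙ¹`: `rd false` is `t` away from `∞`, and `rd true` is `t⁻¹`
away from `0`. -/
noncomputable def rd (s : Bool) (p : P1) : ℂ := p.elim 0 (fun t => cond s t⁻¹ t)

lemma inversion_infty : inversion OnePoint.infty = ((0 : ℂ) : P1) := rfl
lemma inversion_zero : inversion ((0 : ℂ) : P1) = OnePoint.infty := by
  show (if (0 : ℂ) = 0 then OnePoint.infty else _) = OnePoint.infty
  rw [if_pos rfl]
lemma inversion_coe {t : ℂ} (h : t ≠ 0) : inversion (t : P1) = ((t⁻¹ : ℂ) : P1) := by
  show (if t = 0 then OnePoint.infty else _) = _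
  rw [if_neg h]

lemma inversion_inversion (p : P1) : inversion (inversion p) = p := by
  induction p using OnePoint.rec with
  | infty => rw [inversion_infty, inversion_zero]
  | coe t =>
    by_cases h : t = 0
    · subst h
      rw [inversion_zero, inversion_infty]
    · rw [inversion_coe h, inversion_coe (inv_ne_zero h), inv_inv]

lemma continuous_inversion : Continuous inversion := by
  rw [continuous_iff_continuousAt]
  intro p
  induction p using OnePoint.rec with
  | infty =>
    rw [OnePoint.continuousAt_infty', inversion_infty]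
    have h1 : Tendsto (fun t : ℂ => ((t⁻¹ : ℂ) : P1)) (coclosedCompact ℂ)
        (𝓝 (((0 : ℂ) : P1))) := by
      refine (OnePoint.continuous_coe.tendsto 0).comp ?_
      rw [coclosedCompact_eq_cocompact, ← Metric.cobounded_eq_cocompact]
      exact tendsto_inv₀_cobounded
    refine h1.congr' ?_
    have h2 : ∀ᶠ t : ℂ in coclosedCompact ℂ, t ≠ 0 := by
      have : ({0}ᶜ : Set ℂ) ∈ coclosedCompact ℂ :=
        (isCompact_singleton).compl_mem_coclosedCompact_of_isClosed isClosed_singleton
      exact this
    filter_upwards [h2] with t ht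
    exact (inversion_coe ht).symm
  | coe t =>
    rw [OnePoint.continuousAt_coe]
    by_cases h : t = 0
    · subst h
      show Tendsto (fun t : ℂ => inversion (t : P1)) (𝓝 0) (𝓝 (inversion ((0 : ℂ) : P1)))
      rw [inversion_zero]
      have h1 : Tendsto (fun t : ℂ => inversion (t : P1)) (𝓝[≠] 0) (𝓝 OnePoint.infty) := by
        have h2 : Tendsto (fun t : ℂ => ((t⁻¹ : ℂ) : P1)) (𝓝[≠] 0) (𝓝 OnePoint.infty) := by
          refine OnePoint.tendsto_coe_infty.comp ?_
          rw [coclosedCompact_eq_cocompact, ← Metric.cobounded_eq_cocompact]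
          exact tendsto_inv₀_nhdsNE_zero
        refine h2.congr' ?_
        filter_upwards [self_mem_nhdsWithin] with t ht
        exact (inversion_coe ht).symm
      rw [← nhdsNE_sup_pure, tendsto_sup]
      refine ⟨h1, ?_⟩
      rw [tendsto_pure_left]
      intro s hs
      show inversion ((0 : ℂ) : P1) ∈ s
      rw [inversion_zero]
      exact mem_of_mem_nhds hs
    · have h1 : ContinuousAt (fun t : ℂ => ((t⁻¹ : ℂ) : P1)) t :=
        OnePoint.continuous_coe.continuousAt.comp (continuousAt_inv₀ h)
      refine h1.congr ?_
      filter_upwards [isOpen_ne.mem_nhds h] with t' ht'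
      exact (inversion_coe ht').symm

lemma rd_inversion (s : Bool) (p : P1) : rd s (inversion p) = rd (!s) p := by
  induction p using OnePoint.rec with
  | infty =>
    rw [inversion_infty]
    cases s <;> simp [rd]
  | coe t =>
    by_cases h : t = 0
    · subst h
      rw [inversion_zero]
      cases s <;> simp [rd]
    · rw [inversion_coe h]
      cases s <;> simp [rd]

lemma rd_pt (s : Bool) (t : ℂ) : rd s (pt s t) = t := by
  cases s
  · rfl
  · show rd true (inversion (t : P1)) = t
    rw [rd_inversion]
    rfl

lemma continuous_pt (s : Bool) : Continuous (pt s) := by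
  cases s
  · exact OnePoint.continuous_coe
  · exact continuous_inversion.comp OnePoint.continuous_coe

lemma pt_injective (s : Bool) : Function.Injective (pt s) :=
  Function.LeftInverse.injective (rd_pt s)

lemma inversion_mem_range_pt (s : Bool) (p : P1) :
    inversion p ∈ range (pt s) ↔ p ∈ range (pt (!s)) := by
  cases s
  · constructor
    · rintro ⟨t, ht⟩
      refine ⟨t, ?_⟩
      show inversion (t : P1) = p
      have ht' : (t : P1) = inversion p := ht
      rw [ht', inversion_inversion]
    · rintro ⟨t, ht⟩
      refine ⟨t, ?_⟩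
      have ht' : inversion (t : P1) = p := ht
      rw [← ht', inversion_inversion]
      rfl
  · constructor
    · rintro ⟨t, ht⟩
      refine ⟨t, ?_⟩
      have ht' : inversion (t : P1) = inversion p := ht
      show (t : P1) = p
      rw [← inversion_inversion (t : P1), ht', inversion_inversion]
    · rintro ⟨t, ht⟩
      refine ⟨t, ?_⟩
      have ht' : (t : P1) = p := ht
      show inversion (t : P1) = inversion p
      rw [ht']

lemma isOpen_range_pt (s : Bool) : IsOpen (range (pt s)) := by
  cases s
  · exact OnePoint.isOpen_range_coe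
  · have h : range (pt true) = inversion ⁻¹' (range (pt false)) := by
      ext p
      rw [mem_preimage, inversion_mem_range_pt]
      rfl
    rw [h]
    exact (OnePoint.isOpen_range_coe).preimage continuous_inversion

lemma continuousOn_rd (s : Bool) : ContinuousOn (rd s) (range (pt s)) := by
  have h0 : ContinuousOn (rd false) (range (pt false)) := by
    rintro p ⟨t, rfl⟩
    apply ContinuousAt.continuousWithinAt
    show ContinuousAt (rd false) (t : P1)
    rw [OnePoint.continuousAt_coe]
    exact continuousAt_id
  cases s
  · exact h0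
  · have h1 : ContinuousOn (fun p => rd false (inversion p)) (range (pt true)) := by
      refine h0.comp continuous_inversion.continuousOn ?_
      intro p hp
      exact (inversion_mem_range_pt false p).mpr hp
    refine h1.congr ?_
    intro p _
    show rd true p = rd false (inversion p)
    rw [rd_inversion]
    rfl

lemma pt_rd {s : Bool} {p : P1} (h : p ∈ range (pt s)) : pt s (rd s p) = p := by
  obtain ⟨t, rfl⟩ := h
  rw [rd_pt]

/-- a point read in the other chart -/
lemma pt_not_mem_range {s : Bool} {t : ℂ} : pt (!s) t ∈ range (pt s) ↔ t ≠ 0 := by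
  cases s
  · show inversion (t : P1) ∈ range (pt false) ↔ _
    by_cases h : t = 0
    · subst h
      rw [inversion_zero]
      simp only [ne_eq, not_true_eq_false, iff_false]
      rintro ⟨t', ht'⟩
      exact OnePoint.coe_ne_infty t' ht'
    · rw [inversion_coe h]
      simp only [ne_eq, h, not_false_eq_true, iff_true]
      exact ⟨_, rfl⟩
  · show (t : P1) ∈ range (pt true) ↔ _
    constructor
    · rintro ⟨t', ht'⟩ h0
      subst h0
      have h1 : inversion (t' : P1) = ((0 : ℂ) : P1) := ht'
      have h2 := congrArg inversion h1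
      rw [inversion_inversion, inversion_zero] at h2
      exact OnePoint.coe_ne_infty t' h2
    · intro h
      refine ⟨t⁻¹, ?_⟩
      show inversion ((t⁻¹ : ℂ) : P1) = (t : P1)
      rw [inversion_coe (inv_ne_zero h), inv_inv]

lemma rd_pt_not (s : Bool) (t : ℂ) : rd s (pt (!s) t) = t⁻¹ := by
  cases s
  · show rd false (inversion (t : P1)) = t⁻¹
    rw [rd_inversion]
    rfl
  · rfl

lemma pt_not_inv {s : Bool} {t : ℂ} (h : t ≠ 0) : pt (!s) t = pt s t⁻¹ := by
  have h1 := pt_not_mem_range (s := s) |>.mpr h
  rw [← pt_rd h1, rd_pt_not]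

/-- change of coordinates on `ℙ¹` -/
lemma contDiffAt_rd_pt {s s' : Bool} {t : ℂ} (h : pt s' t ∈ range (pt s)) :
    ContDiffAt ℂ ω (fun t => rd s (pt s' t)) t := by
  by_cases hs : s' = s
  · subst hs
    have : (fun t => rd s' (pt s' t)) = fun t => t := funext fun t => rd_pt s' t
    rw [this]
    exact contDiffAt_id
  · have hs' : s' = !s := by
      cases s <;> cases s' <;> simp_all
    subst hs'
    have : (fun t => rd s (pt (!s) t)) = fun t => t⁻¹ := funext fun t => rd_pt_not s t
    rw [this]
    exact contDiffAt_inv ℂ (pt_not_mem_range.mp h)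

end Pool.Agent.TH180
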