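import Pool.Agent.TH180.P1

set_option autoImplicit false

open scoped Topology OnePoint
open Set

namespace Pool.Agent.TH180

/-! ### The complex surface `ℙ¹ × ℙ¹` -/

/-- The four standard charts of `ℙ¹ × ℙ¹`. -/
noncomputable def cY (s s' : Bool) : OpenPartialHomeomorph (P1 × P1) C2 where
  toFun p := ![rd s p.1, rd s' p.2]
  invFun z := (pt s (z 0), pt s' (z 1))
  source := range (pt s) ×ˢ range (pt s')
  target := univ
  map_source' _ _ := mem_univ _
  map_target' z _ := ⟨⟨z 0, rfl⟩, ⟨z 1, rfl⟩⟩
  left_inv' p hp := Prod.ext (pt_rd hp.1) (pt_rd hp.2)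
  right_inv' z _ := by
    funext i
    fin_cases i
    · exact rd_pt s (z 0)
    · exact rd_pt s' (z 1)
  open_source := (isOpen_range_pt s).prod (isOpen_range_pt s')
  open_target := isOpen_univ
  continuousOn_toFun := by
    rw [continuousOn_pi]
    intro i
    fin_cases i
    · exact (continuousOn_rd s).comp continuousOn_fst fun p hp => hp.1
    · exact (continuousOn_rd s').comp continuousOn_snd fun p hp => hp.2
  continuousOn_invFun := by
    apply Continuous.continuousOn
    exact ((continuous_pt s).comp (continuous_apply 0)).prodMk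
      ((continuous_pt s').comp (continuous_apply 1))

lemma exists_pt_le (p : P1) : ∃ s t, pt s t = p ∧ ‖t‖ ≤ 1 := by
  induction p using OnePoint.rec with
  | infty => exact ⟨true, 0, inversion_zero, by simp⟩
  | coe t =>
    by_cases h : ‖t‖ ≤ 1
    · exact ⟨false, t, rfl, h⟩
    · have h0 : t ≠ 0 := by
        rintro rfl
        simp at h
      refine ⟨true, t⁻¹, ?_, ?_⟩
      · show inversion ((t⁻¹ : ℂ) : P1) = (t : P1)
        rw [inversion_coe (inv_ne_zero h0), inv_inv]
      · rw [norm_inv]
        push Not at h
        exact inv_le_one_of_one_le₀ h.le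

lemma exists_mem_range (p : P1) : ∃ s, p ∈ range (pt s) := by
  obtain ⟨s, t, h, _⟩ := exists_pt_le p
  exact ⟨s, t, h⟩

/-- `ℙ¹ × ℙ¹` as a complex surface: the atlas consists of the four charts `cY`. -/
noncomputable instance instY : ChartedSpace C2 (P1 × P1) where
  atlas := range fun k : Bool × Bool => cY k.1 k.2
  chartAt p := cY (exists_mem_range p.1).choose (exists_mem_range p.2).choose
  mem_chart_source p := ⟨(exists_mem_range p.1).choose_spec, (exists_mem_range p.2).choose_spec⟩
  chart_mem_atlas p := ⟨((exists_mem_range p.1).choose, (exists_mem_range p.2).choose), rfl⟩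

end Pool.Agent.TH180
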