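import Pool.Agent.TH180.Ops

set_option autoImplicit false
set_option linter.style.docString.empty false

namespace Pool.Agent.TH180

/-- polynomial expressions in two variables -/
inductive PE : Type
  | num (n : Int)
  | U
  | V
  | add (a b : PE)
  | sub (a b : PE)
  | mul (a b : PE)

namespace PE

instance : Add PE := ⟨add⟩
instance : Sub PE := ⟨sub⟩
instance : Mul PE := ⟨mul⟩
/-- power -/
def pw (a : PE) (n : ℕ) : PE := Nat.rec (num 1) (fun _ r => mul r a) n
instance : Pow PE ℕ := ⟨pw⟩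
instance (n : ℕ) : OfNat PE n := ⟨num n⟩

/-- degree in `U` -/
def du : PE → ℕ
  | num _ => 0
  | U => 1
  | V => 0
  | add a b => du a + (du b - du a)
  | sub a b => du a + (du b - du a)
  | mul a b => du a + du b

/-- degree in `V` -/
def dv : PE → ℕ
  | num _ => 0
  | U => 0
  | V => 1
  | add a b => dv a + (dv b - dv a)
  | sub a b => dv a + (dv b - dv a)
  | mul a b => dv a + dv b

/-- integer value of the homogenized expression -/
def hz (x0 x1 y0 y1 : ℕ) : PE → Int
  | num n => n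
  | U => Int.ofNat x1
  | V => Int.ofNat y1
  | add a b => Int.add (Int.mul (hz x0 x1 y0 y1 a) (Int.ofNat (x0 ^ (du b - du a) * y0 ^ (dv b - dv a))))
      (Int.mul (hz x0 x1 y0 y1 b) (Int.ofNat (x0 ^ (du a - du b) * y0 ^ (dv a - dv b))))
  | sub a b => Int.sub (Int.mul (hz x0 x1 y0 y1 a) (Int.ofNat (x0 ^ (du b - du a) * y0 ^ (dv b - dv a))))
      (Int.mul (hz x0 x1 y0 y1 b) (Int.ofNat (x0 ^ (du a - du b) * y0 ^ (dv a - dv b))))
  | mul a b => Int.mul (hz x0 x1 y0 y1 a) (hz x0 x1 y0 y1 b)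

/-- bound for the coefficients of the homogenized expression -/
def hn (x0 x1 y0 y1 : ℕ) : PE → ℕ
  | num n => n.natAbs
  | U => x1
  | V => y1
  | add a b => hn x0 x1 y0 y1 a * (x0 ^ (du b - du a) * y0 ^ (dv b - dv a)) +
      hn x0 x1 y0 y1 b * (x0 ^ (du a - du b) * y0 ^ (dv a - dv b))
  | sub a b => hn x0 x1 y0 y1 a * (x0 ^ (du b - du a) * y0 ^ (dv b - dv a)) +
      hn x0 x1 y0 y1 b * (x0 ^ (du a - du b) * y0 ^ (dv a - dv b))
  | mul a b => hn x0 x1 y0 y1 a * hn x0 x1 y0 y1 b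

/-- all base `B` digits of `N` are less than `h` -/
def digs (B h : ℕ) (fuel : ℕ) : ℕ → Bool :=
  Nat.rec (fun N => Nat.beq N 0) (fun _ ih N => cond (Nat.blt (N % B) h) (ih (N / B)) false) fuel

/-- the check: `k` is the number of bits of the base, `(p, q)` says which of the variables are
inverted -/
def check (k : ℕ) (e : PE) (p q : Bool) : Bool :=
  let B := 2 ^ k
  let h := 2 ^ (k - 1)
  let n := du e + 1
  let C := B ^ n
  let x0 := cond p 1 (B + 1)
  let x1 := cond p (B + 1) B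
  let y0 := cond q 1 (C + 1)
  let y1 := cond q (C + 1) C
  cond (Nat.blt (hn (cond p 1 2) (cond p 2 1) (cond q 1 2) (cond q 2 1) e) h)
    (match hz x0 x1 y0 y1 e with
      | Int.ofNat N => cond (Nat.blt 0 (N % B)) (digs B h (n * (dv e + 1)) N) false
      | Int.negSucc _ => false) false

end PE

/-- weights -/
def wt (i j : ℕ) : ℕ :=
  (([[6, 15, 6, 0, 0], [15, 62, 62, 15, 0], [6, 62, 60, 62, 6], [0, 15, 62, 62, 15],
    [0, 0, 6, 15, 6]] : List (List ℕ)).getD i []).getD j 0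

/-- falling factorial -/
def ffac (n k : ℕ) : ℕ := Nat.rec 1 (fun i r => (n - i) * r) k

/-- `∂_u^a ∂_v^b Q` as an expression -/
def qE (a b : ℕ) : PE :=
  (List.range 5).foldl (fun s i => s + ((List.range 5).foldl (fun t j =>
    t + PE.num (wt i j * ffac i a * ffac j b : ℕ) * PE.V ^ (j - b)) (PE.num 0)) * PE.U ^ (i - a))
    (PE.num 0)

/-- -/
def BE : Bas PE := bas PE.U PE.V qE

/-- -/
def b22E : PE := cb22 PE.U PE.V qE BE
/-- -/
def m2E : PE := cm2 PE.U PE.V qE BE
/-- -/
def m3E : PE := cm3 PE.U PE.V qE BE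

end Pool.Agent.TH180
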