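import Pool.Agent.TH180.JRel

set_option autoImplicit false
set_option linter.unusedSimpArgs false

open scoped ComplexConjugate Topology ContDiff

namespace Pool.Agent.TH180

/-! ### Real versions of the basic quantities -/

/-- basic quantities at real `(x, y)` -/
noncomputable def rB (x y : ℝ) : Bas ℝ := bas x y (qd x y)

lemma ofReal_qd (x y : ℝ) (a b : ℕ) : qd (x : ℂ) (y : ℂ) a b = ((qd x y a b : ℝ) : ℂ) := by
  unfold qd
  exact (PE.map_ev x y Complex.ofRealHom (qE a b)).symm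

lemma ofReal_G3 (x y : ℝ) : (bas (x : ℂ) (y : ℂ) (qd (x : ℂ) (y : ℂ))).G3 =
    (((rB x y).G3 : ℝ) : ℂ) := by
  rw [rB, ← ev_G3E, ← ev_G3E]
  exact (PE.map_ev x y Complex.ofRealHom _).symm

lemma ofReal_V11 (x y : ℝ) : (bas (x : ℂ) (y : ℂ) (qd (x : ℂ) (y : ℂ))).V11 =
    (((rB x y).V11 : ℝ) : ℂ) := by
  rw [rB, ← ev_V11E, ← ev_V11E]
  exact (PE.map_ev x y Complex.ofRealHom _).symm

lemma ofReal_V22 (x y : ℝ) : (bas (x : ℂ) (y : ℂ) (qd (x : ℂ) (y : ℂ))).V22 =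
    (((rB x y).V22 : ℝ) : ℂ) := by
  rw [rB, ← ev_V22E, ← ev_V22E]
  exact (PE.map_ev x y Complex.ofRealHom _).symm

lemma ofReal_V12 (x y : ℝ) : (bas (x : ℂ) (y : ℂ) (qd (x : ℂ) (y : ℂ))).V12 =
    (((rB x y).V12 : ℝ) : ℂ) := by
  simp only [rB, bas, ofReal_qd]
  push_cast
  rfl

lemma ofReal_ca0 (x y : ℝ) : ca0 (x : ℂ) (y : ℂ) (qd (x : ℂ) (y : ℂ))
    (bas (x : ℂ) (y : ℂ) (qd (x : ℂ) (y : ℂ))) = ((ca0 x y (qd x y) (rB x y) : ℝ) : ℂ) := by
  simp only [ca0, n0, rB, bas, ofReal_qd]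
  push_cast
  rfl

lemma ofReal_ca1 (x y : ℝ) : ca1 (x : ℂ) (y : ℂ) (qd (x : ℂ) (y : ℂ))
    (bas (x : ℂ) (y : ℂ) (qd (x : ℂ) (y : ℂ))) = ((ca1 x y (qd x y) (rB x y) : ℝ) : ℂ) := by
  simp only [ca1, n1, rB, bas, ofReal_qd]
  push_cast
  rfl

lemma ofReal_ca2 (x y : ℝ) : ca2 (x : ℂ) (y : ℂ) (qd (x : ℂ) (y : ℂ))
    (bas (x : ℂ) (y : ℂ) (qd (x : ℂ) (y : ℂ))) = ((ca2 x y (qd x y) (rB x y) : ℝ) : ℂ) := by
  simp only [ca2, n2, n22, rB, bas, ofReal_qd]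
  push_cast
  rfl

lemma ofReal_ca22 (x y : ℝ) : ca22 (x : ℂ) (y : ℂ) (qd (x : ℂ) (y : ℂ))
    (bas (x : ℂ) (y : ℂ) (qd (x : ℂ) (y : ℂ))) = ((ca22 x y (qd x y) (rB x y) : ℝ) : ℂ) := by
  simp only [ca22, n22, rB, bas, ofReal_qd]
  push_cast
  rfl

lemma ofReal_ca3 (x y : ℝ) : ca3 (x : ℂ) (y : ℂ) (qd (x : ℂ) (y : ℂ))
    (bas (x : ℂ) (y : ℂ) (qd (x : ℂ) (y : ℂ))) = ((ca3 x y (qd x y) (rB x y) : ℝ) : ℂ) := by
  simp only [ca3, n3, rB, bas, ofReal_qd]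
  push_cast
  rfl

lemma ofReal_ca4 (x y : ℝ) : ca4 (x : ℂ) (y : ℂ) (qd (x : ℂ) (y : ℂ))
    (bas (x : ℂ) (y : ℂ) (qd (x : ℂ) (y : ℂ))) = ((ca4 x y (qd x y) (rB x y) : ℝ) : ℂ) := by
  simp only [ca4, n4, rB, bas, ofReal_qd]
  push_cast
  rfl

/-! ### Positivity of the basic quantities -/

section

variable {x y : ℝ} (hx : 0 ≤ x) (hy : 0 ≤ y)

include hx hy

lemma q_pos : 0 < qd x y 0 0 :=
  PE.pos_of_check 64 (by norm_num) (qE 0 0) chk_q x y hx hy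

lemma G3_pos : 0 < (rB x y).G3 := by
  rw [rB, ← ev_G3E]
  exact PE.pos_of_check 64 (by norm_num) _ chk_G3 x y hx hy

lemma V11_pos : 0 < (rB x y).V11 := by
  rw [rB, ← ev_V11E]
  exact PE.pos_of_check 64 (by norm_num) _ chk_V11 x y hx hy

lemma V22_pos : 0 < (rB x y).V22 := by
  rw [rB, ← ev_V22E]
  exact PE.pos_of_check 64 (by norm_num) _ chk_V22 x y hx hy

lemma b22_pos : 0 < cb22 x y (qd x y) (rB x y) := by
  rw [rB, ← ev_b22E]
  exact PE.pos_of_check 128 (by norm_num) _ chk_b22 x y hx hy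

lemma m2_pos : 0 < cm2 x y (qd x y) (rB x y) := by
  rw [rB, ← ev_m2E]
  exact PE.pos_of_check 256 (by norm_num) _ chk_m2 x y hx hy

lemma m3_pos : 0 < cm3 x y (qd x y) (rB x y) := by
  rw [rB, ← ev_m3E]
  exact PE.pos_of_check 384 (by norm_num) _ chk_m3 x y hx hy

lemma det_V_pos : 0 < (rB x y).V11 * (rB x y).V22 - x * y * (rB x y).V12 ^ 2 := by
  have h : (rB x y).V11 * (rB x y).V22 - x * y * (rB x y).V12 ^ 2 =
      qd x y 0 0 * (rB x y).G3 := by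
    simp only [rB, bas]
    ring
  rw [h]
  exact mul_pos (q_pos hx hy) (G3_pos hx hy)

end

/-! ### The quartic form -/

lemma exists_tau {x y s1 s3 s2 : ℝ} (hx : 0 ≤ x) (hy : 0 ≤ y)
    (h : s2 ^ 2 ≤ x * y * s1 * s3) (h13 : 0 ≤ s1 * s3) :
    ∃ r t : ℝ, r ^ 2 = x * y ∧ r * t = s2 ∧ t ^ 2 ≤ s1 * s3 := by
  have hxy : 0 ≤ x * y := mul_nonneg hx hy
  by_cases h0 : x * y = 0
  · refine ⟨0, 0, by rw [h0]; norm_num, ?_, by simpa using h13⟩
    have h1 : s2 ^ 2 ≤ 0 := by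
      refine h.trans ?_
      rw [h0]
      norm_num
    have h2 : s2 = 0 := by
      have := le_antisymm h1 (sq_nonneg s2)
      exact pow_eq_zero_iff (two_ne_zero) |>.mp this
    rw [h2]
    norm_num
  · have hpos : 0 < x * y := lt_of_le_of_ne hxy (Ne.symm h0)
    have hr : 0 < Real.sqrt (x * y) := Real.sqrt_pos.mpr hpos
    have hr2 : Real.sqrt (x * y) ^ 2 = x * y := Real.sq_sqrt hxy
    refine ⟨Real.sqrt (x * y), s2 / Real.sqrt (x * y), hr2, by field_simp, ?_⟩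
    rw [div_pow, hr2, div_le_iff₀ hpos]
    linarith

lemma quadratic_pos {A B C s1 s3 : ℝ} (hA : 0 < A) (hD : 0 < A * C - B ^ 2)
    (h : s1 ≠ 0 ∨ s3 ≠ 0) : 0 < A * s1 ^ 2 + 2 * B * s1 * s3 + C * s3 ^ 2 := by
  have h1 : A * (A * s1 ^ 2 + 2 * B * s1 * s3 + C * s3 ^ 2) =
      (A * s1 + B * s3) ^ 2 + (A * C - B ^ 2) * s3 ^ 2 := by ring
  have h2 : 0 < (A * s1 + B * s3) ^ 2 + (A * C - B ^ 2) * s3 ^ 2 := by
    by_cases h3 : s3 = 0
    · have h1 : s1 ≠ 0 := by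
        rcases h with h | h
        · exact h
        · exact absurd h3 h
      rw [h3]
      have : A * s1 ≠ 0 := mul_ne_zero hA.ne' h1
      have : 0 < (A * s1) ^ 2 := by positivity
      simpa using this
    · have : 0 < (A * C - B ^ 2) * s3 ^ 2 := mul_pos hD (by positivity)
      have h4 := sq_nonneg (A * s1 + B * s3)
      linarith
  rw [← h1] at h2
  exact (pos_iff_pos_of_mul_pos h2).mp hA

/-- positivity of the quartic form -/
lemma E_pos {x y s1 s2 s3 : ℝ} (hx : 0 ≤ x) (hy : 0 ≤ y) (h1 : 0 ≤ s1) (h3 : 0 ≤ s3)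
    (h : s1 ≠ 0 ∨ s3 ≠ 0) (h2 : s2 ^ 2 ≤ x * y * s1 * s3) :
    0 < ca0 x y (qd x y) (rB x y) * s1 ^ 2 + ca1 x y (qd x y) (rB x y) * s1 * s2 +
      ca2 x y (qd x y) (rB x y) * s1 * s3 + ca22 x y (qd x y) (rB x y) * s2 ^ 2 +
      ca3 x y (qd x y) (rB x y) * s2 * s3 + ca4 x y (qd x y) (rB x y) * s3 ^ 2 := by
  obtain ⟨r, t, hr, hrt, ht⟩ := exists_tau hx hy h2 (mul_nonneg h1 h3)
  have hb22 := b22_pos hx hy
  have hm2 := m2_pos hx hy
  have hm3 := m3_pos hx hy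
  have hW : 0 < cW (qd x y) (rB x y) := by
    have := q_pos hx hy
    have := G3_pos hx hy
    unfold cW
    positivity
  have hD : 0 < cm2 x y (qd x y) (rB x y) * (cb4 x y (qd x y) (rB x y) *
      cb22 x y (qd x y) (rB x y) - x * y * cb3 x y (qd x y) (rB x y) ^ 2) -
      (cb2 x y (qd x y) (rB x y) * cb22 x y (qd x y) (rB x y) -
        x * y * cb1 x y (qd x y) (rB x y) * cb3 x y (qd x y) (rB x y)) ^ 2 := by
    have e : cm2 x y (qd x y) (rB x y) * (cb4 x y (qd x y) (rB x y) *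
      cb22 x y (qd x y) (rB x y) - x * y * cb3 x y (qd x y) (rB x y) ^ 2) -
      (cb2 x y (qd x y) (rB x y) * cb22 x y (qd x y) (rB x y) -
        x * y * cb1 x y (qd x y) (rB x y) * cb3 x y (qd x y) (rB x y)) ^ 2 =
      cb22 x y (qd x y) (rB x y) * cm3 x y (qd x y) (rB x y) := by
      unfold cm3 cm2
      ring
    rw [e]
    exact mul_pos hb22 hm3
  have hQ := quadratic_pos hm2 hD h
  have key : 50 * cb22 x y (qd x y) (rB x y) * (ca0 x y (qd x y) (rB x y) * s1 ^ 2 +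
      ca1 x y (qd x y) (rB x y) * s1 * s2 +
      ca2 x y (qd x y) (rB x y) * s1 * s3 + ca22 x y (qd x y) (rB x y) * s2 ^ 2 +
      ca3 x y (qd x y) (rB x y) * s2 * s3 + ca4 x y (qd x y) (rB x y) * s3 ^ 2) =
      (cb22 x y (qd x y) (rB x y) * t + r * (cb1 x y (qd x y) (rB x y) * s1 +
        cb3 x y (qd x y) (rB x y) * s3)) ^ 2 +
      (cm2 x y (qd x y) (rB x y) * s1 ^ 2 + 2 * (cb2 x y (qd x y) (rB x y) *
        cb22 x y (qd x y) (rB x y) -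
        x * y * cb1 x y (qd x y) (rB x y) * cb3 x y (qd x y) (rB x y)) * s1 * s3 +
        (cb4 x y (qd x y) (rB x y) *
      cb22 x y (qd x y) (rB x y) - x * y * cb3 x y (qd x y) (rB x y) ^ 2) * s3 ^ 2) +
      2 * cW (qd x y) (rB x y) * cb22 x y (qd x y) (rB x y) * (s1 * s3 - t ^ 2) := by
    rw [← hrt, ← hr]
    unfold cm2 cb0 cb1 cb2 cb3 cb4
    rw [← hr]
    have hb : cb22 x y (qd x y) (rB x y) = 2 * (25 * (x * y) * ca22 x y (qd x y) (rB x y) +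
      cW (qd x y) (rB x y)) := by
      unfold cb22
      ring
    rw [hb, ← hr]
    ring
  have h5 : 0 ≤ 2 * cW (qd x y) (rB x y) * cb22 x y (qd x y) (rB x y) * (s1 * s3 - t ^ 2) :=
    mul_nonneg (by positivity) (by linarith)
  have h6 : 0 < 50 * cb22 x y (qd x y) (rB x y) * (ca0 x y (qd x y) (rB x y) * s1 ^ 2 +
      ca1 x y (qd x y) (rB x y) * s1 * s2 +
      ca2 x y (qd x y) (rB x y) * s1 * s3 + ca22 x y (qd x y) (rB x y) * s2 ^ 2 +
      ca3 x y (qd x y) (rB x y) * s2 * s3 + ca4 x y (qd x y) (rB x y) * s3 ^ 2) := by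
    rw [key]
    have := sq_nonneg (cb22 x y (qd x y) (rB x y) * t + r * (cb1 x y (qd x y) (rB x y) * s1 +
        cb3 x y (qd x y) (rB x y) * s3))
    linarith
  exact (pos_iff_pos_of_mul_pos h6).mp (by positivity)

/-- positivity of the Hermitian form -/
lemma V_pos {x y s1 s2 s3 : ℝ} (hx : 0 ≤ x) (hy : 0 ≤ y) (h1 : 0 ≤ s1) (h3 : 0 ≤ s3)
    (h : s1 ≠ 0 ∨ s3 ≠ 0) (h2 : s2 ^ 2 ≤ x * y * s1 * s3) :
    0 < (rB x y).V11 * s1 + (rB x y).V12 * (2 * s2) + (rB x y).V22 * s3 := by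
  have hA := V11_pos hx hy
  have hC := V22_pos hx hy
  have hD := det_V_pos hx hy
  by_contra hcon
  push Not at hcon
  have e1 : 0 < (rB x y).V11 * s1 + (rB x y).V22 * s3 := by
    rcases h with h | h
    · have : 0 < s1 := lt_of_le_of_ne h1 (Ne.symm h)
      have : 0 < (rB x y).V11 * s1 := by positivity
      have : 0 ≤ (rB x y).V22 * s3 := by positivity
      linarith
    · have : 0 < s3 := lt_of_le_of_ne h3 (Ne.symm h)
      have : 0 < (rB x y).V22 * s3 := by positivity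
      have : 0 ≤ (rB x y).V11 * s1 := by positivity
      linarith
  have e2 : (rB x y).V11 * s1 + (rB x y).V22 * s3 ≤ -((rB x y).V12 * (2 * s2)) := by linarith
  have e3 : ((rB x y).V11 * s1 + (rB x y).V22 * s3) ^ 2 ≤ ((rB x y).V12 * (2 * s2)) ^ 2 := by
    rw [← neg_sq ((rB x y).V12 * (2 * s2))]
    exact pow_le_pow_left₀ e1.le e2 2
  have e4 : ((rB x y).V12 * (2 * s2)) ^ 2 ≤ 4 * (rB x y).V12 ^ 2 * (x * y * s1 * s3) := by
    have : ((rB x y).V12 * (2 * s2)) ^ 2 = 4 * (rB x y).V12 ^ 2 * s2 ^ 2 := by ring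
    rw [this]
    exact mul_le_mul_of_nonneg_left h2 (by positivity)
  have e5 : 4 * (rB x y).V12 ^ 2 * (x * y * s1 * s3) ≤
      4 * ((rB x y).V11 * s1) * ((rB x y).V22 * s3) := by
    have : 0 ≤ ((rB x y).V11 * (rB x y).V22 - x * y * (rB x y).V12 ^ 2) * (s1 * s3) :=
      mul_nonneg hD.le (mul_nonneg h1 h3)
    nlinarith [this]
  have e6 : ((rB x y).V11 * s1 - (rB x y).V22 * s3) ^ 2 ≤ 0 := by nlinarith [e3, e4, e5]
  have e7 : (rB x y).V11 * s1 = (rB x y).V22 * s3 := by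
    have := le_antisymm e6 (sq_nonneg _)
    have := pow_eq_zero_iff (two_ne_zero) |>.mp this
    linarith
  have hs1 : 0 < s1 := by
    rcases lt_or_eq_of_le h1 with h | h
    · exact h
    · exfalso
      rw [← h] at e7 e1
      rw [mul_zero] at e7 e1
      linarith
  have hs3 : 0 < s3 := by
    rcases lt_or_eq_of_le h3 with h | h
    · exact h
    · exfalso
      rw [← h] at e7 e1
      rw [mul_zero] at e7 e1
      linarith
  have e8 : 0 < ((rB x y).V11 * (rB x y).V22 - x * y * (rB x y).V12 ^ 2) * (s1 * s3) :=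
    mul_pos hD (mul_pos hs1 hs3)
  nlinarith [e3, e4, e8, sq_nonneg ((rB x y).V11 * s1 - (rB x y).V22 * s3)]

end Pool.Agent.TH180
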