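import Pool.Agent.TH180.Circ
import Pool.Agent.TH180.Chk

set_option autoImplicit false
set_option linter.unusedSimpArgs false

open scoped ComplexConjugate Topology ContDiff

namespace Pool.Agent.TH180

/-! ### More rules for Wirtinger derivatives -/

lemma HasW.pow {f : C2 → ℂ} {z : C2} {a b : Fin 2 → ℂ} (hf : HasW f z a b) (n : ℕ) :
    HasW (fun w => f w ^ n) z (fun k => n * f z ^ (n - 1) * a k)
      (fun k => n * f z ^ (n - 1) * b k) := by
  unfold HasW at *
  have h := (hasDerivAt_pow n (f z)).hasFDerivAt.restrictScalars ℝ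
  have h2 := h.comp z hf
  refine HasFDerivAt.congr_fderiv (f := fun w => f w ^ n) h2 ?_
  ext v
  simp only [lin_apply, ContinuousLinearMap.coe_comp, Function.comp_apply,
    ContinuousLinearMap.coe_restrictScalars', ContinuousLinearMap.toSpanSingleton_apply,
    smul_eq_mul, Finset.sum_mul]
  apply Finset.sum_congr rfl
  intro k _
  ring

lemma HasW.sum {ι : Type} (s : Finset ι) {f : ι → C2 → ℂ} {z : C2} {a b : ι → Fin 2 → ℂ}
    (hf : ∀ i ∈ s, HasW (f i) z (a i) (b i)) :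
    HasW (fun w => ∑ i ∈ s, f i w) z (fun k => ∑ i ∈ s, a i k) (fun k => ∑ i ∈ s, b i k) := by
  classical
  induction s using Finset.induction_on with
  | empty =>
    simp only [Finset.sum_empty]
    exact hasW_const 0 z
  | insert i s hi ih =>
    have h1 := (hf i (Finset.mem_insert_self i s)).add
      (ih fun j hj => hf j (Finset.mem_insert_of_mem hj))
    simp only [Finset.sum_insert hi]
    exact h1

/-! ### The jets of `Q (|z₀|², |z₁|²)` -/

/-- `∂^a ∂̄^b` of `c z₀^i z̄₀^i z₁^j z̄₁^j` -/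
noncomputable def mono (i j : ℕ) (a b : Fin 2 → ℕ) (z : C2) : ℂ :=
  ((i.descFactorial (a 0) * i.descFactorial (b 0) * (j.descFactorial (a 1) *
    j.descFactorial (b 1)) : ℕ) : ℂ) *
    (z 0 ^ (i - a 0) * conj (z 0) ^ (i - b 0) * (z 1 ^ (j - a 1) * conj (z 1) ^ (j - b 1)))

lemma descF (n k : ℕ) : (((n - k : ℕ) : ℂ)) * ((n.descFactorial k : ℕ) : ℂ) =
    ((n.descFactorial (k + 1) : ℕ) : ℂ) := by
  rw [Nat.descFactorial_succ]
  push_cast
  rfl

lemma hasW_mono (i j : ℕ) (a b : Fin 2 → ℕ) (z : C2) :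
    HasW (mono i j a b) z (fun k => mono i j (a + ee k) b z) (fun k => mono i j a (b + ee k) z) := by
  have h0 := (hasW_coord 0 z).pow (i - a 0)
  have h0' := (hasW_conj_coord 0 z).pow (i - b 0)
  have h1 := (hasW_coord 1 z).pow (j - a 1)
  have h1' := (hasW_conj_coord 1 z).pow (j - b 1)
  have h := (hasW_const (((i.descFactorial (a 0) * i.descFactorial (b 0) *
    (j.descFactorial (a 1) * j.descFactorial (b 1)) : ℕ) : ℂ)) z).mul
      ((h0.mul h0').mul (h1.mul h1'))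
  refine HasW.congr_ab (f := mono i j a b) h ?_ ?_
  · intro k
    fin_cases k
    · simp only [Fin.zero_eta, mono, Pi.zero_apply, Pi.single_eq_same, Pi.add_apply]
      simp [Nat.sub_sub]
      ring
    · simp only [Fin.mk_one, mono, Pi.zero_apply, Pi.single_eq_same, Pi.add_apply]
      simp [Nat.sub_sub]
      ring
  · intro k
    fin_cases k
    · simp only [Fin.zero_eta, mono, Pi.zero_apply, Pi.single_eq_same, Pi.add_apply]
      simp [Nat.sub_sub]
      ring
    · simp only [Fin.mk_one, mono, Pi.zero_apply, Pi.single_eq_same, Pi.add_apply]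
      simp [Nat.sub_sub]
      ring

/-- all derivatives of `Q (|z₀|², |z₁|²)` -/
noncomputable def JQ (a b : Fin 2 → ℕ) (z : C2) : ℂ :=
  ∑ i ∈ Finset.range 5, ∑ j ∈ Finset.range 5, (wt i j : ℂ) * mono i j a b z

lemma hasW_JQ (a b : Fin 2 → ℕ) (z : C2) :
    HasW (JQ a b) z (fun k => JQ (a + ee k) b z) (fun k => JQ a (b + ee k) z) := by
  unfold JQ
  refine HasW.sum _ fun i _ => HasW.sum _ fun j _ => ?_
  refine ((hasW_const (wt i j : ℂ) z).mul (hasW_mono i j a b z)).congr_ab ?_ ?_ <;>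
    intro k <;> simp

/-! ### Expressions -/

namespace PE

variable {R : Type} [CommRing R] (x y : R)

lemma ev_add (a b : PE) : ev x y (a + b) = ev x y a + ev x y b := rfl
lemma ev_sub (a b : PE) : ev x y (a - b) = ev x y a - ev x y b := rfl
lemma ev_mul (a b : PE) : ev x y (a * b) = ev x y a * ev x y b := rfl
lemma ev_pow (a : PE) (n : ℕ) : ev x y (a ^ n) = ev x y a ^ n := by
  induction n with
  | zero =>
    show ((1 : ℤ) : R) = _
    simp
  | succ n ih =>
    rw [pow_succ, ← ih]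
    rfl
lemma ev_num (n : ℤ) : ev x y (num n) = (n : R) := rfl
lemma ev_2 : ev x y 2 = 2 := by show (((2 : ℕ) : ℤ) : R) = 2; simp
lemma ev_4 : ev x y 4 = 4 := by show (((4 : ℕ) : ℤ) : R) = 4; simp
lemma ev_8 : ev x y 8 = 8 := by show (((8 : ℕ) : ℤ) : R) = 8; simp
lemma ev_25 : ev x y 25 = 25 := by show (((25 : ℕ) : ℤ) : R) = 25; simp
lemma ev_50 : ev x y 50 = 50 := by show (((50 : ℕ) : ℤ) : R) = 50; simp
lemma ev_U : ev x y U = x := rfl
lemma ev_V : ev x y V = y := rfl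

lemma map_ev {S : Type} [CommRing S] (φ : R →+* S) (e : PE) :
    φ (ev x y e) = ev (φ x) (φ y) e := by
  induction e with
  | num n => simp [ev]
  | U => rfl
  | V => rfl
  | add a b iha ihb => simp [ev, iha, ihb]
  | sub a b iha ihb => simp [ev, iha, ihb]
  | mul a b iha ihb => simp [ev, iha, ihb]

end PE

/-- the partial derivatives of `Q` -/
def qd {R : Type} [CommRing R] (x y : R) (a b : ℕ) : R := PE.ev x y (qE a b)

lemma qd_eq {R : Type} [CommRing R] (x y : R) (a b : ℕ) : qd x y a b =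
    ∑ i ∈ Finset.range 5, (∑ j ∈ Finset.range 5,
      ((wt i j * ffac i a * ffac j b : ℕ) : R) * y ^ (j - b)) * x ^ (i - a) := by
  have h5 : List.range 5 = [0, 1, 2, 3, 4] := rfl
  simp only [qd, qE, h5, List.foldl, PE.ev_add, PE.ev_mul, PE.ev_pow, PE.ev_num, PE.ev_U, PE.ev_V,
    Finset.sum_range_succ, Finset.sum_range_zero, Int.cast_natCast, Int.cast_zero]

lemma ev_b22E {R : Type} [CommRing R] (x y : R) :
    PE.ev x y b22E = cb22 x y (qd x y) (bas x y (qd x y)) := by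
  simp only [b22E, BE, cb22, cW, ca22, n22, bas, PE.ev_add, PE.ev_sub, PE.ev_mul, PE.ev_pow,
    PE.ev_U, PE.ev_V, PE.ev_2, PE.ev_4, PE.ev_8, PE.ev_25, PE.ev_50, qd]

lemma ev_m2E {R : Type} [CommRing R] (x y : R) :
    PE.ev x y m2E = cm2 x y (qd x y) (bas x y (qd x y)) := by
  simp only [m2E, BE, cm2, cb0, cb1, cb22, cW, ca0, ca1, ca22, n0, n1, n22, bas, PE.ev_add,
    PE.ev_sub, PE.ev_mul, PE.ev_pow, PE.ev_U, PE.ev_V, PE.ev_2, PE.ev_4, PE.ev_8, PE.ev_25, PE.ev_50, qd]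

lemma ev_m3E {R : Type} [CommRing R] (x y : R) :
    PE.ev x y m3E = cm3 x y (qd x y) (bas x y (qd x y)) := by
  simp only [m3E, BE, cm3, cm2, cb0, cb1, cb2, cb3, cb4, cb22, cW, ca0, ca1, ca2, ca3, ca4, ca22,
    n0, n1, n2, n3, n4, n22, bas, PE.ev_add,
    PE.ev_sub, PE.ev_mul, PE.ev_pow, PE.ev_U, PE.ev_V, PE.ev_2, PE.ev_4, PE.ev_8, PE.ev_25, PE.ev_50, qd]

lemma ev_G3E {R : Type} [CommRing R] (x y : R) :
    PE.ev x y G3E = (bas x y (qd x y)).G3 := by
  simp only [G3E, BE, bas, PE.ev_add,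
    PE.ev_sub, PE.ev_mul, PE.ev_pow, PE.ev_U, PE.ev_V, PE.ev_2, PE.ev_4, PE.ev_8, PE.ev_25, PE.ev_50, qd]

lemma ev_V11E {R : Type} [CommRing R] (x y : R) :
    PE.ev x y V11E = (bas x y (qd x y)).V11 := by
  simp only [V11E, BE, bas, PE.ev_add,
    PE.ev_sub, PE.ev_mul, PE.ev_pow, PE.ev_U, PE.ev_V, PE.ev_2, PE.ev_4, PE.ev_8, PE.ev_25, PE.ev_50, qd]

lemma ev_V22E {R : Type} [CommRing R] (x y : R) :
    PE.ev x y V22E = (bas x y (qd x y)).V22 := by
  simp only [V22E, BE, bas, PE.ev_add,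
    PE.ev_sub, PE.ev_mul, PE.ev_pow, PE.ev_U, PE.ev_V, PE.ev_2, PE.ev_4, PE.ev_8, PE.ev_25, PE.ev_50, qd]

end Pool.Agent.TH180
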