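import Mathlib
import Pool.Agent.TH180.PE

set_option autoImplicit false

open Polynomial

namespace Pool.Agent.TH180

namespace PE

/-- value of an expression -/
def ev {R : Type} [CommRing R] (x y : R) : PE → R
  | num n => (n : R)
  | U => x
  | V => y
  | add a b => ev x y a + ev x y b
  | sub a b => ev x y a - ev x y b
  | mul a b => ev x y a * ev x y b

/-- value of the homogenized expression -/
def hv {R : Type} [CommRing R] (x0 x1 y0 y1 : R) : PE → R
  | num n => (n : R)
  | U => x1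
  | V => y1
  | add a b => hv x0 x1 y0 y1 a * (x0 ^ (du b - du a) * y0 ^ (dv b - dv a)) +
      hv x0 x1 y0 y1 b * (x0 ^ (du a - du b) * y0 ^ (dv a - dv b))
  | sub a b => hv x0 x1 y0 y1 a * (x0 ^ (du b - du a) * y0 ^ (dv b - dv a)) -
      hv x0 x1 y0 y1 b * (x0 ^ (du a - du b) * y0 ^ (dv a - dv b))
  | mul a b => hv x0 x1 y0 y1 a * hv x0 x1 y0 y1 b

lemma hz_eq (x0 x1 y0 y1 : ℕ) (e : PE) :
    hz x0 x1 y0 y1 e = hv (x0 : ℤ) (x1 : ℤ) (y0 : ℤ) (y1 : ℤ) e := by
  induction e with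
  | num n => simp [hz, hv]
  | U => simp [hz, hv]
  | V => simp [hz, hv]
  | add a b iha ihb =>
    simp only [hz, hv, iha, ihb]
    show _ * ((_ : ℕ) : ℤ) + _ * ((_ : ℕ) : ℤ) = _
    push_cast
    rfl
  | sub a b iha ihb =>
    simp only [hz, hv, iha, ihb]
    show _ * ((_ : ℕ) : ℤ) - _ * ((_ : ℕ) : ℤ) = _
    push_cast
    rfl
  | mul a b iha ihb =>
    simp only [hz, hv, iha, ihb]
    rfl

lemma map_hv {R S : Type} [CommRing R] [CommRing S] (φ : R →+* S) (x0 x1 y0 y1 : R) (e : PE) :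
    φ (hv x0 x1 y0 y1 e) = hv (φ x0) (φ x1) (φ y0) (φ y1) e := by
  induction e with
  | num n => simp [hv]
  | U => simp [hv]
  | V => simp [hv]
  | add a b iha ihb => simp [hv, iha, ihb]
  | sub a b iha ihb => simp [hv, iha, ihb]
  | mul a b iha ihb => simp [hv, iha, ihb]

lemma hv_eq {K : Type} [Field K] (x0 x1 y0 y1 : K) (hx : x0 ≠ 0) (hy : y0 ≠ 0) (e : PE) :
    hv x0 x1 y0 y1 e = x0 ^ du e * y0 ^ dv e * ev (x1 / x0) (y1 / y0) e := by
  induction e with
  | num n => simp [hv, ev, du, dv]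
  | U => simp only [hv, ev, du, dv]; field_simp
  | V => simp only [hv, ev, du, dv]; field_simp
  | add a b iha ihb =>
    have h1 : du a + (du b - du a) = du b + (du a - du b) := by omega
    have h2 : dv a + (dv b - dv a) = dv b + (dv a - dv b) := by omega
    have e1 : x0 ^ (du a + (du b - du a)) * y0 ^ (dv a + (dv b - dv a)) =
        x0 ^ (du b + (du a - du b)) * y0 ^ (dv b + (dv a - dv b)) := by rw [h1, h2]
    simp only [hv, ev, du, dv, iha, ihb]
    rw [mul_add]
    nth_rewrite 2 [e1]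
    simp only [pow_add]
    ring
  | sub a b iha ihb =>
    have h1 : du a + (du b - du a) = du b + (du a - du b) := by omega
    have h2 : dv a + (dv b - dv a) = dv b + (dv a - dv b) := by omega
    have e1 : x0 ^ (du a + (du b - du a)) * y0 ^ (dv a + (dv b - dv a)) =
        x0 ^ (du b + (du a - du b)) * y0 ^ (dv b + (dv a - dv b)) := by rw [h1, h2]
    simp only [hv, ev, du, dv, iha, ihb]
    rw [mul_sub]
    nth_rewrite 2 [e1]
    simp only [pow_add]
    ring
  | mul a b iha ihb =>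
    simp only [hv, ev, du, dv, iha, ihb, pow_add]
    ring

/-! ### Domination -/

/-- the coefficients of `p` are bounded by those of `q` -/
def Dom (p : ℤ[X][X]) (q : ℕ[X][X]) : Prop :=
  ∀ j i, |(p.coeff j).coeff i| ≤ (((q.coeff j).coeff i : ℕ) : ℤ)

/-- the degrees of `p` are at most `d` (inner variable) and `d'` (outer variable) -/
def Deg (p : ℤ[X][X]) (d d' : ℕ) : Prop :=
  ∀ j i, (d < i ∨ d' < j) → (p.coeff j).coeff i = 0

lemma Dom.add {p p' : ℤ[X][X]} {q q' : ℕ[X][X]} (h : Dom p q) (h' : Dom p' q') :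
    Dom (p + p') (q + q') := by
  intro j i
  simp only [coeff_add, Nat.cast_add]
  exact (abs_add_le _ _).trans (add_le_add (h j i) (h' j i))

lemma Dom.sub {p p' : ℤ[X][X]} {q q' : ℕ[X][X]} (h : Dom p q) (h' : Dom p' q') :
    Dom (p - p') (q + q') := by
  intro j i
  simp only [coeff_add, coeff_sub, Nat.cast_add]
  exact (abs_sub _ _).trans (add_le_add (h j i) (h' j i))

lemma Dom.mul {p p' : ℤ[X][X]} {q q' : ℕ[X][X]} (h : Dom p q) (h' : Dom p' q') :
    Dom (p * p') (q * q') := by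
  intro j i
  simp only [coeff_mul, finsetSum_coeff, Nat.cast_sum, Nat.cast_mul]
  refine (Finset.abs_sum_le_sum_abs _ _).trans (Finset.sum_le_sum fun x _ => ?_)
  refine (Finset.abs_sum_le_sum_abs _ _).trans (Finset.sum_le_sum fun y _ => ?_)
  rw [abs_mul]
  exact mul_le_mul (h _ _) (h' _ _) (abs_nonneg _) (by positivity)

lemma Dom.one : Dom 1 1 := by
  intro j i
  simp only [coeff_one]
  split_ifs <;> simp [coeff_one]
  split_ifs <;> simp

lemma Dom.pow {p : ℤ[X][X]} {q : ℕ[X][X]} (h : Dom p q) (n : ℕ) : Dom (p ^ n) (q ^ n) := by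
  induction n with
  | zero => simpa using Dom.one
  | succ n ih => rw [pow_succ, pow_succ]; exact ih.mul h

lemma Deg.add {p p' : ℤ[X][X]} {d d' : ℕ} (h : Deg p d d') (h' : Deg p' d d') :
    Deg (p + p') d d' := by
  intro j i hi
  simp only [coeff_add, h j i hi, h' j i hi, add_zero]

lemma Deg.sub {p p' : ℤ[X][X]} {d d' : ℕ} (h : Deg p d d') (h' : Deg p' d d') :
    Deg (p - p') d d' := by
  intro j i hi
  simp only [coeff_sub, h j i hi, h' j i hi, sub_zero]

lemma Deg.mul {p p' : ℤ[X][X]} {d d' c c' : ℕ} (h : Deg p d d') (h' : Deg p' c c') :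
    Deg (p * p') (d + c) (d' + c') := by
  intro j i hi
  simp only [coeff_mul, finsetSum_coeff]
  refine Finset.sum_eq_zero fun x hx => Finset.sum_eq_zero fun y hy => ?_
  have hx' := Finset.HasAntidiagonal.mem_antidiagonal.mp hx
  have hy' := Finset.HasAntidiagonal.mem_antidiagonal.mp hy
  by_cases h1 : d < y.1 ∨ d' < x.1
  · rw [h _ _ h1, zero_mul]
  · have h2 : c < y.2 ∨ c' < x.2 := by
      push Not at h1
      rcases hi with hi | hi
      · left; omega
      · right; omega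
    rw [h' _ _ h2, mul_zero]

lemma Deg.mono {p : ℤ[X][X]} {d d' c c' : ℕ} (h : Deg p d d') (h1 : d ≤ c) (h2 : d' ≤ c') :
    Deg p c c' := by
  intro j i hi
  apply h
  omega

lemma Deg.one : Deg 1 0 0 := by
  intro j i hi
  simp only [coeff_one]
  split_ifs with hj
  · subst hj
    simp only [coeff_one]
    rw [if_neg]
    omega
  · simp

lemma Deg.pow {p : ℤ[X][X]} {d d' : ℕ} (h : Deg p d d') (n : ℕ) : Deg (p ^ n) (n * d) (n * d') := by
  induction n with
  | zero => simpa using Deg.one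
  | succ n ih =>
    rw [pow_succ, Nat.succ_mul, Nat.succ_mul]
    exact ih.mul h

/-- dominating polynomial -/
noncomputable def hd (x0 x1 y0 y1 : ℕ[X][X]) : PE → ℕ[X][X]
  | num n => ((n.natAbs : ℕ) : ℕ[X][X])
  | U => x1
  | V => y1
  | add a b => hd x0 x1 y0 y1 a * (x0 ^ (du b - du a) * y0 ^ (dv b - dv a)) +
      hd x0 x1 y0 y1 b * (x0 ^ (du a - du b) * y0 ^ (dv a - dv b))
  | sub a b => hd x0 x1 y0 y1 a * (x0 ^ (du b - du a) * y0 ^ (dv b - dv a)) +
      hd x0 x1 y0 y1 b * (x0 ^ (du a - du b) * y0 ^ (dv a - dv b))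
  | mul a b => hd x0 x1 y0 y1 a * hd x0 x1 y0 y1 b

lemma dom_hv {x0 x1 y0 y1 : ℤ[X][X]} {x0' x1' y0' y1' : ℕ[X][X]} (hx0 : Dom x0 x0')
    (hx1 : Dom x1 x1') (hy0 : Dom y0 y0') (hy1 : Dom y1 y1') (e : PE) :
    Dom (hv x0 x1 y0 y1 e) (hd x0' x1' y0' y1' e) := by
  induction e with
  | num n =>
    intro j i
    simp only [hv, hd]
    have e1 : ((n : ℤ[X][X])).coeff j = if j = 0 then (n : ℤ[X]) else 0 := by
      rw [← C_eq_intCast, coeff_C]
    have e2 : (((n.natAbs : ℕ) : ℕ[X][X])).coeff j = if j = 0 then ((n.natAbs : ℕ) : ℕ[X]) else 0 := by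
      rw [← C_eq_natCast, coeff_C]
    rw [e1, e2]
    split_ifs
    · rw [← C_eq_intCast, ← C_eq_natCast, coeff_C, coeff_C]
      split_ifs <;> simp
    · simp
  | U => exact hx1
  | V => exact hy1
  | add a b iha ihb =>
    exact (iha.mul ((hx0.pow _).mul (hy0.pow _))).add (ihb.mul ((hx0.pow _).mul (hy0.pow _)))
  | sub a b iha ihb =>
    exact (iha.mul ((hx0.pow _).mul (hy0.pow _))).sub (ihb.mul ((hx0.pow _).mul (hy0.pow _)))
  | mul a b iha ihb => exact iha.mul ihb

lemma deg_hv {x0 x1 y0 y1 : ℤ[X][X]} (hx0 : Deg x0 1 0)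
    (hx1 : Deg x1 1 0) (hy0 : Deg y0 0 1) (hy1 : Deg y1 0 1) (e : PE) :
    Deg (hv x0 x1 y0 y1 e) (du e) (dv e) := by
  induction e with
  | num n =>
    intro j i hi
    simp only [hv]
    rw [← C_eq_intCast, coeff_C]
    split_ifs with hj
    · rw [← C_eq_intCast, coeff_C, if_neg]
      simp only [du, dv] at hi
      omega
    · simp
  | U => exact hx1
  | V => exact hy1
  | add a b iha ihb =>
    refine Deg.add ?_ ?_
    · refine (iha.mul ((hx0.pow _).mul (hy0.pow _))).mono ?_ ?_ <;> simp only [du, dv] <;> omega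
    · refine (ihb.mul ((hx0.pow _).mul (hy0.pow _))).mono ?_ ?_ <;> simp only [du, dv] <;> omega
  | sub a b iha ihb =>
    refine Deg.sub ?_ ?_
    · refine (iha.mul ((hx0.pow _).mul (hy0.pow _))).mono ?_ ?_ <;> simp only [du, dv] <;> omega
    · refine (ihb.mul ((hx0.pow _).mul (hy0.pow _))).mono ?_ ?_ <;> simp only [du, dv] <;> omega
  | mul a b iha ihb => exact iha.mul ihb

/-- evaluation at `(1, 1)` -/
noncomputable def psi : ℕ[X][X] →+* ℕ := (evalRingHom (1 : ℕ)).comp (evalRingHom (1 : ℕ[X]))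

lemma psi_hd (x0 x1 y0 y1 : ℕ[X][X]) (e : PE) :
    psi (hd x0 x1 y0 y1 e) = hn (psi x0) (psi x1) (psi y0) (psi y1) e := by
  induction e with
  | num n => simp only [hd, hn, map_natCast]; rfl
  | U => rfl
  | V => rfl
  | add a b iha ihb => simp only [hd, hn, map_add, map_mul, map_pow, iha, ihb]
  | sub a b iha ihb => simp only [hd, hn, map_add, map_mul, map_pow, iha, ihb]
  | mul a b iha ihb => simp only [hd, hn, map_mul, iha, ihb]

lemma coeff_le_eval_one {R : Type} [CommSemiring R] [PartialOrder R] [IsOrderedRing R]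
    [CanonicallyOrderedAdd R] (q : R[X]) (j : ℕ) : q.coeff j ≤ q.eval 1 := by
  rw [eval_eq_sum_range]
  simp only [one_pow, mul_one]
  by_cases hj : j ∈ Finset.range (q.natDegree + 1)
  · exact Finset.single_le_sum (f := fun i => q.coeff i) (fun i _ => zero_le) hj
  · rw [coeff_eq_zero_of_natDegree_lt]
    · exact zero_le
    · simp at hj; omega

lemma coeff_coeff_le_psi (q : ℕ[X][X]) (i j : ℕ) : (q.coeff j).coeff i ≤ psi q := by
  show _ ≤ eval (1 : ℕ) (eval (1 : ℕ[X]) q)
  refine (coeff_le_eval_one (q.coeff j) i).trans ?_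
  rw [eval_eq_sum_range (p := q)]
  simp only [one_pow, mul_one, eval_finsetSum]
  by_cases hj : j ∈ Finset.range (q.natDegree + 1)
  · exact Finset.single_le_sum (f := fun i => (q.coeff i).eval 1) (fun i _ => Nat.zero_le _) hj
  · rw [coeff_eq_zero_of_natDegree_lt (p := q)]
    · simp
    · simp at hj; omega

/-! ### Digits -/

lemma digs_zero (B h N : ℕ) : digs B h 0 N = Nat.beq N 0 := rfl

lemma digs_succ (B h fuel N : ℕ) :
    digs B h (fuel + 1) N = cond (Nat.blt (N % B) h) (digs B h fuel (N / B)) false := rfl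

lemma nonneg_of_digs (B h b : ℕ) (hb : b + h ≤ B) (fuel : ℕ) :
    ∀ (r : ℤ[X]) (N : ℕ), (∀ k, |r.coeff k| ≤ (b : ℤ)) → (∀ k, fuel ≤ k → r.coeff k = 0) →
      r.eval (B : ℤ) = (N : ℤ) → digs B h fuel N = true → ∀ k, 0 ≤ r.coeff k := by
  induction fuel with
  | zero =>
    intro r N _ h0 _ _ k
    rw [h0 k (Nat.zero_le k)]
  | succ fuel ih =>
    intro r N hr h0 hN hd
    rw [digs_succ] at hd
    have hlt : N % B < h := by
      by_contra hcon
      have : Nat.blt (N % B) h = false := by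
        simp only [Nat.blt_eq, ← Bool.not_eq_true]
        exact hcon
      rw [this] at hd
      simp at hd
    have hd' : digs B h fuel (N / B) = true := by
      have : Nat.blt (N % B) h = true := by
        simp only [Nat.blt_eq]
        exact hlt
      rw [this] at hd
      exact hd
    have hBpos : 0 < B := by omega
    have hdec : r.eval (B : ℤ) = r.coeff 0 + (B : ℤ) * (divX r).eval (B : ℤ) := by
      conv_lhs => rw [← divX_mul_X_add r]
      simp only [eval_add, eval_mul, eval_X, eval_C]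
      ring
    have hmod : (B : ℤ) ∣ r.coeff 0 - ((N % B : ℕ) : ℤ) := by
      have h1 : ((N % B : ℕ) : ℤ) = (N : ℤ) - (B : ℤ) * ((N / B : ℕ) : ℤ) := by
        have := Nat.mod_add_div N B
        have h2 : ((N % B : ℕ) : ℤ) + (B : ℤ) * ((N / B : ℕ) : ℤ) = (N : ℤ) := by
          exact_mod_cast this
        linarith
      rw [h1, ← hN, hdec]
      exact ⟨((N / B : ℕ) : ℤ) - (divX r).eval (B : ℤ), by ring⟩
    have habs : |r.coeff 0 - ((N % B : ℕ) : ℤ)| < (B : ℤ) := by
      have h1 := hr 0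
      rw [abs_le] at h1
      have h2 : ((N % B : ℕ) : ℤ) < (h : ℤ) := by exact_mod_cast hlt
      have h3 : (0 : ℤ) ≤ ((N % B : ℕ) : ℤ) := by positivity
      have h4 : (b : ℤ) + (h : ℤ) ≤ (B : ℤ) := by exact_mod_cast hb
      rw [abs_lt]
      constructor <;> linarith
    have hr0 : r.coeff 0 = ((N % B : ℕ) : ℤ) := by
      have := Int.eq_zero_of_abs_lt_dvd hmod habs
      linarith
    have hM : (divX r).eval (B : ℤ) = ((N / B : ℕ) : ℤ) := by
      have h1 : (B : ℤ) * (divX r).eval (B : ℤ) = (B : ℤ) * ((N / B : ℕ) : ℤ) := by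
        have := Nat.mod_add_div N B
        have h2 : ((N % B : ℕ) : ℤ) + (B : ℤ) * ((N / B : ℕ) : ℤ) = (N : ℤ) := by
          exact_mod_cast this
        rw [← hN, hdec, hr0] at h2
        linarith
      exact mul_left_cancel₀ (by exact_mod_cast hBpos.ne') h1
    have key := ih (divX r) (N / B) (fun k => by rw [coeff_divX]; exact hr (k + 1))
      (fun k hk => by rw [coeff_divX]; exact h0 (k + 1) (by omega)) hM hd'
    intro k
    cases k with
    | zero => rw [hr0]; positivity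
    | succ k => have := key k; rwa [coeff_divX] at this

/-- substitution of `X ^ n` for the outer variable -/
lemma coeff_eval_X_pow (p : ℤ[X][X]) (n d' : ℕ) (hn : 0 < n) (hp : Deg p (n - 1) d') (k : ℕ) :
    (p.eval (X ^ n : ℤ[X])).coeff k = (p.coeff (k / n)).coeff (k % n) := by
  rw [eval_eq_sum_range, finsetSum_coeff]
  have hterm : ∀ j, (p.coeff j * (X ^ n : ℤ[X]) ^ j).coeff k =
      if j = k / n then (p.coeff j).coeff (k % n) else 0 := by
    intro j
    rw [← pow_mul, coeff_mul_X_pow']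
    split_ifs with h1 h2 h2
    · subst h2
      congr 1
      have := Nat.mod_add_div k n
      omega
    · apply hp
      left
      have h3 : j ≤ k / n := by rwa [Nat.le_div_iff_mul_le hn, mul_comm]
      have h4 : j + 1 ≤ k / n := by omega
      have h5 : (j + 1) * n ≤ k := by rwa [Nat.le_div_iff_mul_le hn] at h4
      have h6 : (j + 1) * n = n * j + n := by ring
      omega
    · exfalso
      subst h2
      exact h1 (Nat.mul_div_le k n)
    · rfl
  simp only [hterm]
  rw [Finset.sum_ite_eq']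
  split_ifs with h1
  · rfl
  · rw [coeff_eq_zero_of_natDegree_lt (p := p)]
    · simp
    · simp at h1; omega

/-- evaluation at real numbers -/
noncomputable def phi (s t : ℝ) : ℤ[X][X] →+* ℝ :=
  eval₂RingHom (eval₂RingHom (Int.castRingHom ℝ) s) t

lemma phi_pos (p : ℤ[X][X]) (hp : ∀ j i, 0 ≤ (p.coeff j).coeff i) (h0 : 0 < (p.coeff 0).coeff 0)
    (s t : ℝ) (hs : 0 ≤ s) (ht : 0 ≤ t) : 0 < phi s t p := by
  have hin : ∀ j, 0 ≤ (p.coeff j).eval₂ (Int.castRingHom ℝ) s := by
    intro j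
    rw [eval₂_eq_sum_range]
    refine Finset.sum_nonneg fun i _ => mul_nonneg ?_ (pow_nonneg hs i)
    have := hp j i
    simp only [eq_intCast]
    exact_mod_cast this
  have h00 : 0 < (p.coeff 0).eval₂ (Int.castRingHom ℝ) s := by
    rw [eval₂_eq_sum_range]
    refine Finset.sum_pos' (fun i _ => mul_nonneg ?_ (pow_nonneg hs i)) ⟨0, by simp, ?_⟩
    · have := hp 0 i
      simp only [eq_intCast]
      exact_mod_cast this
    · simp only [pow_zero, mul_one, eq_intCast]
      exact_mod_cast h0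
  show 0 < eval₂ (eval₂RingHom (Int.castRingHom ℝ) s) t p
  rw [eval₂_eq_sum_range]
  refine Finset.sum_pos' (fun j _ => mul_nonneg (hin j) (pow_nonneg ht j)) ⟨0, by simp, ?_⟩
  simp only [pow_zero, mul_one]
  exact h00

/-- evaluation at integers -/
noncomputable def chi (s t : ℤ) : ℤ[X][X] →+* ℤ :=
  eval₂RingHom (eval₂RingHom (Int.castRingHom ℤ) s) t

lemma chi_eq (p : ℤ[X][X]) (B : ℤ) (n : ℕ) :
    chi B (B ^ n) p = (p.eval (X ^ n : ℤ[X])).eval B := by
  show eval₂ (eval₂RingHom (Int.castRingHom ℤ) B) (B ^ n) p = _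
  rw [eval₂_eq_sum_range, eval_eq_sum_range (p := p), eval_finsetSum]
  apply Finset.sum_congr rfl
  intro j _
  simp only [eval_mul, eval_pow, eval_X]
  congr 1

lemma check_core (B h n N : ℕ) (p : ℤ[X][X]) (q : ℕ[X][X]) (d' : ℕ) (hn : 0 < n)
    (hdeg : Deg p (n - 1) d') (hdom : Dom p q) (hb : psi q < h) (hh : h + h ≤ B)
    (hN : chi (B : ℤ) ((B : ℤ) ^ n) p = (N : ℤ)) (h0 : 0 < N % B)
    (hd : digs B h (n * (d' + 1)) N = true) (s t : ℝ) (hs : 0 ≤ s) (ht : 0 ≤ t) :
    0 < phi s t p := by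
  set r := p.eval (X ^ n : ℤ[X]) with hr
  have hcoef : ∀ k, r.coeff k = (p.coeff (k / n)).coeff (k % n) :=
    coeff_eval_X_pow p n d' hn hdeg
  have hbound : ∀ k, |r.coeff k| ≤ ((psi q : ℕ) : ℤ) := by
    intro k
    rw [hcoef]
    refine (hdom _ _).trans ?_
    exact_mod_cast coeff_coeff_le_psi q _ _
  have hzero : ∀ k, n * (d' + 1) ≤ k → r.coeff k = 0 := by
    intro k hk
    rw [hcoef]
    apply hdeg
    right
    have : d' + 1 ≤ k / n := by rw [Nat.le_div_iff_mul_le hn, mul_comm]; exact hk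
    omega
  rw [chi_eq] at hN
  have hnn := nonneg_of_digs B h (psi q) (by omega) (n * (d' + 1)) r N hbound hzero hN hd
  have hp : ∀ j i, 0 ≤ (p.coeff j).coeff i := by
    intro j i
    by_cases hi : i < n
    · have := hnn (i + n * j)
      rw [hcoef] at this
      rwa [Nat.add_mul_div_left _ _ hn, Nat.add_mul_mod_self_left, Nat.div_eq_of_lt hi,
        Nat.mod_eq_of_lt hi, zero_add] at this
    · rw [hdeg j i (by left; omega)]
  refine phi_pos p hp ?_ s t hs ht
  -- the constant coefficient is not zero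
  have h00 : 0 ≤ (p.coeff 0).coeff 0 := hp 0 0
  rcases h00.lt_or_eq with hlt | heq
  · exact hlt
  · exfalso
    have hr0 : r.coeff 0 = 0 := by
      rw [hcoef]; simpa using heq.symm
    have hdec : r.eval (B : ℤ) = r.coeff 0 + (B : ℤ) * (divX r).eval (B : ℤ) := by
      conv_lhs => rw [← divX_mul_X_add r]
      simp only [eval_add, eval_mul, eval_X, eval_C]
      ring
    rw [hr0, zero_add, hN] at hdec
    have hdvd : (B : ℤ) ∣ (N : ℤ) := ⟨_, hdec⟩
    have : B ∣ N := by exact_mod_cast hdvd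
    have := Nat.mod_eq_zero_of_dvd this
    omega

/-! ### The check is sound -/

/-- inner variable, homogenized -/
noncomputable def vx0 (p : Bool) : ℤ[X][X] := cond p 1 (C X + 1)
noncomputable def vx1 (p : Bool) : ℤ[X][X] := cond p (C X + 1) (C X)
noncomputable def vy0 (p : Bool) : ℤ[X][X] := cond p 1 (X + 1)
noncomputable def vy1 (p : Bool) : ℤ[X][X] := cond p (X + 1) X
noncomputable def wx0 (p : Bool) : ℕ[X][X] := cond p 1 (C X + 1)
noncomputable def wx1 (p : Bool) : ℕ[X][X] := cond p (C X + 1) (C X)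
noncomputable def wy0 (p : Bool) : ℕ[X][X] := cond p 1 (X + 1)
noncomputable def wy1 (p : Bool) : ℕ[X][X] := cond p (X + 1) X

lemma dom_CX : Dom (C X) (C X) := by
  intro j i
  rw [coeff_C, coeff_C]
  split_ifs
  · rw [coeff_X, coeff_X]; split_ifs <;> simp
  · simp

lemma dom_X : Dom X X := by
  intro j i
  rw [coeff_X, coeff_X]
  split_ifs
  · rw [coeff_one, coeff_one]; split_ifs <;> simp
  · simp

lemma deg_CX : Deg (C X) 1 0 := by
  intro j i hi
  rw [coeff_C]
  split_ifs with h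
  · rw [coeff_X, if_neg]; omega
  · simp

lemma deg_X : Deg X 0 1 := by
  intro j i hi
  rw [coeff_X]
  split_ifs with h
  · rw [coeff_one, if_neg]; omega
  · simp

lemma dom_vx0 (p : Bool) : Dom (vx0 p) (wx0 p) := by
  cases p
  · exact dom_CX.add Dom.one
  · exact Dom.one
lemma dom_vx1 (p : Bool) : Dom (vx1 p) (wx1 p) := by
  cases p
  · exact dom_CX
  · exact dom_CX.add Dom.one
lemma dom_vy0 (p : Bool) : Dom (vy0 p) (wy0 p) := by
  cases p
  · exact dom_X.add Dom.one
  · exact Dom.one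
lemma dom_vy1 (p : Bool) : Dom (vy1 p) (wy1 p) := by
  cases p
  · exact dom_X
  · exact dom_X.add Dom.one

lemma deg_vx0 (p : Bool) : Deg (vx0 p) 1 0 := by
  cases p
  · exact deg_CX.add (Deg.one.mono (by omega) (by omega))
  · exact Deg.one.mono (by omega) (by omega)
lemma deg_vx1 (p : Bool) : Deg (vx1 p) 1 0 := by
  cases p
  · exact deg_CX
  · exact deg_CX.add (Deg.one.mono (by omega) (by omega))
lemma deg_vy0 (p : Bool) : Deg (vy0 p) 0 1 := by
  cases p
  · exact deg_X.add (Deg.one.mono (by omega) (by omega))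
  · exact Deg.one.mono (by omega) (by omega)
lemma deg_vy1 (p : Bool) : Deg (vy1 p) 0 1 := by
  cases p
  · exact deg_X
  · exact deg_X.add (Deg.one.mono (by omega) (by omega))

lemma psi_C_X : psi (C X) = 1 := by simp [psi]
lemma psi_X : psi X = 1 := by simp [psi]

lemma psi_wx0 (p : Bool) : psi (wx0 p) = cond p 1 2 := by
  cases p
  · show psi (C X + 1) = 2
    rw [map_add, psi_C_X, map_one]; rfl
  · exact map_one psi
lemma psi_wx1 (p : Bool) : psi (wx1 p) = cond p 2 1 := by
  cases p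
  · exact psi_C_X
  · show psi (C X + 1) = 2
    rw [map_add, psi_C_X, map_one]; rfl
lemma psi_wy0 (p : Bool) : psi (wy0 p) = cond p 1 2 := by
  cases p
  · show psi (X + 1) = 2
    rw [map_add, psi_X, map_one]; rfl
  · exact map_one psi
lemma psi_wy1 (p : Bool) : psi (wy1 p) = cond p 2 1 := by
  cases p
  · exact psi_X
  · show psi (X + 1) = 2
    rw [map_add, psi_X, map_one]; rfl

lemma chi_C_X (s t : ℤ) : chi s t (C X) = s := by simp [chi]
lemma chi_X (s t : ℤ) : chi s t X = t := by simp [chi]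
lemma phi_C_X (s t : ℝ) : phi s t (C X) = s := by simp [phi]
lemma phi_X (s t : ℝ) : phi s t X = t := by simp [phi]

lemma check_pos (k : ℕ) (hk : 0 < k) (e : PE) (p q : Bool) (h : check k e p q = true) (s t : ℝ)
    (hs : 0 ≤ s) (ht : 0 ≤ t) :
    0 < phi s t (hv (vx0 p) (vx1 p) (vy0 q) (vy1 q) e) := by
  unfold check at h
  dsimp only at h
  have h1 : Nat.blt (hn (cond p 1 2) (cond p 2 1) (cond q 1 2) (cond q 2 1) e)
      (2 ^ (k - 1)) = true := by
    by_contra hcon
    rw [Bool.not_eq_true] at hcon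
    rw [hcon] at h
    simp at h
  rw [h1, cond_true] at h
  have h1' : hn (cond p 1 2) (cond p 2 1) (cond q 1 2) (cond q 2 1) e < 2 ^ (k - 1) := by
    simpa only [Nat.blt_eq] using h1
  generalize hNdef : hz (cond p 1 (2 ^ k + 1)) (cond p (2 ^ k + 1) (2 ^ k))
    (cond q 1 ((2 ^ k) ^ (du e + 1) + 1)) (cond q ((2 ^ k) ^ (du e + 1) + 1)
      ((2 ^ k) ^ (du e + 1))) e = Nz at h
  match Nz, h, hNdef with
  | Int.negSucc _, h, _ => simp at h
  | Int.ofNat N, h, hNdef =>
    simp only at h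
    have h2 : Nat.blt 0 (N % 2 ^ k) = true := by
      by_contra hcon
      rw [Bool.not_eq_true] at hcon
      rw [hcon] at h
      simp at h
    rw [h2, cond_true] at h
    have h2' : 0 < N % 2 ^ k := by simpa only [Nat.blt_eq] using h2
    refine check_core (2 ^ k) (2 ^ (k - 1)) (du e + 1) N _
      (hd (wx0 p) (wx1 p) (wy0 q) (wy1 q) e) (dv e) (Nat.succ_pos _) ?_ ?_ ?_ ?_ ?_ h2' h s t hs ht
    · exact deg_hv (deg_vx0 p) (deg_vx1 p) (deg_vy0 q) (deg_vy1 q) e
    · exact dom_hv (dom_vx0 p) (dom_vx1 p) (dom_vy0 q) (dom_vy1 q) e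
    · rw [psi_hd, psi_wx0, psi_wx1, psi_wy0, psi_wy1]
      exact h1'
    · obtain ⟨k, rfl⟩ : ∃ k', k = k' + 1 := ⟨k - 1, by omega⟩
      rw [Nat.add_sub_cancel, pow_succ]
      omega
    · rw [map_hv]
      have e0 : ((N : ℕ) : ℤ) = Int.ofNat N := rfl
      rw [e0, ← hNdef, hz_eq]
      have ex0 : chi (((2 ^ k : ℕ)) : ℤ) ((((2 ^ k : ℕ)) : ℤ) ^ (du e + 1)) (vx0 p) =
          ((cond p 1 (2 ^ k + 1) : ℕ) : ℤ) := by
        cases p
        · show chi _ _ (C X + 1) = ((2 ^ k + 1 : ℕ) : ℤ)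
          rw [map_add, chi_C_X, map_one]; push_cast; rfl
        · exact map_one _
      have ex1 : chi (((2 ^ k : ℕ)) : ℤ) ((((2 ^ k : ℕ)) : ℤ) ^ (du e + 1)) (vx1 p) =
          ((cond p (2 ^ k + 1) (2 ^ k) : ℕ) : ℤ) := by
        cases p
        · show chi _ _ (C X) = ((2 ^ k : ℕ) : ℤ)
          rw [chi_C_X]
        · show chi _ _ (C X + 1) = ((2 ^ k + 1 : ℕ) : ℤ)
          rw [map_add, chi_C_X, map_one]; push_cast; rfl
      have ey0 : chi (((2 ^ k : ℕ)) : ℤ) ((((2 ^ k : ℕ)) : ℤ) ^ (du e + 1)) (vy0 q) =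
          ((cond q 1 ((2 ^ k) ^ (du e + 1) + 1) : ℕ) : ℤ) := by
        cases q
        · show chi _ _ (X + 1) = (((2 ^ k) ^ (du e + 1) + 1 : ℕ) : ℤ)
          rw [map_add, chi_X, map_one]; push_cast; rfl
        · exact map_one _
      have ey1 : chi (((2 ^ k : ℕ)) : ℤ) ((((2 ^ k : ℕ)) : ℤ) ^ (du e + 1)) (vy1 q) =
          ((cond q ((2 ^ k) ^ (du e + 1) + 1) ((2 ^ k) ^ (du e + 1)) : ℕ) : ℤ) := by
        cases q
        · show chi _ _ X = (((2 ^ k) ^ (du e + 1) : ℕ) : ℤ)
          rw [chi_X]; push_cast; rfl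
        · show chi _ _ (X + 1) = (((2 ^ k) ^ (du e + 1) + 1 : ℕ) : ℤ)
          rw [map_add, chi_X, map_one]; push_cast; rfl
      rw [ex0, ex1, ey0, ey1]

lemma exists_param (x : ℝ) (hx : 0 ≤ x) : ∃ (p : Bool) (s : ℝ), 0 ≤ s ∧
    0 < (cond p 1 (s + 1) : ℝ) ∧ (cond p (s + 1) s : ℝ) / (cond p 1 (s + 1) : ℝ) = x := by
  by_cases h : x < 1
  · refine ⟨false, x / (1 - x), div_nonneg hx (by linarith), ?_, ?_⟩
    · have : 0 ≤ x / (1 - x) := div_nonneg hx (by linarith)
      simp only [cond_false]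
      linarith
    · simp only [cond_false]
      have h1 : (1 - x) ≠ 0 := by linarith
      have h2 : x / (1 - x) + 1 = 1 / (1 - x) := by field_simp; ring
      rw [h2]
      field_simp
  · refine ⟨true, x - 1, by linarith, by simp, ?_⟩
    simp

theorem pos_of_check (k : ℕ) (hk : 0 < k) (e : PE) (h : ∀ p q, check k e p q = true) (x y : ℝ)
    (hx : 0 ≤ x) (hy : 0 ≤ y) : 0 < ev x y e := by
  obtain ⟨p, s, hs, hp0, hpx⟩ := exists_param x hx
  obtain ⟨q, t, ht, hq0, hqy⟩ := exists_param y hy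
  have key := check_pos k hk e p q (h p q) s t hs ht
  rw [map_hv] at key
  have ex0 : phi s t (vx0 p) = cond p 1 (s + 1) := by
    cases p
    · show phi s t (C X + 1) = s + 1
      rw [map_add, phi_C_X, map_one]
    · exact map_one _
  have ex1 : phi s t (vx1 p) = cond p (s + 1) s := by
    cases p
    · exact phi_C_X s t
    · show phi s t (C X + 1) = s + 1
      rw [map_add, phi_C_X, map_one]
  have ey0 : phi s t (vy0 q) = cond q 1 (t + 1) := by
    cases q
    · show phi s t (X + 1) = t + 1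
      rw [map_add, phi_X, map_one]
    · exact map_one _
  have ey1 : phi s t (vy1 q) = cond q (t + 1) t := by
    cases q
    · exact phi_X s t
    · show phi s t (X + 1) = t + 1
      rw [map_add, phi_X, map_one]
  rw [ex0, ex1, ey0, ey1, hv_eq _ _ _ _ hp0.ne' hq0.ne', hpx, hqy] at key
  exact (pos_iff_pos_of_mul_pos key).mp (by positivity)

end PE

end Pool.Agent.TH180
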