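import Pool.Agent.TH180.P1P1

set_option autoImplicit false

open scoped ComplexConjugate Topology ContDiff Manifold OnePoint
open Filter Set

namespace Pool.Agent.TH180

lemma isManifold_of_charts {M : Type} [TopologicalSpace M] [ChartedSpace C2 M]
    (h : ∀ e ∈ atlas C2 M, ∀ e' ∈ atlas C2 M, ∀ z ∈ e.target, e.symm z ∈ e'.source →
      ContDiffAt ℂ ω (fun w => e' (e.symm w)) z) : IsManifold 𝓘(ℂ, C2) ω M := by
  apply isManifold_of_contDiffOn
  intro e e' he he' z hz
  simp only [modelWithCornersSelf_coe_symm, preimage_id_eq, id_eq, modelWithCornersSelf_coe,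
    range_id, inter_univ, OpenPartialHomeomorph.trans_source, OpenPartialHomeomorph.symm_source,
    mem_inter_iff, mem_preimage] at hz
  exact (h e he e' he' z hz.1 hz.2).contDiffWithinAt

lemma contDiffAt_coord_comp {s s' : Bool} {f : C2 → ℂ} {z : C2} (hf : ContDiffAt ℂ ω f z)
    (h : pt s' (f z) ∈ range (pt s)) : ContDiffAt ℂ ω (fun w => rd s (pt s' (f w))) z :=
  ContDiffAt.comp (g := fun t => rd s (pt s' t)) z (contDiffAt_rd_pt h) hf

lemma contDiffAt_apply' (i : Fin 2) (z : C2) : ContDiffAt ℂ ω (fun w : C2 => w i) z :=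
  (contDiff_apply ℂ ℂ i).contDiffAt

instance isManifold_Y : IsManifold 𝓘(ℂ, C2) ω (P1 × P1) := by
  apply isManifold_of_charts
  rintro _ ⟨⟨s₀, s₁⟩, rfl⟩ _ ⟨⟨t₀, t₁⟩, rfl⟩ z _ hz
  rw [contDiffAt_pi]
  intro i
  fin_cases i
  · exact contDiffAt_coord_comp (contDiffAt_apply' 0 z) hz.1
  · exact contDiffAt_coord_comp (contDiffAt_apply' 1 z) hz.2

/-! ### The surface `X = {x₀ y₀ z₀ = x₁ y₁ z₁}` in `ℙ¹ × ℙ¹ × ℙ¹` -/

/-- first homogeneous coordinate -/
noncomputable def hm0 (p : P1) : ℂ := p.elim 0 fun _ => 1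
/-- second homogeneous coordinate -/
noncomputable def hm1 (p : P1) : ℂ := p.elim 1 fun t => t

/-- lifts of the parametrizations -/
def l0 (s : Bool) (t : ℂ) : ℂ := cond s t 1
/-- lifts of the parametrizations -/
def l1 (s : Bool) (t : ℂ) : ℂ := cond s 1 t

lemma l_hm (s : Bool) (t : ℂ) : ∃ c : ℂ, c ≠ 0 ∧ l0 s t = c * hm0 (pt s t) ∧
    l1 s t = c * hm1 (pt s t) := by
  cases s
  · refine ⟨1, one_ne_zero, ?_, ?_⟩
    · show (1 : ℂ) = 1 * 1
      ring
    · show t = 1 * t
      ring
  · by_cases h : t = 0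
    · subst h
      refine ⟨1, one_ne_zero, ?_, ?_⟩
      · show (0 : ℂ) = 1 * hm0 (inversion ((0 : ℂ) : P1))
        rw [inversion_zero]
        show (0 : ℂ) = 1 * 0
        ring
      · show (1 : ℂ) = 1 * hm1 (inversion ((0 : ℂ) : P1))
        rw [inversion_zero]
        show (1 : ℂ) = 1 * 1
        ring
    · refine ⟨t, h, ?_, ?_⟩
      · show t = t * hm0 (inversion (t : P1))
        rw [inversion_coe h]
        show t = t * 1
        ring
      · show 1 = t * hm1 (inversion (t : P1))
        rw [inversion_coe h]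
        show 1 = t * t⁻¹
        field_simp

/-- the equation of the surface -/
def Eqn (x : Fin 3 → P1) : Prop :=
  hm0 (x 0) * hm0 (x 1) * hm0 (x 2) = hm1 (x 0) * hm1 (x 1) * hm1 (x 2)

/-- The surface. -/
abbrev Surf : Type := {x : Fin 3 → P1 // Eqn x}

/-- the factor with coordinate `z 0` -/
def fa : Fin 3 → Fin 3 := ![2, 0, 0]
/-- the factor with coordinate `z 1` -/
def fb : Fin 3 → Fin 3 := ![1, 2, 1]

lemma eqn_iff (j : Fin 3) (x : Fin 3 → P1) : Eqn x ↔
    hm0 (x (fa j)) * hm0 (x (fb j)) * hm0 (x j) = hm1 (x (fa j)) * hm1 (x (fb j)) * hm1 (x j) := by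
  unfold Eqn
  fin_cases j <;> simp only [fa, fb, Fin.zero_eta, Fin.mk_one, Fin.reduceFinMk,
    Matrix.cons_val_zero, Matrix.cons_val_one, Matrix.cons_val]
  · rw [show hm0 (x 2) * hm0 (x 1) * hm0 (x 0) = hm0 (x 0) * hm0 (x 1) * hm0 (x 2) by ring,
      show hm1 (x 2) * hm1 (x 1) * hm1 (x 0) = hm1 (x 0) * hm1 (x 1) * hm1 (x 2) by ring]
  · rw [show hm0 (x 0) * hm0 (x 2) * hm0 (x 1) = hm0 (x 0) * hm0 (x 1) * hm0 (x 2) by ring,
      show hm1 (x 0) * hm1 (x 2) * hm1 (x 1) = hm1 (x 0) * hm1 (x 1) * hm1 (x 2) by ring]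

/-- which chart of `ℙ¹` is used for the factor `i` -/
def sg (j : Fin 3) (s : Bool) (i : Fin 3) : Bool := if i = j then !s else s

/-- which monomial is used for the factor `i` -/
def mm (j i : Fin 3) (z : C2) : ℂ := if i = fa j then z 0 else if i = fb j then z 1 else z 0 * z 1

/-- the parametrizations of the surface, as maps to `(ℙ¹)³` -/
noncomputable def phi0 (j : Fin 3) (s : Bool) (z : C2) : Fin 3 → P1 :=
  fun i => pt (sg j s i) (mm j i z)

lemma sg_fa (j : Fin 3) (s : Bool) : sg j s (fa j) = s := by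
  fin_cases j <;> simp [sg, fa]
lemma sg_fb (j : Fin 3) (s : Bool) : sg j s (fb j) = s := by
  fin_cases j <;> simp [sg, fb]
lemma sg_self (j : Fin 3) (s : Bool) : sg j s j = !s := by
  simp [sg]
lemma mm_fa (j : Fin 3) (z : C2) : mm j (fa j) z = z 0 := by
  simp [mm]
lemma mm_fb (j : Fin 3) (z : C2) : mm j (fb j) z = z 1 := by
  fin_cases j <;> simp [mm, fb, fa]
lemma mm_self (j : Fin 3) (z : C2) : mm j j z = z 0 * z 1 := by
  fin_cases j <;> simp [mm, fb, fa]

lemma phi0_fa (j : Fin 3) (s : Bool) (z : C2) : phi0 j s z (fa j) = pt s (z 0) := by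
  rw [phi0, sg_fa, mm_fa]
lemma phi0_fb (j : Fin 3) (s : Bool) (z : C2) : phi0 j s z (fb j) = pt s (z 1) := by
  rw [phi0, sg_fb, mm_fb]
lemma phi0_self (j : Fin 3) (s : Bool) (z : C2) : phi0 j s z j = pt (!s) (z 0 * z 1) := by
  rw [phi0, sg_self, mm_self]

lemma third (s : Bool) (a b : ℂ) (p q r : P1) (hp : p = pt s a) (hq : q = pt s b) :
    hm0 p * hm0 q * hm0 r = hm1 p * hm1 q * hm1 r ↔ r = pt (!s) (a * b) := by
  subst hp hq
  obtain ⟨c, hc, h0, h1⟩ := l_hm s a
  obtain ⟨d, hd, k0, k1⟩ := l_hm s b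
  have e : hm0 (pt s a) * hm0 (pt s b) * hm0 r = hm1 (pt s a) * hm1 (pt s b) * hm1 r ↔
      l0 s a * l0 s b * hm0 r = l1 s a * l1 s b * hm1 r := by
    rw [h0, h1, k0, k1]
    have hcd : c * d ≠ 0 := mul_ne_zero hc hd
    constructor
    · intro h
      linear_combination c * d * h
    · intro h
      apply mul_left_cancel₀ hcd
      linear_combination h
  rw [e]
  cases s
  · show 1 * 1 * hm0 r = a * b * hm1 r ↔ r = inversion ((a * b : ℂ) : P1)
    induction r using OnePoint.rec with
    | infty =>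
      show (1 : ℂ) * 1 * 0 = a * b * 1 ↔ _
      constructor
      · intro h
        have : a * b = 0 := by linear_combination -h
        rw [this, inversion_zero]
      · intro h
        by_cases hab : a * b = 0
        · rw [hab]; ring
        · rw [inversion_coe hab] at h
          exact absurd h.symm (OnePoint.coe_ne_infty _)
    | coe t =>
      show (1 : ℂ) * 1 * 1 = a * b * t ↔ _
      constructor
      · intro h
        have hab : a * b ≠ 0 := by
          intro h0
          rw [h0] at h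
          norm_num at h
        have ht : t = (a * b)⁻¹ := eq_inv_of_mul_eq_one_right (by linear_combination -h)
        rw [inversion_coe hab, ht]
      · intro h
        by_cases hab : a * b = 0
        · rw [hab, inversion_zero] at h
          exact absurd h (OnePoint.coe_ne_infty _)
        · rw [inversion_coe hab] at h
          have h' : t = (a * b)⁻¹ := OnePoint.coe_injective h
          rw [h', mul_inv_cancel₀ hab]
          ring
  · show a * b * hm0 r = 1 * 1 * hm1 r ↔ r = ((a * b : ℂ) : P1)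
    induction r using OnePoint.rec with
    | infty =>
      show a * b * 0 = (1 : ℂ) * 1 * 1 ↔ _
      constructor
      · intro h
        norm_num at h
      · intro h
        exact absurd h.symm (OnePoint.coe_ne_infty _)
    | coe t =>
      show a * b * 1 = (1 : ℂ) * 1 * t ↔ _
      constructor
      · intro h
        congr 1
        linear_combination -h
      · intro h
        have h' : t = a * b := OnePoint.coe_injective h
        rw [h']
        ring

lemma eqn_phi0 (j : Fin 3) (s : Bool) (z : C2) : Eqn (phi0 j s z) := by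
  rw [eqn_iff j, third s (z 0) (z 1) _ _ _ (phi0_fa j s z) (phi0_fb j s z), phi0_self]

/-- the parametrizations of the surface -/
noncomputable def phi (j : Fin 3) (s : Bool) (z : C2) : Surf := ⟨phi0 j s z, eqn_phi0 j s z⟩

lemma eq_of_fa_fb (j i : Fin 3) : i = fa j ∨ i = fb j ∨ i = j := by
  fin_cases j <;> fin_cases i <;> simp [fa, fb]

lemma eq_phi {j : Fin 3} {s : Bool} {x : Surf} {a b : ℂ} (ha : x.1 (fa j) = pt s a)
    (hb : x.1 (fb j) = pt s b) : x = phi j s ![a, b] := by
  have hx := x.2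
  rw [eqn_iff j, third s a b _ _ _ ha hb] at hx
  apply Subtype.ext
  funext i
  rcases eq_of_fa_fb j i with h | h | h
  · rw [h, ha]
    show pt s a = phi0 j s ![a, b] (fa j)
    rw [phi0_fa]
    rfl
  · rw [h, hb]
    show pt s b = phi0 j s ![a, b] (fb j)
    rw [phi0_fb]
    rfl
  · subst h
    rw [hx]
    show pt (!s) (a * b) = phi0 i s ![a, b] i
    rw [phi0_self]
    rfl

lemma continuous_mm (j i : Fin 3) : Continuous (mm j i) := by
  unfold mm
  split_ifs
  · exact continuous_apply 0
  · exact continuous_apply 1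
  · exact (continuous_apply 0).mul (continuous_apply 1)

lemma continuous_phi (j : Fin 3) (s : Bool) : Continuous (phi j s) := by
  refine Continuous.subtype_mk ?_ _
  rw [continuous_pi_iff]
  intro i
  exact (continuous_pt _).comp (continuous_mm j i)

/-- The six charts of the surface. -/
noncomputable def cX (j : Fin 3) (s : Bool) : OpenPartialHomeomorph Surf C2 where
  toFun x := ![rd s (x.1 (fa j)), rd s (x.1 (fb j))]
  invFun z := phi j s z
  source := {x | x.1 (fa j) ∈ range (pt s) ∧ x.1 (fb j) ∈ range (pt s)}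
  target := univ
  map_source' _ _ := mem_univ _
  map_target' z _ := ⟨⟨z 0, (phi0_fa j s z).symm⟩, ⟨z 1, (phi0_fb j s z).symm⟩⟩
  left_inv' x hx := (eq_phi (pt_rd hx.1).symm (pt_rd hx.2).symm).symm
  right_inv' z _ := by
    funext i
    fin_cases i
    · show rd s (phi0 j s z (fa j)) = z 0
      rw [phi0_fa, rd_pt]
    · show rd s (phi0 j s z (fb j)) = z 1
      rw [phi0_fb, rd_pt]
  open_source := by
    have h : ∀ i : Fin 3, Continuous fun x : Surf => x.1 i := fun i =>
      (continuous_apply i).comp continuous_subtype_val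
    exact ((isOpen_range_pt s).preimage (h (fa j))).inter ((isOpen_range_pt s).preimage (h (fb j)))
  open_target := isOpen_univ
  continuousOn_toFun := by
    have h : ∀ i : Fin 3, Continuous fun x : Surf => x.1 i := fun i =>
      (continuous_apply i).comp continuous_subtype_val
    rw [continuousOn_pi]
    intro i
    fin_cases i
    · exact (continuousOn_rd s).comp (h (fa j)).continuousOn fun x hx => hx.1
    · exact (continuousOn_rd s).comp (h (fb j)).continuousOn fun x hx => hx.2
  continuousOn_invFun := (continuous_phi j s).continuousOn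

lemma exists_phi (x : Surf) : ∃ j s z, phi j s z = x ∧ ∀ i, ‖z i‖ ≤ 1 := by
  obtain ⟨s₀, t₀, h₀, n₀⟩ := exists_pt_le (x.1 0)
  obtain ⟨s₁, t₁, h₁, n₁⟩ := exists_pt_le (x.1 1)
  obtain ⟨s₂, t₂, h₂, n₂⟩ := exists_pt_le (x.1 2)
  by_cases h01 : s₀ = s₁
  · subst h01
    refine ⟨2, s₀, ![t₀, t₁], (eq_phi (j := 2) h₀.symm h₁.symm).symm, ?_⟩
    intro i
    fin_cases i
    · exact n₀
    · exact n₁
  · by_cases h02 : s₀ = s₂
    · subst h02
      refine ⟨1, s₀, ![t₀, t₂], (eq_phi (j := 1) h₀.symm h₂.symm).symm, ?_⟩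
      intro i
      fin_cases i
      · exact n₀
      · exact n₂
    · have h12 : s₂ = s₁ := by
        cases s₀ <;> cases s₁ <;> cases s₂ <;> simp_all
      subst h12
      refine ⟨0, s₂, ![t₂, t₁], (eq_phi (j := 0) h₂.symm h₁.symm).symm, ?_⟩
      intro i
      fin_cases i
      · exact n₂
      · exact n₁

lemma exists_mem_source (x : Surf) : ∃ k : Fin 3 × Bool, x ∈ (cX k.1 k.2).source := by
  obtain ⟨j, s, z, h, _⟩ := exists_phi x
  refine ⟨(j, s), ?_⟩
  rw [← h]
  exact (cX j s).map_target (mem_univ z)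

/-- The surface as a complex surface: the atlas consists of the six charts `cX`. -/
noncomputable instance instX : ChartedSpace C2 Surf where
  atlas := range fun k : Fin 3 × Bool => cX k.1 k.2
  chartAt x := cX (exists_mem_source x).choose.1 (exists_mem_source x).choose.2
  mem_chart_source x := (exists_mem_source x).choose_spec
  chart_mem_atlas x := ⟨(exists_mem_source x).choose, rfl⟩

lemma contDiffAt_mm (j i : Fin 3) (z : C2) : ContDiffAt ℂ ω (mm j i) z := by
  unfold mm
  split_ifs
  · exact contDiffAt_apply' 0 z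
  · exact contDiffAt_apply' 1 z
  · exact (contDiffAt_apply' 0 z).mul (contDiffAt_apply' 1 z)

lemma contDiffAt_trans (j j' : Fin 3) (s s' : Bool) (z : C2) (h : phi j s z ∈ (cX j' s').source) :
    ContDiffAt ℂ ω (fun w => cX j' s' ((cX j s).symm w)) z := by
  rw [contDiffAt_pi]
  intro i
  fin_cases i
  · exact contDiffAt_coord_comp (contDiffAt_mm j _ z) h.1
  · exact contDiffAt_coord_comp (contDiffAt_mm j _ z) h.2

instance isManifold_X : IsManifold 𝓘(ℂ, C2) ω Surf := by
  apply isManifold_of_charts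
  rintro _ ⟨⟨j, s⟩, rfl⟩ _ ⟨⟨j', s'⟩, rfl⟩ z _ hz
  exact contDiffAt_trans j j' s s' z hz

instance compactSpace_X : CompactSpace Surf := by
  constructor
  have h : (univ : Set Surf) = ⋃ k : Fin 3 × Bool,
      phi k.1 k.2 '' (Set.pi univ fun _ => Metric.closedBall (0 : ℂ) 1) := by
    symm
    rw [eq_univ_iff_forall]
    intro x
    obtain ⟨j, s, z, h, hz⟩ := exists_phi x
    rw [mem_iUnion]
    refine ⟨(j, s), z, ?_, h⟩
    intro i _
    simpa using hz i
  rw [h]
  exact isCompact_iUnion fun k =>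
    (isCompact_univ_pi fun _ => isCompact_closedBall _ _).image (continuous_phi _ _)

instance t2Space_X : T2Space Surf := inferInstance

/-! ### The blow-down map -/

/-- the projection to the first two factors -/
def blowDown (x : Surf) : P1 × P1 := (x.1 0, x.1 1)

lemma mem_atlas_X (j : Fin 3) (s : Bool) : cX j s ∈ HolChart Surf :=
  IsManifold.subset_maximalAtlas ⟨(j, s), rfl⟩

lemma mem_atlas_Y (s s' : Bool) : cY s s' ∈ HolChart (P1 × P1) :=
  IsManifold.subset_maximalAtlas ⟨(s, s'), rfl⟩

/-- the point `(0, ∞)` or `(∞, 0)` -/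
noncomputable def cen (s : Bool) : P1 × P1 := (pt s 0, pt (!s) 0)

end Pool.Agent.TH180
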