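import Pool.Agent.TH180.QJets

set_option autoImplicit false

open scoped ComplexConjugate Topology ContDiff
open Filter

namespace Pool.Agent.TH180

/-- Wirtinger derivatives of a holomorphic function -/
lemma hasW_holo {f : C2 → ℂ} {z : C2} (hf : DifferentiableAt ℂ f z) :
    HasW f z (fun k => fderiv ℂ f z (Pi.single k 1)) 0 := by
  unfold HasW
  have h := hf.hasFDerivAt.restrictScalars ℝ
  refine h.congr_fderiv ?_
  ext v
  have hv : v = ∑ k, v k • (Pi.single k (1 : ℂ) : C2) := by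
    ext j
    fin_cases j <;> simp [Fin.sum_univ_two]
  rw [lin_apply, ContinuousLinearMap.coe_restrictScalars']
  conv_lhs => rw [hv]
  simp only [map_sum, map_smul, smul_eq_mul, Pi.zero_apply, zero_mul, add_zero]
  exact Finset.sum_congr rfl fun k _ => mul_comm _ _

lemma HasW.congr_of_eventuallyEq {f g : C2 → ℂ} {z : C2} {a b : Fin 2 → ℂ} (h : HasW f z a b)
    (hfg : g =ᶠ[𝓝 z] f) : HasW g z a b :=
  HasFDerivAt.congr_of_eventuallyEq h hfg

/-- the transformation law of the metric with potential `log P` -/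
theorem gJ_transform {J : (Fin 2 → ℕ) → (Fin 2 → ℕ) → C2 → ℂ} (hJ : JetFamily J)
    {T : C2 → C2} {lam : C2 → ℂ} {U : Set C2} (hU : IsOpen U) {z : C2} (hz : z ∈ U)
    (hT : ∀ w ∈ U, ContDiffAt ℂ ω T w) (hlam : ContDiff ℂ ω lam) (hlam0 : ∀ w ∈ U, lam w ≠ 0)
    (hP : ∀ w ∈ U, J 0 0 w = lam w * conj (lam w) * J 0 0 (T w)) (i j : Fin 2) :
    gJ J z i j = ∑ p, ∑ q, gJ J (T z) p q * fderiv ℂ T z (Pi.single i 1) p *
      conj (fderiv ℂ T z (Pi.single j 1) q) := by
  have hTd : ∀ w ∈ U, HasFDerivAt T (fderiv ℂ T w) w := fun w hw =>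
    ((hT w hw).differentiableAt (by simp)).hasFDerivAt
  have hld : ∀ w, DifferentiableAt ℂ lam w := fun w =>
    (hlam.differentiable (by simp)).differentiableAt
  -- first derivatives
  have h1 : ∀ w ∈ U, J 0 (ee j) w * (J 0 0 w)⁻¹ =
      conj (fderiv ℂ lam w (Pi.single j 1) * (lam w)⁻¹) +
      ∑ p, (J 0 (ee p) (T w) * (J 0 0 (T w))⁻¹) * conj (fderiv ℂ T w (Pi.single j 1) p) := by
    intro w hw
    have e1 := (hJ.hasW 0 0 w).dzb j
    have e2 := (((hasW_holo (hld w)).mul (hasW_holo (hld w)).conj).mul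
      ((hJ.hasW 0 0 (T w)).comp (hTd w hw)))
    have e3 : J 0 0 =ᶠ[𝓝 w] fun w => lam w * conj (lam w) * J 0 0 (T w) := by
      filter_upwards [hU.mem_nhds hw] with w' hw'
      exact hP w' hw'
    have e4 := (e2.congr_of_eventuallyEq e3).dzb j
    rw [e1] at e4
    have h0 := hlam0 w hw
    have h0' : conj (lam w) ≠ 0 := by
      intro h
      exact h0 ((map_eq_zero (starRingEnd ℂ)).mp h)
    have hPT := hJ.ne (T w)
    rw [hP w hw]
    simp only [zero_add, Pi.zero_apply, zero_mul] at e4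
    rw [e4]
    simp only [Fin.sum_univ_two, map_mul, map_inv₀]
    field_simp
  have h2 : (fun w => J 0 (ee j) w * (J 0 0 w)⁻¹) =ᶠ[𝓝 z] fun w =>
      conj (fderiv ℂ lam w (Pi.single j 1) * (lam w)⁻¹) +
      ∑ p, (J 0 (ee p) (T w) * (J 0 0 (T w))⁻¹) * conj (fderiv ℂ T w (Pi.single j 1) p) := by
    filter_upwards [hU.mem_nhds hz] with w hw
    exact h1 w hw
  have hL : ∀ (k : Fin 2) (w : C2), HasW (fun w => J 0 (ee k) w * (J 0 0 w)⁻¹) w
      (fun i => gJ J w i k) (fun l => J 0 (ee k + ee l) w * (J 0 0 w)⁻¹ -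
        J 0 (ee k) w * J 0 (ee l) w * (J 0 0 w)⁻¹ ^ 2) := by
    intro k w
    refine ((hJ.hasW 0 (ee k) w).mul (hJ.hasW_inv w)).congr_ab ?_ ?_
    · intro i
      simp only [zero_add, gJ]
      ring
    · intro i
      ring
  have hd1 : DifferentiableAt ℂ (fun w => fderiv ℂ lam w (Pi.single j 1) * (lam w)⁻¹) z := by
    have h3 : ContDiff ℂ ω (fun w => fderiv ℂ lam w (Pi.single j 1)) :=
      (hlam.fderiv_right (m := ω) (by simp)).clm_apply contDiff_const
    exact ((h3.differentiable (by simp)).differentiableAt).mul ((hld z).inv (hlam0 z hz))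
  have hd2 : ∀ p, DifferentiableAt ℂ (fun w => fderiv ℂ T w (Pi.single j 1) p) z := by
    intro p
    have h3 : ContDiffAt ℂ ω (fun w => fderiv ℂ T w (Pi.single j 1)) z :=
      ((hT z hz).fderiv_right (m := ω) (by simp)).clm_apply contDiffAt_const
    have h4 := h3.differentiableAt (by simp)
    rw [differentiableAt_pi] at h4
    exact h4 p
  have hR := ((hasW_holo hd1).conj).add (HasW.sum Finset.univ (fun p _ =>
    ((hL p (T z)).comp (hTd z hz)).mul (hasW_holo (hd2 p)).conj))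
  have e5 := (hR.congr_of_eventuallyEq h2).dz i
  have e6 := (hL j z).dz i
  rw [e6] at e5
  rw [e5]
  simp only [Pi.add_apply, Pi.zero_apply, map_zero, mul_zero, add_zero, zero_add,
    Fin.sum_univ_two]
  ring

end Pool.Agent.TH180
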