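import Pool.Agent.TH180.Def

set_option autoImplicit false

open scoped ComplexConjugate Topology ContDiff

namespace Pool.Agent.TH180

/-- The real linear map `v ↦ a₀ v₀ + a₁ v₁ + b₀ v̄₀ + b₁ v̄₁`. -/
noncomputable def lin (a b : Fin 2 → ℂ) : C2 →L[ℝ] ℂ :=
  ∑ k, ((a k) • (ContinuousLinearMap.proj (R := ℝ) (φ := fun _ : Fin 2 => ℂ) k : C2 →L[ℝ] ℂ) +
    (b k) • (Complex.conjCLE.toContinuousLinearMap.comp
      (ContinuousLinearMap.proj (R := ℝ) (φ := fun _ : Fin 2 => ℂ) k : C2 →L[ℝ] ℂ)))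

lemma lin_apply (a b : Fin 2 → ℂ) (v : C2) :
    lin a b v = ∑ k, (a k * v k + b k * conj (v k)) := by
  simp [lin]

/-- `f` has the Wirtinger derivatives `a` and `b` at `z`. -/
def HasW (f : C2 → ℂ) (z : C2) (a b : Fin 2 → ℂ) : Prop := HasFDerivAt f (lin a b) z

lemma HasW.dz {f : C2 → ℂ} {z : C2} {a b : Fin 2 → ℂ} (h : HasW f z a b) (k : Fin 2) :
    dz k f z = a k := by
  unfold HasW at h
  unfold TH180.dz
  rw [h.fderiv, lin_apply, lin_apply]
  fin_cases k <;> simp [Fin.sum_univ_two] <;> ring_nf <;> simp <;> ring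

lemma HasW.dzb {f : C2 → ℂ} {z : C2} {a b : Fin 2 → ℂ} (h : HasW f z a b) (k : Fin 2) :
    dzb k f z = b k := by
  unfold HasW at h
  unfold TH180.dzb
  rw [h.fderiv, lin_apply, lin_apply]
  fin_cases k <;> simp [Fin.sum_univ_two] <;> ring_nf <;> simp <;> ring

lemma HasW.differentiableAt {f : C2 → ℂ} {z : C2} {a b : Fin 2 → ℂ} (h : HasW f z a b) :
    DifferentiableAt ℝ f z := HasFDerivAt.differentiableAt h

lemma lin_dz_dzb (L : C2 →L[ℝ] ℂ) :
    L = lin (fun k => (L (Pi.single k 1) - Complex.I * L (Pi.single k Complex.I)) / 2)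
      (fun k => (L (Pi.single k 1) + Complex.I * L (Pi.single k Complex.I)) / 2) := by
  ext v
  rw [lin_apply]
  have hv : v = ∑ k, ((v k).re • (Pi.single k (1 : ℂ) : C2) +
      (v k).im • (Pi.single k Complex.I : C2)) := by
    ext j
    fin_cases j <;> simp [Fin.sum_univ_two, Complex.re_add_im]
  have h1 : L v = ∑ k, (((v k).re : ℂ) * L (Pi.single k (1 : ℂ)) +
      ((v k).im : ℂ) * L (Pi.single k Complex.I)) := by
    conv_lhs => rw [hv]
    simp only [map_sum, map_add, map_smul, Complex.real_smul]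
  rw [h1]
  apply Finset.sum_congr rfl
  intro k _
  have hk : v k = ((v k).re : ℂ) + ((v k).im : ℂ) * Complex.I := (Complex.re_add_im _).symm
  have hk' : conj (v k) = ((v k).re : ℂ) - ((v k).im : ℂ) * Complex.I := by
    conv_lhs => rw [hk]
    simp [Complex.ext_iff]
  rw [hk']
  conv_rhs => rw [hk]
  simp only [Complex.add_re, Complex.ofReal_re, Complex.mul_re, Complex.I_re, Complex.ofReal_im,
    Complex.I_im, Complex.add_im, Complex.mul_im]
  ring_nf
  simp

lemma hasW_of_differentiableAt {f : C2 → ℂ} {z : C2} (h : DifferentiableAt ℝ f z) :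
    HasW f z (fun k => dz k f z) (fun k => dzb k f z) := by
  unfold HasW
  have := h.hasFDerivAt
  rw [lin_dz_dzb (fderiv ℝ f z)] at this
  exact this

/-! ### Rules -/

lemma HasW.congr_ab {f : C2 → ℂ} {z : C2} {a b a' b' : Fin 2 → ℂ} (h : HasW f z a b)
    (ha : ∀ k, a k = a' k) (hb : ∀ k, b k = b' k) : HasW f z a' b' := by
  have h1 : a = a' := funext ha
  have h2 : b = b' := funext hb
  rw [← h1, ← h2]
  exact h

lemma hasW_const (c : ℂ) (z : C2) : HasW (fun _ => c) z 0 0 := by
  unfold HasW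
  have : lin 0 0 = 0 := by
    ext v
    simp [lin_apply]
  rw [this]
  exact hasFDerivAt_const c z

lemma HasW.add {f g : C2 → ℂ} {z : C2} {a b a' b' : Fin 2 → ℂ} (hf : HasW f z a b)
    (hg : HasW g z a' b') : HasW (fun w => f w + g w) z (a + a') (b + b') := by
  unfold HasW at *
  have h := HasFDerivAt.add hf hg
  have e : lin (a + a') (b + b') = lin a b + lin a' b' := by
    ext v
    simp only [lin_apply, add_apply, Pi.add_apply, ← Finset.sum_add_distrib]
    apply Finset.sum_congr rfl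
    intro k _
    ring
  rw [e]
  exact h

lemma HasW.neg {f : C2 → ℂ} {z : C2} {a b : Fin 2 → ℂ} (hf : HasW f z a b) :
    HasW (fun w => - f w) z (-a) (-b) := by
  unfold HasW at *
  have h := HasFDerivAt.neg hf
  have e : lin (-a) (-b) = - lin a b := by
    ext v
    simp only [lin_apply, neg_apply, Pi.neg_apply, ← Finset.sum_neg_distrib]
    apply Finset.sum_congr rfl
    intro k _
    ring
  rw [e]
  exact h

lemma HasW.sub {f g : C2 → ℂ} {z : C2} {a b a' b' : Fin 2 → ℂ} (hf : HasW f z a b)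
    (hg : HasW g z a' b') : HasW (fun w => f w - g w) z (a - a') (b - b') := by
  simpa [sub_eq_add_neg] using hf.add hg.neg

lemma HasW.mul {f g : C2 → ℂ} {z : C2} {a b a' b' : Fin 2 → ℂ} (hf : HasW f z a b)
    (hg : HasW g z a' b') : HasW (fun w => f w * g w) z
      (fun k => a k * g z + f z * a' k) (fun k => b k * g z + f z * b' k) := by
  unfold HasW at *
  have h := HasFDerivAt.mul hf hg
  refine h.congr_fderiv ?_
  ext v
  simp only [lin_apply, add_apply, smul_apply,
    smul_eq_mul, Finset.mul_sum, ← Finset.sum_add_distrib]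
  apply Finset.sum_congr rfl
  intro k _
  ring

lemma HasW.inv {f : C2 → ℂ} {z : C2} {a b : Fin 2 → ℂ} (hf : HasW f z a b) (h0 : f z ≠ 0) :
    HasW (fun w => (f w)⁻¹) z (fun k => - a k / (f z) ^ 2) (fun k => - b k / (f z) ^ 2) := by
  unfold HasW at *
  have h := (hasDerivAt_inv h0).hasFDerivAt.restrictScalars ℝ
  have h2 := h.comp z hf
  refine HasFDerivAt.congr_fderiv (f := fun w => (f w)⁻¹) h2 ?_
  ext v
  simp only [lin_apply, ContinuousLinearMap.coe_comp, Function.comp_apply,
    ContinuousLinearMap.coe_restrictScalars', ContinuousLinearMap.toSpanSingleton_apply,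
    smul_eq_mul, Finset.sum_mul]
  apply Finset.sum_congr rfl
  intro k _
  field_simp
  ring

lemma hasW_coord (i : Fin 2) (z : C2) : HasW (fun w => w i) z (Pi.single i 1) 0 := by
  unfold HasW
  have h : HasFDerivAt (fun w : C2 => w i)
      (ContinuousLinearMap.proj (R := ℝ) (φ := fun _ : Fin 2 => ℂ) i : C2 →L[ℝ] ℂ) z :=
    (ContinuousLinearMap.proj (R := ℝ) (φ := fun _ : Fin 2 => ℂ) i : C2 →L[ℝ] ℂ).hasFDerivAt
  refine h.congr_fderiv ?_
  ext v
  rw [lin_apply]
  fin_cases i <;> simp [Fin.sum_univ_two]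

lemma hasW_conj_coord (i : Fin 2) (z : C2) :
    HasW (fun w => conj (w i)) z 0 (Pi.single i 1) := by
  unfold HasW
  have h : HasFDerivAt (fun w : C2 => conj (w i))
      (Complex.conjCLE.toContinuousLinearMap.comp
      (ContinuousLinearMap.proj (R := ℝ) (φ := fun _ : Fin 2 => ℂ) i : C2 →L[ℝ] ℂ)) z :=
    (Complex.conjCLE.toContinuousLinearMap.comp
      (ContinuousLinearMap.proj (R := ℝ) (φ := fun _ : Fin 2 => ℂ) i : C2 →L[ℝ] ℂ)).hasFDerivAt
  refine h.congr_fderiv ?_
  ext v
  rw [lin_apply]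
  fin_cases i <;> simp [Fin.sum_univ_two]

lemma HasW.conj {f : C2 → ℂ} {z : C2} {a b : Fin 2 → ℂ} (hf : HasW f z a b) :
    HasW (fun w => conj (f w)) z (fun k => conj (b k)) (fun k => conj (a k)) := by
  unfold HasW at *
  have h := Complex.conjCLE.toContinuousLinearMap.hasFDerivAt (x := f z) |>.comp z hf
  refine HasFDerivAt.congr_fderiv (f := fun w => (starRingEnd ℂ) (f w)) h ?_
  ext v
  simp [lin_apply]
  ring

/-- Composition with a holomorphic map. -/
lemma HasW.comp {f : C2 → ℂ} {T : C2 → C2} {z : C2} {a b : Fin 2 → ℂ} (hf : HasW f (T z) a b)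
    {A : C2 →L[ℂ] C2} (hT : HasFDerivAt T A z) :
    HasW (fun w => f (T w)) z (fun k => ∑ p, a p * A (Pi.single k 1) p)
      (fun k => ∑ p, b p * (starRingEnd ℂ) (A (Pi.single k 1) p)) := by
  unfold HasW at *
  have h := HasFDerivAt.comp z hf (hT.restrictScalars ℝ)
  refine HasFDerivAt.congr_fderiv (f := fun w => f (T w)) h ?_
  ext v
  have hv : A v = ∑ k, v k • A (Pi.single k 1) := by
    conv_lhs => rw [show v = ∑ k, v k • (Pi.single k (1 : ℂ) : C2) by
      ext j; fin_cases j <;> simp [Fin.sum_univ_two]]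
    simp only [map_sum, map_smul]
  simp only [lin_apply, ContinuousLinearMap.coe_comp, Function.comp_apply,
    ContinuousLinearMap.coe_restrictScalars', hv]
  simp only [Fin.sum_univ_two, Pi.add_apply, Pi.smul_apply, smul_eq_mul, map_add, map_mul]
  ring

end Pool.Agent.TH180
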